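import Mathlib

/-!
# Comparison of measures by continuous functions
-/

open MeasureTheory Filter
open scoped ENNReal NNReal Topology BoundedContinuousFunction

namespace Pool.Agent.H991.AP

noncomputable section

/-- comparison of finite measures by continuous functions -/
theorem le_of_cont {X : Type*} [TopologicalSpace X] [MeasurableSpace X] [BorelSpace X]
    [HasOuterApproxClosed X] (m1 m2 : Measure X) [IsFiniteMeasure m1] [IsFiniteMeasure m2]
    [m1.WeaklyRegular] (c : ℝ) (hc : 0 ≤ c)
    (h : ∀ f : X → ℝ, Continuous f → (∀ x, 0 ≤ f x) → ∫ x, f x ∂m1 ≤ c * ∫ x, f x ∂m2) :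
    m1 ≤ ENNReal.ofReal c • m2 := by
  have hclosed : ∀ F : Set X, IsClosed F → m1 F ≤ ENNReal.ofReal c * m2 F := by
    intro F hF
    have t1 := HasOuterApproxClosed.tendsto_lintegral_apprSeq hF m1
    have t2 := HasOuterApproxClosed.tendsto_lintegral_apprSeq hF m2
    have t3 := ENNReal.Tendsto.const_mul (a := ENNReal.ofReal c) t2 (Or.inr ENNReal.ofReal_ne_top)
    refine le_of_tendsto_of_tendsto' t1 t3 fun n => ?_
    have h1 := h (fun x => (hF.apprSeq n x : ℝ)) (by fun_prop) (fun x => NNReal.coe_nonneg _)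
    have i1 : ∀ m : Measure X, IsFiniteMeasure m →
        ∫⁻ x, (hF.apprSeq n x : ℝ≥0∞) ∂m = ENNReal.ofReal (∫ x, (hF.apprSeq n x : ℝ) ∂m) := by
      intro m _
      rw [ofReal_integral_eq_lintegral_ofReal]
      · refine lintegral_congr fun x => ?_
        rw [ENNReal.ofReal_coe_nnreal]
      · refine Integrable.of_bound (C := 1) ?_ (Eventually.of_forall fun x => ?_)
        · have : Continuous fun x => (hF.apprSeq n x : ℝ) := by fun_prop
          exact this.measurable.aestronglyMeasurable
        · rw [Real.norm_eq_abs, abs_of_nonneg (NNReal.coe_nonneg _)]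
          exact_mod_cast HasOuterApproxClosed.apprSeq_apply_le_one hF n x
      · exact Eventually.of_forall fun x => NNReal.coe_nonneg _
    rw [i1 m1 inferInstance, i1 m2 inferInstance, ← ENNReal.ofReal_mul hc]
    exact ENNReal.ofReal_le_ofReal h1
  refine Measure.le_iff.2 fun A hA => ?_
  rw [hA.measure_eq_iSup_isClosed_of_ne_top (measure_ne_top m1 A), Measure.smul_apply, smul_eq_mul]
  refine iSup₂_le fun F hFA => iSup_le fun hF => ?_
  exact (hclosed F hF).trans (mul_le_mul_right (measure_mono hFA) _)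

/-- integrals of bounded functions -/
theorem int_le {X : Type*} [MeasurableSpace X] {m1 m2 : Measure X} [IsFiniteMeasure m2] {c : ℝ}
    (hc : 0 ≤ c) (h : m1 ≤ ENNReal.ofReal c • m2) {f : X → ℝ} (hf : Measurable f)
    (h0 : ∀ x, 0 ≤ f x) {C : ℝ} (hC : ∀ x, f x ≤ C) : ∫ x, f x ∂m1 ≤ c * ∫ x, f x ∂m2 := by
  have hi : Integrable f m2 := Integrable.of_bound (C := C) hf.aestronglyMeasurable
    (Eventually.of_forall fun x => by rw [Real.norm_eq_abs, abs_of_nonneg (h0 x)]; exact hC x)
  have h1 := integral_mono_measure h (Eventually.of_forall h0)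
    (hi.smul_measure ENNReal.ofReal_ne_top)
  rw [integral_smul_measure, ENNReal.toReal_ofReal hc, smul_eq_mul] at h1
  exact h1

end

end Pool.Agent.H991.AP
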