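import Mathlib
import Pool.Agent.H991.AP.Le
import Pool.Agent.H991.DC.Main2
import Pool.Agent.H991.VF.Main4

/-!
# Comparison of a Gibbs state with the torus
-/

open MeasureTheory Matrix Filter
open scoped Matrix.Norms.Frobenius Topology
open Pool.Agent.N899.SB
open Pool.Agent.N899.BB (we)
open Pool.Agent.Y14.Wilson
open Pool.Agent.H991.DC

namespace Pool.Agent.H991.AP

noncomputable section

section box

variable {D l t : ℕ} [NeZero l] [NeZero t]

/-- the lift of a site -/
def lfs (x : St D l t) : SZ D t := (fun j => ((x.1 j).val : ℤ), x.2)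

/-- the lift of a link -/
def lft (e : St D l t × Fin (D + 1)) : LZ D t := (lfs e.1, e.2)

omit [NeZero t] in
lemma red_lfs (x : St D l t) : red l (lfs x) = x := by
  refine Prod.ext ?_ rfl
  funext j
  simp [red, lfs]

omit [NeZero t] in
lemma redL_lft (e : St D l t × Fin (D + 1)) : redL l (lft e) = e := by
  unfold redL lft
  rw [red_lfs]

omit [NeZero t] in
lemma lft_redL (e : LZ D t) (he : ∀ j, 0 ≤ e.1.1 j ∧ e.1.1 j < l) : lft (redL l e) = e := by
  refine Prod.ext (Prod.ext ?_ rfl) rfl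
  funext j
  obtain ⟨h0, h1⟩ := he j
  obtain ⟨n, hn⟩ := Int.eq_ofNat_of_zero_le h0
  change (((((e.1.1 j : ℤ) : ZMod l)).val : ℕ) : ℤ) = e.1.1 j
  rw [hn] at h1 ⊢
  rw [Int.cast_natCast, ZMod.val_natCast_of_lt (by exact_mod_cast h1)]

/-- the links of the box -/
def bx (D l t : ℕ) [NeZero l] [NeZero t] : Finset (LZ D t) := by
  classical
  exact Finset.univ.image (lft : St D l t × Fin (D + 1) → LZ D t)

lemma mem_bx (e : LZ D t) : e ∈ bx D l t ↔ ∀ j, 0 ≤ e.1.1 j ∧ e.1.1 j < l := by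
  classical
  unfold bx
  rw [Finset.mem_image]
  constructor
  · rintro ⟨e', -, rfl⟩ j
    refine ⟨Nat.cast_nonneg _, ?_⟩
    change (((e'.1.1 j).val : ℕ) : ℤ) < l
    exact_mod_cast ZMod.val_lt _
  · intro h
    exact ⟨redL l e, Finset.mem_univ _, lft_redL e h⟩

/-- the links of the box are the links of the torus -/
def bxe (D l t : ℕ) [NeZero l] [NeZero t] : (St D l t × Fin (D + 1)) ≃ (bx D l t) where
  toFun e := ⟨lft e, (mem_bx _).2 fun j => by
    refine ⟨Nat.cast_nonneg _, ?_⟩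
    change (((e.1.1 j).val : ℕ) : ℤ) < l
    exact_mod_cast ZMod.val_lt _⟩
  invFun e := redL l e.1
  left_inv e := redL_lft e
  right_inv e := Subtype.ext (lft_redL e.1 ((mem_bx _).1 e.2))

variable {G : Type*}

/-- the restriction to the box as a configuration of the torus -/
def Rl (l : ℕ) (W : LZ D t → G) : St D l t × Fin (D + 1) → G := fun e => W (lft e)

omit [NeZero t] in
lemma per_Rl (W : LZ D t → G) (e : LZ D t) (he : ∀ j, 0 ≤ e.1.1 j ∧ e.1.1 j < l) :
    per (Rl l W) e = W e := by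
  change W (lft (redL l e)) = W e
  rw [lft_redL e he]

omit [NeZero t] in
lemma Rl_per (V : St D l t × Fin (D + 1) → G) : Rl l (per V) = V := by
  funext e
  change V (redL l (lft e)) = V e
  rw [redL_lft]

variable [Group G]

omit [NeZero t] in
lemma pq_Rl (W : LZ D t → G) (y : SZ D t) (hy : ∀ j, 0 ≤ y.1 j ∧ y.1 j + 1 < l)
    (a b : Fin (D + 1)) : pq (ev D l t) (Rl l W) (red l y) a b = pq (evZ D t) W y a b := by
  rw [← pq_per]
  have h0 : ∀ k, per (Rl l W) (y, k) = W (y, k) := by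
    intro k
    refine per_Rl W _ fun j => ?_
    have := hy j
    change 0 ≤ y.1 j ∧ y.1 j < l
    omega
  have h1 : ∀ m k, per (Rl l W) (y + evZ D t m, k) = W (y + evZ D t m, k) := by
    intro m k
    refine per_Rl W _ fun j => ?_
    have h2 := hy j
    have h3 := evZ_bd D t m j
    change 0 ≤ y.1 j + (evZ D t m).1 j ∧ y.1 j + (evZ D t m).1 j < l
    omega
  unfold pq
  rw [h0, h1, h1, h0]

end box

section eng

variable {N : ℕ} {G : Subgroup (UU N)} {D l t : ℕ} [NeZero l] [NeZero t]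

/-- a box of sites -/
def sb (D t : ℕ) [NeZero t] (a b : ℤ) : Finset (SZ D t) :=
  (Fintype.piFinset fun _ => Finset.Ico a b) ×ˢ Finset.univ

lemma mem_sb (a b : ℤ) (y : SZ D t) : y ∈ sb D t a b ↔ ∀ j, a ≤ y.1 j ∧ y.1 j < b := by
  unfold sb
  rw [Finset.mem_product, Fintype.mem_piFinset]
  simp only [Finset.mem_Ico, Finset.mem_univ, and_true]

lemma card_sb (a b : ℤ) : (sb D t a b).card = (b - a).toNat ^ D * t := by
  unfold sb
  rw [Finset.card_product, Fintype.card_piFinset]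
  simp only [Int.card_Ico, Finset.prod_const, Finset.card_univ, Fintype.card_fin, ZMod.card]

/-- the terms of the action of the torus -/
def TT (V : St D l t × Fin (D + 1) → G) (x : St D l t) : ℝ :=
  ∑ i, ∑ j, if i < j then we (pq (ev D l t) V x i j) else 0

open Classical in
/-- the terms of the energy -/
def TE (Λ : Finset (LZ D t)) (W : LZ D t → G) (y : SZ D t) : ℝ :=
  ∑ i, ∑ j, if touch Λ (y, i, j) then we (pq (evZ D t) W y i j) else 0

omit [NeZero l] [NeZero t] in
lemma sum_bd (f : Fin (D + 1) → Fin (D + 1) → ℝ) (h0 : ∀ i j, 0 ≤ f i j)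
    (h1 : ∀ i j, f i j ≤ 2 * N) : 0 ≤ ∑ i, ∑ j, f i j ∧ ∑ i, ∑ j, f i j ≤ 2 * N * (D + 1) ^ 2 := by
  refine ⟨Finset.sum_nonneg fun i _ => Finset.sum_nonneg fun j _ => h0 i j, ?_⟩
  calc ∑ i, ∑ j, f i j ≤ ∑ _i : Fin (D + 1), ∑ _j : Fin (D + 1), (2 * N : ℝ) :=
        Finset.sum_le_sum fun i _ => Finset.sum_le_sum fun j _ => h1 i j
    _ = _ := by
        simp only [Finset.sum_const, Finset.card_univ, Fintype.card_fin, nsmul_eq_mul]
        push_cast
        ring

omit [NeZero l] [NeZero t] in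
lemma TT_bd (V : St D l t × Fin (D + 1) → G) (x : St D l t) :
    0 ≤ TT V x ∧ TT V x ≤ 2 * N * (D + 1) ^ 2 := by
  unfold TT
  refine sum_bd _ (fun i j => ?_) fun i j => ?_
  · split_ifs
    · exact Pool.Agent.N899.BB.Low.we_nonneg _
    · exact le_rfl
  · split_ifs
    · exact Pool.Agent.H991.VF.we_le _
    · positivity

omit [NeZero t] in
lemma TE_bd (Λ : Finset (LZ D t)) (W : LZ D t → G) (y : SZ D t) :
    0 ≤ TE Λ W y ∧ TE Λ W y ≤ 2 * N * (D + 1) ^ 2 := by
  unfold TE
  refine sum_bd _ (fun i j => ?_) fun i j => ?_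
  · split_ifs
    · exact Pool.Agent.N899.BB.Low.we_nonneg _
    · exact le_rfl
  · split_ifs
    · exact Pool.Agent.H991.VF.we_le _
    · positivity

/-- the number of the surface terms -/
def srf (D l t : ℕ) : ℝ := (((l : ℝ) + 1) ^ D - ((l : ℝ) - 1) ^ D) * t

lemma eng_ac (W : LZ D t → G) :
    |eng (bx D l t) W - ac we (ev D l t) (Rl l W)| ≤ 2 * N * (D + 1) ^ 2 * srf D l t := by
  classical
  have hl1 : (1 : ℤ) ≤ l := by
    have := Nat.pos_of_ne_zero (NeZero.ne l)
    omega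
  obtain ⟨C, hC⟩ : ∃ C : ℝ, C = 2 * N * (D + 1) ^ 2 := ⟨_, rfl⟩
  have hC0 : 0 ≤ C := by rw [hC]; positivity
  rw [← hC]
  obtain ⟨BU, hBU⟩ : ∃ BU, BU = (bx D l t).biUnion nbs := ⟨_, rfl⟩
  have e1 : eng (bx D l t) W = ∑ y ∈ BU, TE (bx D l t) W y := by
    rw [eng_eq, hBU]
    rfl
  have e2 : ac we (ev D l t) (Rl l W) = ∑ y ∈ sb D t 0 l, TT (Rl l W) (red l y) := by
    have h1 : sb D t 0 l = (Finset.univ : Finset (St D l t)).image lfs := by
      ext y
      rw [mem_sb, Finset.mem_image]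
      constructor
      · intro h
        refine ⟨red l y, Finset.mem_univ _, ?_⟩
        have := lft_redL (l := l) (y, (0 : Fin (D + 1))) h
        exact (Prod.ext_iff.1 this).1
      · rintro ⟨x, -, rfl⟩ j
        refine ⟨Nat.cast_nonneg _, ?_⟩
        change (((x.1 j).val : ℕ) : ℤ) < l
        exact_mod_cast ZMod.val_lt _
    rw [h1, Finset.sum_image]
    · unfold ac TT
      refine Finset.sum_congr rfl fun x _ => ?_
      rw [red_lfs]
    · intro x _ y _ hxy
      rw [← red_lfs x, hxy, red_lfs]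
  -- the common terms
  have hI : ∀ y ∈ sb D t 0 (l - 1), TE (bx D l t) W y = TT (Rl l W) (red l y) := by
    intro y hy
    rw [mem_sb] at hy
    unfold TE TT
    refine Finset.sum_congr rfl fun i _ => Finset.sum_congr rfl fun j _ => ?_
    have hm : ((y, i) : LZ D t) ∈ bx D l t := (mem_bx _).2 fun k => by
      have := hy k
      change 0 ≤ y.1 k ∧ y.1 k < l
      omega
    by_cases hij : i < j
    · rw [if_pos (show touch (bx D l t) (y, i, j) from ⟨hij, Or.inl hm⟩), if_pos hij,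
        pq_Rl W y (fun k => by have := hy k; omega)]
    · rw [if_neg (fun h => hij h.1), if_neg hij]
  have s1 : sb D t 0 (l - 1) ⊆ BU := by
    intro y hy
    rw [mem_sb] at hy
    rw [hBU, Finset.mem_biUnion]
    refine ⟨(y, 0), (mem_bx _).2 fun k => ?_, Finset.mem_insert_self _ _⟩
    have := hy k
    change 0 ≤ y.1 k ∧ y.1 k < l
    omega
  have s2 : BU ⊆ sb D t (-1) l := by
    intro y hy
    rw [hBU, Finset.mem_biUnion] at hy
    obtain ⟨b, hb, hyb⟩ := hy
    rw [mem_sb]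
    intro j
    have h1 := (mem_bx b).1 hb j
    have h2 := nbs_bd b hyb j
    omega
  have s3 : sb D t 0 (l - 1) ⊆ sb D t 0 l := by
    intro y hy
    rw [mem_sb] at hy ⊢
    intro j
    have := hy j
    omega
  have s4 : sb D t 0 l ⊆ sb D t (-1) l := by
    intro y hy
    rw [mem_sb] at hy ⊢
    intro j
    have := hy j
    omega
  have c1 : ((sb D t (-1) l).card : ℝ) = ((l : ℝ) + 1) ^ D * t := by
    rw [card_sb]
    have : ((l : ℤ) - -1).toNat = l + 1 := by omega
    rw [this]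
    push_cast
    rfl
  have c2 : ((sb D t 0 (l - 1)).card : ℝ) = ((l : ℝ) - 1) ^ D * t := by
    rw [card_sb]
    have : ((l : ℤ) - 1 - 0).toNat = l - 1 := by omega
    rw [this]
    push_cast [Nat.cast_sub (by omega : 1 ≤ l)]
    rfl
  have d1 : ∀ (S : Finset (SZ D t)) (f : SZ D t → ℝ), sb D t 0 (l - 1) ⊆ S → S ⊆ sb D t (-1) l →
      (∀ y, 0 ≤ f y ∧ f y ≤ C) → ∑ y ∈ sb D t 0 (l - 1), f y ≤ ∑ y ∈ S, f y ∧
      ∑ y ∈ S, f y ≤ ∑ y ∈ sb D t 0 (l - 1), f y + C * srf D l t := by
    intro S f h1 h2 hf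
    rw [← Finset.sum_sdiff h1]
    have h3 : ∑ y ∈ S \ sb D t 0 (l - 1), f y ≤ C * srf D l t := by
      calc ∑ y ∈ S \ sb D t 0 (l - 1), f y ≤ ∑ _y ∈ S \ sb D t 0 (l - 1), C :=
            Finset.sum_le_sum fun y _ => (hf y).2
        _ = (S \ sb D t 0 (l - 1)).card * C := by rw [Finset.sum_const, nsmul_eq_mul]
        _ ≤ srf D l t * C := by
            refine mul_le_mul_of_nonneg_right ?_ hC0
            unfold srf
            rw [sub_mul, ← c1, ← c2, Finset.cast_card_sdiff h1]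
            have : (S.card : ℝ) ≤ (sb D t (-1) l).card := by
              exact_mod_cast Finset.card_le_card h2
            linarith
        _ = _ := mul_comm _ _
    have h4 : 0 ≤ ∑ y ∈ S \ sb D t 0 (l - 1), f y := Finset.sum_nonneg fun y _ => (hf y).1
    constructor <;> linarith
  have k1 := d1 BU (TE (bx D l t) W) s1 s2 (fun y => by rw [hC]; exact TE_bd _ W y)
  have k2 := d1 (sb D t 0 l) (fun y => TT (Rl l W) (red l y)) s3 s4
    (fun y => by rw [hC]; exact TT_bd _ _)
  rw [Finset.sum_congr rfl hI] at k1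
  rw [e1, e2, abs_le]
  constructor <;> linarith [k1.1, k1.2, k2.1, k2.2]

end eng

end

end Pool.Agent.H991.AP
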