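import Mathlib
import Pool.Agent.H991.AP.Cmp

/-!
# Comparison of a Gibbs state with the torus: the inequality of the measures
-/

open MeasureTheory Matrix Filter
open scoped Matrix.Norms.Frobenius Topology
open Pool.Agent.N899.SB
open Pool.Agent.N899.BB (we)
open Pool.Agent.Y14.Wilson
open Pool.Agent.H991.DC

namespace Pool.Agent.H991.AP

noncomputable section

variable {N : ℕ} {G : Subgroup (UU N)} [MeasurableSpace G] [BorelSpace G] [CompactSpace G]
  [SecondCountableTopology G] (μ : Measure G) [IsProbabilityMeasure μ] [μ.IsHaarMeasure]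
variable {D l t : ℕ} [NeZero l] [NeZero t]

/-- the conditional expectation -/
def spec (β : ℝ) (Λ : Finset (LZ D t)) (F : (LZ D t → G) → ℝ) (U : LZ D t → G) : ℝ :=
  (∫ V : Λ → G, F (gl Λ V U) * Real.exp (-(β * eng Λ (gl Λ V U))) ∂(Measure.pi fun _ => μ)) /
    ∫ V : Λ → G, Real.exp (-(β * eng Λ (gl Λ V U))) ∂(Measure.pi fun _ => μ)

/-- the DLR equations -/
def IsG (β : ℝ) (ω : Measure (LZ D t → G)) : Prop :=
  ∀ (Λ : Finset (LZ D t)) (F : (LZ D t → G) → ℝ), Continuous F →
    ∫ U, spec μ β Λ F U ∂ω = ∫ U, F U ∂ω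

omit [BorelSpace G] [CompactSpace G] [SecondCountableTopology G] [μ.IsHaarMeasure] in
/-- integrals over the links of the box -/
lemma int_bx (f : (St D l t × Fin (D + 1) → G) → ℝ) :
    ∫ V : bx D l t → G, f (fun e => V (bxe D l t e)) ∂(Measure.pi fun _ => μ) =
      ∫ V, f V ∂(Measure.pi fun _ => μ) := by
  have h := measurePreserving_piCongrLeft (fun _ : St D l t × Fin (D + 1) => μ) (bxe D l t).symm
  have e : (MeasurableEquiv.piCongrLeft (fun _ : St D l t × Fin (D + 1) => G) (bxe D l t).symm :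
      (bx D l t → G) → (St D l t × Fin (D + 1) → G)) = fun V e => V (bxe D l t e) := by
    funext V e
    obtain ⟨e', rfl⟩ := (bxe D l t).symm.surjective e
    rw [MeasurableEquiv.coe_piCongrLeft, Equiv.piCongrLeft_apply_apply, Equiv.apply_symm_apply]
  rw [← h.integral_comp (MeasurableEquiv.measurableEmbedding _) f]
  rw [e]

omit [MeasurableSpace G] [BorelSpace G] [CompactSpace G] [SecondCountableTopology G] in
lemma Rl_gl (V : bx D l t → G) (U : LZ D t → G) :
    Rl l (gl (bx D l t) V U) = fun e => V (bxe D l t e) := by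
  funext e
  unfold Rl gl
  have h : lft e ∈ bx D l t := (bxe D l t e).2
  rw [dif_pos h]
  rfl

omit [MeasurableSpace G] [BorelSpace G] [CompactSpace G] [SecondCountableTopology G] in
lemma Rl_cont : Continuous (Rl l : (LZ D t → G) → (St D l t × Fin (D + 1) → G)) :=
  continuous_pi fun e => continuous_apply (lft e)

/-- the error of the energy -/
def Er (N D l t : ℕ) : ℝ := 2 * N * (D + 1) ^ 2 * srf D l t

lemma spec_le {β : ℝ} (hβ : 0 ≤ β) (f : (St D l t × Fin (D + 1) → G) → ℝ) (hf : Continuous f)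
    (h0 : ∀ V, 0 ≤ f V) (U : LZ D t → G) :
    spec μ β (bx D l t) (fun W => f (Rl l W)) U ≤
      Real.exp (2 * β * Er N D l t) * ∫ V, f V ∂(nu μ D l t β) := by
  have hcf : ∀ Λ : Finset (LZ D t), Continuous fun V : Λ → G => gl Λ V U := fun Λ =>
    (gl_cont Λ).comp (Continuous.prodMk_left U)
  have hce : Continuous fun V : bx D l t → G => eng (bx D l t) (gl (bx D l t) V U) :=
    (eng_cont _).comp (hcf _)
  have hac : Continuous fun V : St D l t × Fin (D + 1) → G => ac (we (G := G)) (ev D l t) V := by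
    unfold ac
    refine continuous_finsetSum _ fun x _ => continuous_finsetSum _ fun i _ =>
      continuous_finsetSum _ fun j _ => ?_
    split_ifs
    · exact Pool.Agent.N899.BB.Low.we_cont.comp (pqZ_cont _ x i j)
    · exact continuous_const
  have hψ : Continuous fun V : bx D l t → G => (fun e => V (bxe D l t e) :
      St D l t × Fin (D + 1) → G) := continuous_pi fun e => continuous_apply _
  obtain ⟨Δ, hΔ⟩ : ∃ Δ, Δ = Er N D l t := ⟨_, rfl⟩
  rw [← hΔ]
  have hd : ∀ V : bx D l t → G, |eng (bx D l t) (gl (bx D l t) V U) -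
      ac we (ev D l t) (fun e => V (bxe D l t e))| ≤ Δ := by
    intro V
    have := eng_ac (l := l) (gl (bx D l t) V U)
    rwa [Rl_gl, ← Er, ← hΔ] at this
  -- numerator and denominator
  have hint : ∀ g : (bx D l t → G) → ℝ, Continuous g → Integrable g (Measure.pi fun _ => μ) := by
    intro g hg
    obtain ⟨C, -, hC⟩ := bound_of_compact hg
    exact bd_int _ hg.measurable hC
  have n1 : ∫ V : bx D l t → G, f (Rl l (gl (bx D l t) V U)) *
      Real.exp (-(β * eng (bx D l t) (gl (bx D l t) V U))) ∂(Measure.pi fun _ => μ) ≤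
      Real.exp (β * Δ) * ∫ V, f V * Real.exp (-(β * ac we (ev D l t) V)) ∂(Measure.pi fun _ => μ) := by
    rw [← int_bx μ (fun V => f V * Real.exp (-(β * ac we (ev D l t) V))), ← integral_const_mul]
    refine integral_mono (hint _ ?_) (hint _ ?_) fun V => ?_
    · exact (hf.comp (Rl_cont.comp (hcf _))).mul (Real.continuous_exp.comp (hce.const_mul β).neg)
    · exact ((hf.comp hψ).mul (Real.continuous_exp.comp ((hac.comp hψ).const_mul β).neg)).const_mul _
    · simp only
      rw [Rl_gl, mul_left_comm, ← Real.exp_add]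
      refine mul_le_mul_of_nonneg_left (Real.exp_le_exp.2 ?_) (h0 _)
      have := mul_le_mul_of_nonneg_left (abs_le.1 (hd V)).1 hβ
      linarith
  have n2 : Real.exp (-(β * Δ)) * prt (D := D) (l := l) (t := t) μ (we (G := G)) β ≤
      ∫ V : bx D l t → G, Real.exp (-(β * eng (bx D l t) (gl (bx D l t) V U)))
        ∂(Measure.pi fun _ => μ) := by
    unfold prt
    rw [← int_bx μ (fun V => Real.exp (-(β * ac we (ev D l t) V))), ← integral_const_mul]
    refine integral_mono (hint _ ?_) (hint _ ?_) fun V => ?_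
    · exact (Real.continuous_exp.comp ((hac.comp hψ).const_mul β).neg).const_mul _
    · exact Real.continuous_exp.comp (hce.const_mul β).neg
    · simp only
      rw [← Real.exp_add]
      refine Real.exp_le_exp.2 ?_
      have := mul_le_mul_of_nonneg_left (abs_le.1 (hd V)).2 hβ
      linarith
  have hZ : 0 < prt (D := D) (l := l) (t := t) μ (we (G := G)) β := by
    unfold prt
    exact integral_exp_pos (exp_int μ D l t β hβ)
  have hd0 : 0 < Real.exp (-(β * Δ)) * prt (D := D) (l := l) (t := t) μ (we (G := G)) β := by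
    positivity
  unfold spec
  rw [div_le_iff₀ (lt_of_lt_of_le hd0 n2)]
  refine n1.trans ?_
  have hfi : 0 ≤ ∫ V, f V ∂(nu μ D l t β) := integral_nonneg h0
  refine le_trans (le_of_eq ?_) (mul_le_mul_of_nonneg_left n2 (by positivity))
  rw [nu_int]
  obtain ⟨I, hI⟩ : ∃ I, I = ∫ V, f V * Real.exp (-(β * ac (we (G := G)) (ev D l t) V))
    ∂(Measure.pi fun _ => μ) := ⟨_, rfl⟩
  obtain ⟨Z, hZ'⟩ : ∃ Z, Z = prt (D := D) (l := l) (t := t) μ (we (G := G)) β := ⟨_, rfl⟩
  rw [← hI, ← hZ']
  rw [← hZ'] at hZ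
  have e1 : Real.exp (2 * β * Δ) * Real.exp (-(β * Δ)) = Real.exp (β * Δ) := by
    rw [← Real.exp_add]
    congr 1
    ring
  rw [← e1]
  field_simp

/-- THE COMPARISON -/
theorem cmp {β : ℝ} (hβ : 0 ≤ β) (ω : Measure (LZ D t → G)) [IsProbabilityMeasure ω]
    (hω : IsG μ β ω) :
    ω.map (Rl l) ≤ ENNReal.ofReal (Real.exp (2 * β * Er N D l t)) • nu μ D l t β := by
  have hRm : Measurable (Rl l : (LZ D t → G) → (St D l t × Fin (D + 1) → G)) := Rl_cont.measurable
  have := nu_prob (G := G) μ D l t β hβ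
  have : IsProbabilityMeasure (ω.map (Rl l)) := Measure.isProbabilityMeasure_map hRm.aemeasurable
  refine le_of_cont _ _ _ (Real.exp_pos _).le fun f hf h0 => ?_
  rw [integral_map hRm.aemeasurable hf.measurable.aestronglyMeasurable,
    ← hω (bx D l t) (fun U => f (Rl l U)) (hf.comp Rl_cont)]
  have h1 : ∫ U, spec μ β (bx D l t) (fun U => f (Rl l U)) U ∂ω ≤
      ∫ _U, Real.exp (2 * β * Er N D l t) * ∫ V, f V ∂(nu μ D l t β) ∂ω := by
    refine integral_mono_of_nonneg (Eventually.of_forall fun U => ?_) (integrable_const _)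
      (Eventually.of_forall fun U => spec_le μ hβ f hf h0 U)
    unfold spec
    refine div_nonneg (integral_nonneg fun V => mul_nonneg (h0 _) (Real.exp_pos _).le)
      (integral_nonneg fun V => (Real.exp_pos _).le)
  rwa [integral_const, probReal_univ, one_smul] at h1

end

end Pool.Agent.H991.AP
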