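import Mathlib
import Pool.Agent.H991.AP.Cmp2

/-!
# The blocks in the infinite lattice
-/

open MeasureTheory Matrix Filter
open scoped Matrix.Norms.Frobenius Topology
open Pool.Agent.N899.SB
open Pool.Agent.N899.BB (we)
open Pool.Agent.Y14.Wilson
open Pool.Agent.H991.DC

namespace Pool.Agent.H991.AP

noncomputable section

variable {N : ℕ} {G : Subgroup (UU N)} {D t : ℕ}

/-- the site `r` of the block `B` -/
def emZ (L : ℕ) (B : Fin D → ℤ) (r : Fin D → ℕ) : Fin D → ℤ := fun j => L * B j + r j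

/-- there is a large plaquette in the block -/
def E1Z (L : ℕ) (ε : ℝ) (B : Fin D → ℤ) (U : LZ D t → G) : Prop :=
  ∃ (r : Fin D → ℕ) (τ : ZMod t) (a b : Fin (D + 1)), a < b ∧ Ok L a b r ∧
    ε < we (pq (evZ D t) U (emZ L B r, τ) a b)

/-- the Polyakov loops in the block have the property `q` -/
def E2Z (L : ℕ) (q : G → Prop) (B : Fin D → ℤ) (U : LZ D t → G) : Prop :=
  ∀ r : Fin D → ℕ, (∀ j, r j ≤ L) → q (PolZ U (emZ L B r))

/-- the block is bad -/
def bdZ (L : ℕ) (ε : ℝ) (q : G → Prop) (B : Fin D → ℤ) (U : LZ D t → G) : Prop :=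
  E1Z L ε B U ∨ E2Z L q B U

/-- the label of the block -/
def LbZ (L : ℕ) (ρ : ℝ) (U : LZ D t → G) (B : Fin D → ℤ) (z : G) : Prop :=
  ∀ r : Fin D → ℕ, (∀ j, r j ≤ L) → ‖mt (PolZ U (emZ L B r)) - mt z‖ ≤ ρ

section loc

/-- the configurations agree in the block -/
def Agr (L : ℕ) (B : Fin D → ℤ) (U V : LZ D t → G) : Prop :=
  ∀ e : LZ D t, (∀ j, L * B j ≤ e.1.1 j ∧ e.1.1 j ≤ L * B j + L) → U e = V e

lemma Agr.symm {L : ℕ} {B : Fin D → ℤ} {U V : LZ D t → G} (h : Agr L B U V) : Agr L B V U :=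
  fun e he => (h e he).symm

lemma Pol_loc {L : ℕ} {B : Fin D → ℤ} {U V : LZ D t → G} (h : Agr L B U V) {r : Fin D → ℕ}
    (hr : ∀ j, r j ≤ L) : PolZ U (emZ L B r) = PolZ V (emZ L B r) := by
  unfold PolZ
  congr 1
  refine List.map_congr_left fun τ _ => ?_
  refine h _ fun j => ?_
  have := hr j
  change (L : ℤ) * B j ≤ L * B j + r j ∧ (L : ℤ) * B j + r j ≤ L * B j + L
  omega

lemma pq_locZ {L : ℕ} {B : Fin D → ℤ} {U V : LZ D t → G} (h : Agr L B U V) {r : Fin D → ℕ}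
    {a b : Fin (D + 1)} (hok : Ok L a b r) (τ : ZMod t) :
    pq (evZ D t) U (emZ L B r, τ) a b = pq (evZ D t) V (emZ L B r, τ) a b := by
  have h0 : ∀ k, U ((emZ L B r, τ), k) = V ((emZ L B r, τ), k) := by
    intro k
    refine h _ fun j => ?_
    have := (hok j).1
    change (L : ℤ) * B j ≤ L * B j + r j ∧ (L : ℤ) * B j + r j ≤ L * B j + L
    omega
  have h1 : ∀ m k, (m = a ∨ m = b) →
      U ((emZ L B r, τ) + evZ D t m, k) = V ((emZ L B r, τ) + evZ D t m, k) := by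
    intro m k hm
    refine h _ fun j => ?_
    have h2 := hok j
    have h3 := evZ_bd D t m j
    change (L : ℤ) * B j ≤ L * B j + r j + (evZ D t m).1 j ∧
      (L : ℤ) * B j + r j + (evZ D t m).1 j ≤ L * B j + L
    by_cases hj : m = j.castSucc
    · have h4 : r j < L := h2.2 (by
        rcases hm with hm | hm
        · left; rw [← hm]; exact hj
        · right; rw [← hm]; exact hj)
      omega
    · have h5 : (evZ D t m).1 j = 0 := by
        refine Fin.lastCases ?_ (fun i hi => ?_) m hj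
        · intro _; rw [evZ_last]; rfl
        · rw [evZ_cast]
          have : j ≠ i := fun h => hi (by rw [h])
          simp [Pi.single_eq_of_ne this]
      have := h2.1
      omega
  unfold pq
  rw [h0, h1 a b (Or.inl rfl), h1 b a (Or.inr rfl), h0]

lemma E1Z_loc {L : ℕ} {ε : ℝ} {B : Fin D → ℤ} {U V : LZ D t → G} (h : Agr L B U V) :
    E1Z L ε B U ↔ E1Z L ε B V := by
  constructor
  · rintro ⟨r, τ, a, b, hab, hok, h1⟩
    exact ⟨r, τ, a, b, hab, hok, by rwa [← pq_locZ h hok]⟩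
  · rintro ⟨r, τ, a, b, hab, hok, h1⟩
    exact ⟨r, τ, a, b, hab, hok, by rwa [pq_locZ h hok]⟩

lemma E2Z_loc {L : ℕ} {q : G → Prop} {B : Fin D → ℤ} {U V : LZ D t → G} (h : Agr L B U V) :
    E2Z L q B U ↔ E2Z L q B V := by
  unfold E2Z
  refine forall_congr' fun r => forall_congr' fun hr => ?_
  rw [Pol_loc h hr]

lemma bdZ_loc {L : ℕ} {ε : ℝ} {q : G → Prop} {B : Fin D → ℤ} {U V : LZ D t → G}
    (h : Agr L B U V) : bdZ L ε q B U ↔ bdZ L ε q B V := or_congr (E1Z_loc h) (E2Z_loc h)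

lemma LbZ_loc {L : ℕ} {ρ : ℝ} {B : Fin D → ℤ} {U V : LZ D t → G} (h : Agr L B U V) (z : G) :
    LbZ L ρ U B z ↔ LbZ L ρ V B z := by
  unfold LbZ
  refine forall_congr' fun r => forall_congr' fun hr => ?_
  rw [Pol_loc h hr]

end loc

section per

variable {L h : ℕ} [NeZero (L * (2 * h))] [NeZero t] [NeZero h]

/-- the block of the torus -/
def cB (h : ℕ) (B : Fin D → ℤ) : Fin D → ZMod (2 * h) := fun j => (B j : ZMod (2 * h))

omit [NeZero (L * (2 * h))] in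
lemma em_red (B : Fin D → ℤ) (r : Fin D → ℕ) :
    (fun j => ((emZ L B r j : ℤ) : ZMod (L * (2 * h)))) = em L (cB h B) r := by
  have : NeZero (2 * h) := ⟨by have := NeZero.ne h; omega⟩
  funext j
  unfold emZ DC.em cB
  have h1 : ((B j : ℤ) : ZMod (2 * h)).val = (B j % ((2 * h : ℕ) : ℤ)).toNat := by
    have h2 := ZMod.val_intCast (n := 2 * h) (B j)
    omega
  have h3 : (((L * ((B j : ℤ) : ZMod (2 * h)).val + r j : ℕ)) : ZMod (L * (2 * h))) =
      (((L : ℤ) * (B j % ((2 * h : ℕ) : ℤ)) + r j : ℤ) : ZMod (L * (2 * h))) := by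
    have h4 := ZMod.val_intCast (n := 2 * h) (B j)
    rw [← h4]
    push_cast
    rfl
  rw [h3, ZMod.intCast_eq_intCast_iff_dvd_sub]
  have h5 : (L : ℤ) * (B j % ((2 * h : ℕ) : ℤ)) + r j - (L * B j + r j) =
      ((L * (2 * h) : ℕ) : ℤ) * (-(B j / ((2 * h : ℕ) : ℤ))) := by
    have h6 := Int.emod_add_mul_ediv (B j) ((2 * h : ℕ) : ℤ)
    have h7 : B j % ((2 * h : ℕ) : ℤ) = B j - ((2 * h : ℕ) : ℤ) * (B j / ((2 * h : ℕ) : ℤ)) := by
      linarith
    rw [h7]
    push_cast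
    ring
  rw [h5]
  exact dvd_mul_right _ _

lemma E1Z_per {ε : ℝ} (B : Fin D → ℤ) (V : St D (L * (2 * h)) t × Fin (D + 1) → G) :
    E1Z L ε B (DC.per V) ↔ E1 we ε (cB h B) V := by
  have h1 : ∀ (r : Fin D → ℕ) (τ : ZMod t) (a b : Fin (D + 1)),
      pq (evZ D t) (DC.per V) (emZ L B r, τ) a b =
        pq (ev D (L * (2 * h)) t) V (em L (cB h B) r, τ) a b := by
    intro r τ a b
    rw [pq_per, ← em_red]
    rfl
  unfold E1Z E1
  simp only [h1]

lemma E2Z_per {q : G → Prop} (B : Fin D → ℤ) (V : St D (L * (2 * h)) t × Fin (D + 1) → G) :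
    E2Z L q B (DC.per V) ↔ E2 q (cB h B) V := by
  unfold E2Z E2
  refine forall_congr' fun r => forall_congr' fun hr => ?_
  rw [PolZ_per, em_red]

lemma bdZ_per {ε : ℝ} {q : G → Prop} (B : Fin D → ℤ)
    (V : St D (L * (2 * h)) t × Fin (D + 1) → G) :
    bdZ L ε q B (DC.per V) ↔ bd ε q (cB h B) V := or_congr (E1Z_per B V) (E2Z_per B V)

lemma LbZ_per {ρ : ℝ} (B : Fin D → ℤ) (V : St D (L * (2 * h)) t × Fin (D + 1) → G) (z : G) :
    LbZ L ρ (DC.per V) B z ↔ Lb ρ V (cB h B) z := by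
  unfold LbZ Lb
  refine forall_congr' fun r => forall_congr' fun hr => ?_
  rw [PolZ_per, em_red]

/-- the configuration in the box -/
lemma agr_box (W : LZ D t → G) (B : Fin D → ℤ) (hB : ∀ j, 0 ≤ B j ∧ B j + 1 < 2 * h) :
    Agr L B W (DC.per (Rl (L * (2 * h)) W)) := by
  intro e he
  refine (per_Rl W e fun j => ?_).symm
  obtain ⟨h1, h2⟩ := he j
  obtain ⟨h3, h4⟩ := hB j
  have hL : (0 : ℤ) < L := by
    have : 0 < L * (2 * h) := Nat.pos_of_ne_zero (NeZero.ne _)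
    have : 0 < L := Nat.pos_of_ne_zero fun h0 => by
      rw [h0, zero_mul] at this
      exact absurd this (lt_irrefl 0)
    exact_mod_cast this
  constructor
  · have : 0 ≤ (L : ℤ) * B j := mul_nonneg hL.le h3
    omega
  · push_cast
    have h5 : (L : ℤ) * (B j + 1) < L * (2 * h) := mul_lt_mul_of_pos_left h4 hL
    have h6 : (L : ℤ) * (B j + 1) = L * B j + L := by ring
    omega

end per

section shift

lemma pq_Tv (v : SZ D t) (U : LZ D t → G) (x : SZ D t) (a b : Fin (D + 1)) :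
    pq (evZ D t) (Tv v U) x a b = pq (evZ D t) U (x + v) a b := by
  unfold pq Tv
  simp only
  rw [add_right_comm x (evZ D t a), add_right_comm x (evZ D t b)]

lemma PolZ_Tv (v : Fin D → ℤ) (U : LZ D t → G) (x : Fin D → ℤ) :
    PolZ (Tv (v, 0) U) x = PolZ U (x + v) := by
  unfold PolZ Tv
  congr 1
  refine List.map_congr_left fun τ _ => ?_
  have : ((x, (τ : ZMod t)) + (v, 0) : SZ D t) = (x + v, (τ : ZMod t)) := by
    refine Prod.ext rfl ?_
    simp
  simp only [this]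

lemma emZ_shift (L : ℕ) (B v : Fin D → ℤ) (r : Fin D → ℕ) :
    emZ L B r + (fun j => (L : ℤ) * v j) = emZ L (B + v) r := by
  funext j
  simp only [emZ, Pi.add_apply]
  ring

lemma E1Z_Tv {L : ℕ} {ε : ℝ} (B v : Fin D → ℤ) (U : LZ D t → G) :
    E1Z L ε B (Tv ((fun j => (L : ℤ) * v j), 0) U) ↔ E1Z L ε (B + v) U := by
  have h1 : ∀ (r : Fin D → ℕ) (τ : ZMod t) (a b : Fin (D + 1)),
      pq (evZ D t) (Tv ((fun j => (L : ℤ) * v j), 0) U) (emZ L B r, τ) a b =
        pq (evZ D t) U (emZ L (B + v) r, τ) a b := by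
    intro r τ a b
    rw [pq_Tv]
    have : ((emZ L B r, τ) + ((fun j => (L : ℤ) * v j), 0) : SZ D t) = (emZ L (B + v) r, τ) := by
      refine Prod.ext (emZ_shift L B v r) ?_
      simp
    rw [this]
  unfold E1Z
  simp only [h1]

lemma E2Z_Tv {L : ℕ} {q : G → Prop} (B v : Fin D → ℤ) (U : LZ D t → G) :
    E2Z L q B (Tv ((fun j => (L : ℤ) * v j), 0) U) ↔ E2Z L q (B + v) U := by
  unfold E2Z
  refine forall_congr' fun r => forall_congr' fun hr => ?_
  rw [PolZ_Tv, emZ_shift]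

lemma bdZ_Tv {L : ℕ} {ε : ℝ} {q : G → Prop} (B v : Fin D → ℤ) (U : LZ D t → G) :
    bdZ L ε q B (Tv ((fun j => (L : ℤ) * v j), 0) U) ↔ bdZ L ε q (B + v) U :=
  or_congr (E1Z_Tv B v U) (E2Z_Tv B v U)

lemma LbZ_Tv {L : ℕ} {ρ : ℝ} (B v : Fin D → ℤ) (U : LZ D t → G) (z : G) :
    LbZ L ρ (Tv ((fun j => (L : ℤ) * v j), 0) U) B z ↔ LbZ L ρ U (B + v) z := by
  unfold LbZ
  refine forall_congr' fun r => forall_congr' fun hr => ?_
  rw [PolZ_Tv, emZ_shift]

end shift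

section lab

variable [NeZero t]

lemma good_labZ {L : ℕ} {ρ : ℝ} (hρ : 0 < ρ) (hL : 0 < L) (hD : 0 < D) (U : LZ D t → G)
    (B : Fin D → ℤ) (h : ¬ bdZ L (ρ ^ 2 / (2 * D ^ 2) / (L * t) ^ 2) (qf ρ) B U) :
    ∃ z ∈ Subgroup.center G, LbZ L (2 * ρ) U B z := by
  have hne : NeZero (L * (2 * 1)) := ⟨by omega⟩
  obtain ⟨W, hW⟩ : ∃ W : LZ D t → G, W = Tv ((fun j => (L : ℤ) * B j), 0) U := ⟨_, rfl⟩
  have e0 : (0 : Fin D → ℤ) + B = B := zero_add B
  have hag : Agr L (0 : Fin D → ℤ) W (DC.per (Rl (L * (2 * 1)) W)) :=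
    agr_box (h := 1) W 0 (fun j => by simp)
  rw [← e0, ← bdZ_Tv, ← hW, bdZ_loc hag, bdZ_per (h := 1)] at h
  unfold bd at h
  push Not at h
  obtain ⟨z, hz, hlab⟩ := good_lab (h := 1) hρ hL hD _ _ h.1 h.2
  refine ⟨z, hz, ?_⟩
  rw [← e0, ← LbZ_Tv, ← hW, LbZ_loc hag, LbZ_per (h := 1)]
  exact hlab

lemma lab_adjZ {L : ℕ} {ρ : ℝ} (hρ : ∀ z ∈ Subgroup.center G, ∀ z' ∈ Subgroup.center G,
      ‖mt z - mt z'‖ ≤ 2 * ρ → z = z')
    (U : LZ D t → G) (B : Fin D → ℤ) (i : Fin D) {z z' : G}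
    (hz : z ∈ Subgroup.center G) (hz' : z' ∈ Subgroup.center G)
    (h1 : LbZ L ρ U B z) (h2 : LbZ L ρ U (Function.update B i (B i + 1)) z') : z = z' := by
  have e : emZ L B (Function.update (fun _ => 0) i L) =
      emZ L (Function.update B i (B i + 1)) (fun _ => 0) := by
    funext j
    by_cases hj : j = i
    · subst hj
      simp [emZ]
      ring
    · simp [emZ, hj]
  have h3 := h1 (Function.update (fun _ => 0) i L) (fun j => by
    by_cases hj : j = i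
    · subst hj; simp
    · rw [Function.update_of_ne hj]; simp)
  have h4 := h2 (fun _ => 0) (fun _ => Nat.zero_le _)
  rw [e] at h3
  refine hρ z hz z' hz' ?_
  calc ‖mt z - mt z'‖ ≤ ‖mt z - mt (PolZ U (emZ L (Function.update B i (B i + 1)) fun _ => 0))‖ +
        ‖mt (PolZ U (emZ L (Function.update B i (B i + 1)) fun _ => 0)) - mt z'‖ :=
        norm_sub_le_norm_sub_add_norm_sub _ _ _
    _ ≤ 2 * ρ := by
        rw [norm_sub_rev]
        linarith

end lab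

end

end Pool.Agent.H991.AP
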