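import Mathlib
import Pool.Agent.H991.AP.Le

/-!
# Extremal measures and tilted measures
-/

open MeasureTheory Filter
open scoped ENNReal NNReal Topology

namespace Pool.Agent.H991.AP

noncomputable section

variable {X : Type*} [TopologicalSpace X] [CompactSpace X] [T2Space X] [SecondCountableTopology X]
  [MeasurableSpace X] [BorelSpace X]

/-- the probability measures which satisfy the equations `∫ Φ k F = ∫ F` -/
def Sol {κ : Type*} (Φ : κ → (X → ℝ) → X → ℝ) (ω : Measure X) : Prop :=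
  IsProbabilityMeasure ω ∧ ∀ k (F : X → ℝ), Continuous F → ∫ x, Φ k F x ∂ω = ∫ x, F x ∂ω

/-- extremal elements -/
def Extr (S : Measure X → Prop) (ω : Measure X) : Prop :=
  S ω ∧ ∀ ω₁ ω₂, S ω₁ → S ω₂ → ∀ s : ℝ, 0 < s → s < 1 →
    ω = ENNReal.ofReal s • ω₁ + ENNReal.ofReal (1 - s) • ω₂ → ω₁ = ω

omit [CompactSpace X] [T2Space X] [SecondCountableTopology X] in
lemma cont_bd [CompactSpace X] {F : X → ℝ} (hF : Continuous F) : ∃ C : ℝ, 0 ≤ C ∧ ∀ x, |F x| ≤ C := by
  obtain ⟨C, hC⟩ := isCompact_univ.exists_bound_of_continuousOn hF.continuousOn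
  exact ⟨max C 0, le_max_right _ _, fun x => (hC x (Set.mem_univ _)).trans (le_max_left _ _)⟩

omit [T2Space X] in
lemma cont_int {F : X → ℝ} (hF : Continuous F) (m : Measure X) [IsFiniteMeasure m] :
    Integrable F m := by
  obtain ⟨C, -, hC⟩ := cont_bd hF
  exact Integrable.of_bound (C := C) hF.measurable.aestronglyMeasurable
    (Eventually.of_forall fun x => by rw [Real.norm_eq_abs]; exact hC x)

/-- a solution which is dominated by an extremal solution is equal to it -/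
theorem dom_eq {κ : Type*} {Φ : κ → (X → ℝ) → X → ℝ}
    (hΦ : ∀ k F, Continuous F → Continuous (Φ k F)) {ω ν : Measure X} (hω : Extr (Sol Φ) ω)
    (hν : Sol Φ ν) {C : ℝ} (hC : 1 < C) (hle : ν ≤ ENNReal.ofReal C • ω) : ν = ω := by
  have hC0 : 0 < C := by linarith
  have hC1 : 0 < C - 1 := by linarith
  have i1 := hω.1.1
  have i2 := hν.1
  obtain ⟨m, hm⟩ : ∃ m, m = ENNReal.ofReal C • ω - ν := ⟨_, rfl⟩
  have hadd : m + ν = ENNReal.ofReal C • ω := by
    rw [hm]
    exact Measure.sub_add_cancel_of_le hle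
  have i3 : IsFiniteMeasure (ENNReal.ofReal C • ω) :=
    ⟨by
      rw [Measure.smul_apply, measure_univ, smul_eq_mul, mul_one]
      exact ENNReal.ofReal_lt_top⟩
  have i4 : IsFiniteMeasure m := by
    refine ⟨lt_of_le_of_lt ?_ i3.measure_univ_lt_top⟩
    rw [← hadd, Measure.add_apply]
    exact le_self_add
  have hint : ∀ F : X → ℝ, Continuous F → ∫ x, F x ∂m = C * ∫ x, F x ∂ω - ∫ x, F x ∂ν := by
    intro F hF
    have h1 := integral_add_measure (cont_int hF m) (cont_int hF ν)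
    rw [hadd, integral_smul_measure, ENNReal.toReal_ofReal hC0.le, smul_eq_mul] at h1
    linarith
  obtain ⟨ω₂, hω₂⟩ : ∃ ω₂, ω₂ = ENNReal.ofReal (C - 1)⁻¹ • m := ⟨_, rfl⟩
  have hint2 : ∀ F : X → ℝ, Continuous F →
      ∫ x, F x ∂ω₂ = (C - 1)⁻¹ * (C * ∫ x, F x ∂ω - ∫ x, F x ∂ν) := by
    intro F hF
    rw [hω₂, integral_smul_measure, ENNReal.toReal_ofReal (by positivity), smul_eq_mul, hint F hF]
  have i5 : IsFiniteMeasure ω₂ := by
    refine ⟨?_⟩
    rw [hω₂, Measure.smul_apply, smul_eq_mul]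
    exact ENNReal.mul_lt_top ENNReal.ofReal_lt_top (measure_lt_top m _)
  have i6 : IsProbabilityMeasure ω₂ := by
    have h1 := hint2 (fun _ => 1) continuous_const
    simp only [integral_const, probReal_univ, smul_eq_mul, mul_one] at h1
    rw [inv_mul_cancel₀ hC1.ne'] at h1
    refine ⟨?_⟩
    have h2 : (ω₂ Set.univ).toReal = 1 := h1
    rw [← ENNReal.toReal_eq_one_iff]
    exact h2
  have hS2 : Sol Φ ω₂ := by
    refine ⟨i6, fun k F hF => ?_⟩
    rw [hint2 _ (hΦ k F hF), hint2 F hF, hω.1.2 k F hF, hν.2 k F hF]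
  have hC' : 1 / C < 1 := by rw [div_lt_one hC0]; exact hC
  refine hω.2 ν ω₂ hν hS2 (1 / C) (by positivity) hC' ?_
  have e1 : ENNReal.ofReal (1 - 1 / C) * ENNReal.ofReal (C - 1)⁻¹ = ENNReal.ofReal (1 / C) := by
    rw [← ENNReal.ofReal_mul (by linarith)]
    congr 1
    field_simp
  rw [hω₂, smul_smul, e1, ← smul_add, add_comm, hadd, smul_smul, ← ENNReal.ofReal_mul (by positivity),
    one_div, inv_mul_cancel₀ hC0.ne', ENNReal.ofReal_one, one_smul]

/-- asymptotically invariant densities do not change an extremal measure -/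
theorem tilt {κ : Type*} {Φ : κ → (X → ℝ) → X → ℝ}
    (hΦ : ∀ k F, Continuous F → Continuous (Φ k F)) {ω : Measure X} (hω : Extr (Sol Φ) ω)
    (a : ℕ → X → ℝ) (ha : ∀ n, Measurable (a n)) (h0 : ∀ n x, 0 ≤ a n x) {C : ℝ}
    (hC : ∀ n x, a n x ≤ C) (h1 : ∀ n, ∫ x, a n x ∂ω = 1)
    (hinv : ∀ k F, Continuous F → Tendsto (fun n => ∫ x, Φ k F x * a n x ∂ω - ∫ x, F x * a n x ∂ω)
      atTop (𝓝 0)) :
    ∃ φ : ℕ → ℕ, StrictMono φ ∧ ∀ F : X → ℝ, Continuous F →
      Tendsto (fun n => ∫ x, F x * a (φ n) x ∂ω) atTop (𝓝 (∫ x, F x ∂ω)) := by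
  have i1 := hω.1.1
  have hai : ∀ n, Integrable (a n) ω := fun n => Integrable.of_bound (C := C)
    (ha n).aestronglyMeasurable (Eventually.of_forall fun x => by
      rw [Real.norm_eq_abs, abs_of_nonneg (h0 n x)]; exact hC n x)
  obtain ⟨M, hM⟩ : ∃ M : ℕ → Measure X, M = fun n => ω.withDensity fun x => ENNReal.ofReal (a n x) :=
    ⟨_, rfl⟩
  have hMp : ∀ n, IsProbabilityMeasure (M n) := by
    intro n
    refine ⟨?_⟩
    rw [hM]
    simp only
    rw [withDensity_apply _ MeasurableSet.univ, Measure.restrict_univ,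
      ← ofReal_integral_eq_lintegral_ofReal (hai n) (Eventually.of_forall (h0 n)), h1,
      ENNReal.ofReal_one]
  have hMint : ∀ n (F : X → ℝ), ∫ x, F x ∂(M n) = ∫ x, F x * a n x ∂ω := by
    intro n F
    rw [hM]
    simp only
    rw [integral_withDensity_eq_integral_toReal_smul (ha n).ennreal_ofReal
      (Eventually.of_forall fun x => ENNReal.ofReal_lt_top)]
    refine integral_congr_ae (Eventually.of_forall fun x => ?_)
    simp only
    rw [ENNReal.toReal_ofReal (h0 n x), smul_eq_mul, mul_comm]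
  obtain ⟨Q, hQ⟩ : ∃ Q : ℕ → ProbabilityMeasure X, Q = fun n => ⟨M n, hMp n⟩ := ⟨_, rfl⟩
  obtain ⟨ν, φ, hφ, hlim⟩ := CompactSpace.tendsto_subseq Q
  have hF : ∀ F : X → ℝ, Continuous F →
      Tendsto (fun n => ∫ x, F x * a (φ n) x ∂ω) atTop (𝓝 (∫ x, F x ∂(ν : Measure X))) := by
    intro F hF
    have h2 := (ProbabilityMeasure.tendsto_iff_forall_integral_tendsto.1 hlim)
      (BoundedContinuousFunction.mkOfCompact ⟨F, hF⟩)
    refine h2.congr fun n => ?_
    rw [← hMint, hQ]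
    rfl
  refine ⟨φ, hφ, fun F hFc => ?_⟩
  have hSν : Sol Φ (ν : Measure X) := by
    refine ⟨inferInstance, fun k F hFc => ?_⟩
    have h2 := (hinv k F hFc).comp hφ.tendsto_atTop
    have h3 := (hF _ (hΦ k F hFc)).sub (hF F hFc)
    have h4 := tendsto_nhds_unique h3 h2
    linarith
  obtain ⟨C', hC'⟩ : ∃ C' : ℝ, C' = max C 2 := ⟨_, rfl⟩
  have hC'2 : 2 ≤ C' := by rw [hC']; exact le_max_right _ _
  have hCC' : C ≤ C' := by rw [hC']; exact le_max_left _ _
  have hdom : (ν : Measure X) ≤ ENNReal.ofReal C' • ω := by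
    refine le_of_cont _ _ C' (by linarith) fun f hf hf0 => ?_
    refine le_of_tendsto' (hF f hf) fun n => ?_
    rw [← integral_const_mul]
    obtain ⟨B, -, hB⟩ := cont_bd hf
    refine integral_mono_of_nonneg (Eventually.of_forall fun x => mul_nonneg (hf0 x) (h0 _ x))
      ((cont_int hf ω).const_mul _) (Eventually.of_forall fun x => ?_)
    simp only
    rw [mul_comm]
    exact mul_le_mul_of_nonneg_right ((hC _ x).trans hCC') (hf0 x)
  have hfin := hF F hFc
  rwa [dom_eq hΦ hω hSν (by linarith : 1 < C') hdom] at hfin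

end

end Pool.Agent.H991.AP
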