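import Mathlib
import Pool.Agent.H991.AP.Tilt

/-!
# Decomposition of the solutions into phases
-/

open MeasureTheory Filter
open scoped ENNReal NNReal Topology

namespace Pool.Agent.H991.AP

noncomputable section

variable {X : Type*} [TopologicalSpace X] [CompactSpace X] [T2Space X] [SecondCountableTopology X]
  [MeasurableSpace X] [BorelSpace X] {κ : Type*}

/-- the finite measures which satisfy the equations -/
def Con (Φ : κ → (X → ℝ) → X → ℝ) (m : Measure X) : Prop :=
  IsFiniteMeasure m ∧ ∀ k (F : X → ℝ), Continuous F → ∫ x, Φ k F x ∂m = ∫ x, F x ∂m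

/-- the measures in the phase with the order parameter `g` -/
def Cph (Φ : κ → (X → ℝ) → X → ℝ) (g : X → ℝ) (δ : ℝ) (m : Measure X) : Prop :=
  Con Φ m ∧ ∫ x, (1 - g x) ∂m ≤ δ * m.real Set.univ

omit [CompactSpace X] [T2Space X] [SecondCountableTopology X] [BorelSpace X] in
lemma Con_zero (Φ : κ → (X → ℝ) → X → ℝ) : Con Φ (0 : Measure X) :=
  ⟨inferInstance, fun k F _ => by simp⟩

omit [CompactSpace X] [T2Space X] [SecondCountableTopology X] [BorelSpace X] in
lemma Cph_zero (Φ : κ → (X → ℝ) → X → ℝ) (g : X → ℝ) (δ : ℝ) : Cph Φ g δ (0 : Measure X) :=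
  ⟨Con_zero Φ, by simp⟩

omit [CompactSpace X] [T2Space X] [SecondCountableTopology X] [BorelSpace X] in
lemma Con_smul {Φ : κ → (X → ℝ) → X → ℝ} {m : Measure X} (h : Con Φ m) {q : ℝ≥0∞} (hq : q ≠ ∞) :
    Con Φ (q • m) := by
  have := h.1
  refine ⟨⟨?_⟩, fun k F hF => ?_⟩
  · rw [Measure.smul_apply, smul_eq_mul]
    exact ENNReal.mul_lt_top (lt_top_iff_ne_top.2 hq) (measure_lt_top m _)
  · rw [integral_smul_measure, integral_smul_measure, h.2 k F hF]

omit [CompactSpace X] [T2Space X] [SecondCountableTopology X] [BorelSpace X] in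
lemma Cph_smul {Φ : κ → (X → ℝ) → X → ℝ} {g : X → ℝ} {δ : ℝ} {m : Measure X} (h : Cph Φ g δ m)
    {q : ℝ≥0∞} (hq : q ≠ ∞) : Cph Φ g δ (q • m) := by
  refine ⟨Con_smul h.1 hq, ?_⟩
  rw [integral_smul_measure, measureReal_ennreal_smul_apply, smul_eq_mul]
  have h1 := mul_le_mul_of_nonneg_left h.2 (ENNReal.toReal_nonneg (a := q))
  linarith

/-- limits of asymptotically invariant densities -/
theorem lim_meas {Φ : κ → (X → ℝ) → X → ℝ} (hΦ : ∀ k F, Continuous F → Continuous (Φ k F))
    {ω : Measure X} [IsProbabilityMeasure ω] (b : ℕ → X → ℝ) (hb : ∀ n, Continuous (b n))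
    (h0 : ∀ n x, 0 ≤ b n x) {q : ℝ} (hq : ∀ n, ∫ x, b n x ∂ω = q)
    (hinv : ∀ k F, Continuous F → Tendsto (fun n => ∫ x, Φ k F x * b n x ∂ω - ∫ x, F x * b n x ∂ω)
      atTop (𝓝 0)) :
    ∃ m : Measure X, Con Φ m ∧ ∀ F : X → ℝ, Continuous F →
      Tendsto (fun n => ∫ x, F x * b n x ∂ω) (hyperfilter ℕ : Filter ℕ) (𝓝 (∫ x, F x ∂m)) := by
  have hq0 : 0 ≤ q := by rw [← hq 0]; exact integral_nonneg (h0 0)
  rcases hq0.eq_or_lt with hq0 | hq0
  · refine ⟨0, Con_zero Φ, fun F hF => ?_⟩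
    have h1 : ∀ n, ∫ x, F x * b n x ∂ω = 0 := by
      intro n
      have h2 : b n =ᵐ[ω] 0 := (integral_eq_zero_iff_of_nonneg (h0 n) (cont_int (hb n) ω)).1
        (by rw [hq n, ← hq0])
      rw [integral_congr_ae (g := fun _ => (0 : ℝ)) (h2.mono fun x hx => by simp [hx])]
      simp
    simp only [h1, integral_zero_measure]
    exact tendsto_const_nhds
  · obtain ⟨M, hM⟩ : ∃ M : ℕ → Measure X,
      M = fun n => ω.withDensity fun x => ENNReal.ofReal (q⁻¹ * b n x) := ⟨_, rfl⟩
    have hb0 : ∀ n x, 0 ≤ q⁻¹ * b n x := fun n x => mul_nonneg (by positivity) (h0 n x)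
    have hMp : ∀ n, IsProbabilityMeasure (M n) := by
      intro n
      refine ⟨?_⟩
      rw [hM]
      simp only
      rw [withDensity_apply _ MeasurableSet.univ, Measure.restrict_univ,
        ← ofReal_integral_eq_lintegral_ofReal ((cont_int (hb n) ω).const_mul _)
        (Eventually.of_forall (hb0 n)), integral_const_mul, hq, inv_mul_cancel₀ hq0.ne',
        ENNReal.ofReal_one]
    have hMint : ∀ n (F : X → ℝ), q * ∫ x, F x ∂(M n) = ∫ x, F x * b n x ∂ω := by
      intro n F
      rw [hM]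
      simp only
      rw [integral_withDensity_eq_integral_toReal_smul
        (((hb n).measurable.const_mul _).ennreal_ofReal)
        (Eventually.of_forall fun x => ENNReal.ofReal_lt_top), ← integral_const_mul]
      refine integral_congr_ae (Eventually.of_forall fun x => ?_)
      simp only
      rw [ENNReal.toReal_ofReal (hb0 n x), smul_eq_mul]
      field_simp
    obtain ⟨Q, hQ⟩ : ∃ Q : ℕ → ProbabilityMeasure X, Q = fun n => ⟨M n, hMp n⟩ := ⟨_, rfl⟩
    obtain ⟨ν, -, hν⟩ := isCompact_univ.ultrafilter_le_nhds ((hyperfilter ℕ).map Q)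
      (by simp)
    have hlim : Tendsto Q (hyperfilter ℕ : Filter ℕ) (𝓝 ν) := hν
    have hF : ∀ F : X → ℝ, Continuous F →
        Tendsto (fun n => ∫ x, F x * b n x ∂ω) (hyperfilter ℕ : Filter ℕ)
          (𝓝 (∫ x, F x ∂(ENNReal.ofReal q • (ν : Measure X)))) := by
      intro F hF
      have h2 := (ProbabilityMeasure.tendsto_iff_forall_integral_tendsto.1 hlim)
        (BoundedContinuousFunction.mkOfCompact ⟨F, hF⟩)
      rw [integral_smul_measure, ENNReal.toReal_ofReal hq0.le, smul_eq_mul]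
      refine (h2.const_mul q).congr fun n => ?_
      rw [← hMint, hQ]
      rfl
    refine ⟨ENNReal.ofReal q • (ν : Measure X), ⟨?_, fun k F hFc => ?_⟩, hF⟩
    · refine ⟨?_⟩
      rw [Measure.smul_apply, smul_eq_mul]
      exact ENNReal.mul_lt_top ENNReal.ofReal_lt_top (measure_lt_top _ _)
    · have h2 := (hinv k F hFc).mono_left (Nat.hyperfilter_le_atTop)
      have h3 := (hF _ (hΦ k F hFc)).sub (hF F hFc)
      have h4 := tendsto_nhds_unique h3 h2
      linarith

/-- one step of the decomposition -/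
theorem dec_step {Z : Type*} [Fintype Z] {Φ : κ → (X → ℝ) → X → ℝ}
    (hΦ : ∀ k F, Continuous F → Continuous (Φ k F)) {ω : Measure X} (hω : Sol Φ ω)
    (g : Z → X → ℝ) (hg : ∀ z, Continuous (g z)) (b : Z → ℕ → X → ℝ)
    (hb : ∀ z n, Continuous (b z n)) (h0 : ∀ z n x, 0 ≤ b z n x) (h1 : ∀ n x, ∑ z, b z n x ≤ 1)
    (p : Z → ℝ) (hp : ∀ z n, ∫ x, b z n x ∂ω = p z)
    (hinv : ∀ z k F, Continuous F → Tendsto (fun n => ∫ x, Φ k F x * b z n x ∂ω -
      ∫ x, F x * b z n x ∂ω) atTop (𝓝 0))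
    {η δ : ℝ} (hη : 0 ≤ η) (hδ : 0 < δ) (hcor : ∀ z n, ∫ x, (1 - g z x) * b z n x ∂ω ≤ η)
    (hsum : 1 - η ≤ ∑ z, p z) (hsmall : η + Fintype.card Z * (η / δ) ≤ 1 / 2) :
    ∃ (m : Z → Measure X) (r : Measure X), (∀ z, Cph Φ (g z) δ (m z)) ∧ Con Φ r ∧
      r.real Set.univ ≤ 1 / 2 ∧ ω = ∑ z, m z + r := by
  classical
  have i1 := hω.1
  obtain ⟨A, hA⟩ : ∃ A : Finset Z, A = Finset.univ.filter fun z => η / δ ≤ p z := ⟨_, rfl⟩
  have hp0 : ∀ z, 0 ≤ p z := fun z => by rw [← hp z 0]; exact integral_nonneg (h0 z 0)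
  have hm : ∀ z, ∃ m : Measure X, Con Φ m ∧ ∀ F : X → ℝ, Continuous F →
      Tendsto (fun n => ∫ x, F x * b z n x ∂ω) (hyperfilter ℕ : Filter ℕ) (𝓝 (∫ x, F x ∂m)) :=
    fun z => lim_meas hΦ (b z) (hb z) (h0 z) (hp z) (hinv z)
  choose m hmC hmF using hm
  have hbi : ∀ z n (F : X → ℝ), Continuous F → Integrable (fun x => F x * b z n x) ω :=
    fun z n F hF => cont_int (hF.mul (hb z n)) ω
  obtain ⟨b', hb'⟩ : ∃ b' : ℕ → X → ℝ, b' = fun n x => 1 - ∑ z ∈ A, b z n x := ⟨_, rfl⟩
  have hb'c : ∀ n, Continuous (b' n) := fun n => by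
    rw [hb']
    exact continuous_const.sub (continuous_finsetSum _ fun z _ => hb z n)
  have hb'0 : ∀ n x, 0 ≤ b' n x := by
    intro n x
    rw [hb']
    have : ∑ z ∈ A, b z n x ≤ ∑ z, b z n x :=
      Finset.sum_le_sum_of_subset_of_nonneg (Finset.subset_univ _) fun z _ _ => h0 z n x
    simp only
    linarith [h1 n x]
  have hb'F : ∀ n (F : X → ℝ), Continuous F → ∫ x, F x * b' n x ∂ω =
      ∫ x, F x ∂ω - ∑ z ∈ A, ∫ x, F x * b z n x ∂ω := by
    intro n F hF
    rw [hb']
    simp only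
    rw [← integral_finsetSum _ fun z _ => hbi z n F hF, ← integral_sub (cont_int hF ω)
      (integrable_finsetSum _ fun z _ => hbi z n F hF)]
    refine integral_congr_ae (Eventually.of_forall fun x => ?_)
    simp only
    rw [mul_sub, mul_one, Finset.mul_sum]
  have hq' : ∀ n, ∫ x, b' n x ∂ω = 1 - ∑ z ∈ A, p z := by
    intro n
    have h2 := hb'F n (fun _ => 1) continuous_const
    simp only [one_mul, hp, integral_const, probReal_univ, smul_eq_mul] at h2
    exact h2
  obtain ⟨r, hrC, hrF⟩ := lim_meas hΦ b' hb'c hb'0 hq' (fun k F hF => by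
    have h2 : Tendsto (fun n => ∑ z ∈ A, (∫ x, Φ k F x * b z n x ∂ω - ∫ x, F x * b z n x ∂ω)) atTop
        (𝓝 (∑ _z ∈ A, 0)) := tendsto_finsetSum _ fun z _ => hinv z k F hF
    rw [Finset.sum_const_zero] at h2
    have h3 := h2.neg
    rw [neg_zero] at h3
    refine h3.congr fun n => ?_
    rw [hb'F n _ (hΦ k F hF), hb'F n F hF, hω.2 k F hF, Finset.sum_sub_distrib]
    ring)
  have hmass : ∀ z, (m z).real Set.univ = p z := by
    intro z
    have := (hmC z).1
    have h2 := hmF z (fun _ => 1) continuous_const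
    simp only [one_mul, hp, integral_const, smul_eq_mul, mul_one] at h2
    exact tendsto_nhds_unique h2 tendsto_const_nhds
  have hrmass : r.real Set.univ = 1 - ∑ z ∈ A, p z := by
    have := hrC.1
    have h2 := hrF (fun _ => 1) continuous_const
    simp only [one_mul, hq', integral_const, smul_eq_mul, mul_one] at h2
    exact tendsto_nhds_unique h2 tendsto_const_nhds
  refine ⟨fun z => if z ∈ A then m z else 0, r, fun z => ?_, hrC, ?_, ?_⟩
  · by_cases hz : z ∈ A
    · simp only [hz, if_true]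
      refine ⟨hmC z, ?_⟩
      rw [hmass]
      have h2 : ∫ x, (1 - g z x) ∂(m z) ≤ η :=
        le_of_tendsto' (hmF z (fun x => 1 - g z x) (continuous_const.sub (hg z))) fun n => hcor z n
      have h3 : η / δ ≤ p z := by
        rw [hA, Finset.mem_filter] at hz
        exact hz.2
      rw [div_le_iff₀ hδ] at h3
      linarith
    · simp only [hz, if_false]
      exact Cph_zero _ _ _
  · rw [hrmass]
    have h2 : ∑ z, p z = ∑ z ∈ A, p z + ∑ z ∈ Finset.univ.filter (fun z => ¬ η / δ ≤ p z), p z := by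
      rw [hA]
      exact (Finset.sum_filter_add_sum_filter_not _ _ _).symm
    have h3 : ∑ z ∈ Finset.univ.filter (fun z => ¬ η / δ ≤ p z), p z ≤
        Fintype.card Z * (η / δ) := by
      calc ∑ z ∈ Finset.univ.filter (fun z => ¬ η / δ ≤ p z), p z ≤
          ∑ _z ∈ Finset.univ.filter (fun z => ¬ η / δ ≤ p z), η / δ :=
            Finset.sum_le_sum fun z hz => (not_le.1 (Finset.mem_filter.1 hz).2).le
        _ = ((Finset.univ.filter (fun z => ¬ η / δ ≤ p z)).card : ℝ) * (η / δ) := by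
            rw [Finset.sum_const, nsmul_eq_mul]
        _ ≤ _ := by
            refine mul_le_mul_of_nonneg_right ?_ (by positivity)
            exact_mod_cast Finset.card_le_univ _
    linarith
  · have hfin : ∀ z, IsFiniteMeasure (if z ∈ A then m z else 0) := by
      intro z
      split_ifs
      · exact (hmC z).1
      · infer_instance
    have := hrC.1
    refine ext_of_forall_integral_eq_of_IsFiniteMeasure fun f => ?_
    have hf := f.continuous
    rw [integral_add_measure (integrable_finsetSum_measure.2 fun z _ => cont_int hf _)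
      (cont_int hf _), integral_finsetSum_measure fun z _ => cont_int hf _]
    have h2 : ∑ z, ∫ x, f x ∂(if z ∈ A then m z else 0) = ∑ z ∈ A, ∫ x, f x ∂(m z) := by
      rw [← Finset.sum_subset (Finset.subset_univ A)]
      · exact Finset.sum_congr rfl fun z hz => by rw [if_pos hz]
      · intro z _ hz
        rw [if_neg hz, integral_zero_measure]
    rw [h2]
    have h3 := (tendsto_finsetSum A fun z _ => hmF z f hf).add (hrF f hf)
    refine tendsto_nhds_unique ?_ h3
    refine (tendsto_const_nhds (x := ∫ x, f x ∂ω)).congr fun n => ?_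
    rw [hb'F n f hf]
    ring

end

end Pool.Agent.H991.AP
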