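import Mathlib
import Pool.Agent.H991.AP.Dec

/-!
# Decomposition of the solutions into phases: iteration
-/

open MeasureTheory Filter
open scoped ENNReal NNReal Topology

namespace Pool.Agent.H991.AP

noncomputable section

variable {X : Type*} [TopologicalSpace X] [CompactSpace X] [T2Space X] [SecondCountableTopology X]
  [MeasurableSpace X] [BorelSpace X] {κ : Type*}

/-- the step for finite measures -/
theorem dec_cone {Z : Type*} [Fintype Z] {Φ : κ → (X → ℝ) → X → ℝ} (g : Z → X → ℝ) {δ : ℝ}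
    (hstep : ∀ ω : Measure X, Sol Φ ω → ∃ (m : Z → Measure X) (r : Measure X),
      (∀ z, Cph Φ (g z) δ (m z)) ∧ Con Φ r ∧ r.real Set.univ ≤ 1 / 2 ∧ ω = ∑ z, m z + r)
    (ω : Measure X) (hω : Con Φ ω) : ∃ (m : Z → Measure X) (r : Measure X),
      (∀ z, Cph Φ (g z) δ (m z)) ∧ Con Φ r ∧ r Set.univ ≤ 2⁻¹ * ω Set.univ ∧ ω = ∑ z, m z + r := by
  have i1 := hω.1
  rcases eq_or_ne ω 0 with h0 | h0
  · refine ⟨fun _ => 0, 0, fun z => Cph_zero _ _ _, Con_zero _, by simp, by simp [h0]⟩
  · obtain ⟨q, hq⟩ : ∃ q, q = ω Set.univ := ⟨_, rfl⟩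
    have hq0 : q ≠ 0 := by
      rw [hq]
      exact fun h => h0 (Measure.measure_univ_eq_zero.1 h)
    have hqt : q ≠ ∞ := by rw [hq]; exact measure_ne_top _ _
    have hqi : q⁻¹ ≠ ∞ := ENNReal.inv_ne_top.2 hq0
    have hSol : Sol Φ (q⁻¹ • ω) := by
      have h1 := Con_smul hω hqi
      refine ⟨⟨?_⟩, h1.2⟩
      rw [Measure.smul_apply, smul_eq_mul, ← hq]
      exact ENNReal.inv_mul_cancel hq0 hqt
    obtain ⟨m, r, hm, hr, hr2, hsum⟩ := hstep _ hSol
    refine ⟨fun z => q • m z, q • r, fun z => Cph_smul (hm z) hqt, Con_smul hr hqt, ?_, ?_⟩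
    · rw [Measure.smul_apply, smul_eq_mul, ← hq, mul_comm]
      refine mul_le_mul' ?_ le_rfl
      have := hr.1
      have h1 : r Set.univ = ENNReal.ofReal (r.real Set.univ) := by
        rw [ofReal_measureReal]
      rw [h1]
      have h2 : (2⁻¹ : ℝ≥0∞) = ENNReal.ofReal (1 / 2) := by
        rw [one_div, ENNReal.ofReal_inv_of_pos (by norm_num)]
        norm_num
      rw [h2]
      exact ENNReal.ofReal_le_ofReal hr2
    · have h1 : q • (q⁻¹ • ω) = ω := by
        rw [smul_smul, ENNReal.mul_inv_cancel hq0 hqt, one_smul]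
      rw [← h1, hsum, smul_add, Finset.smul_sum]

/-- the cone of a phase is closed under countable sums -/
lemma Cph_sum {Φ : κ → (X → ℝ) → X → ℝ} (hΦ : ∀ k F, Continuous F → Continuous (Φ k F))
    {g : X → ℝ} (hg : Continuous g) {δ : ℝ} {m : ℕ → Measure X} (hm : ∀ n, Cph Φ g δ (m n))
    (hfin : IsFiniteMeasure (Measure.sum m)) : Cph Φ g δ (Measure.sum m) := by
  have hi : ∀ F : X → ℝ, Continuous F → HasSum (fun n => ∫ x, F x ∂(m n)) (∫ x, F x ∂(Measure.sum m)) :=
    fun F hF => hasSum_integral_measure (cont_int hF _)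
  have hin := fun n => (hm n).1.1
  refine ⟨⟨hfin, fun k F hF => ?_⟩, ?_⟩
  · have h1 := hi _ (hΦ k F hF)
    simp only [(hm _).1.2 k F hF] at h1
    exact h1.unique (hi F hF)
  · have h1 := hi (fun x => 1 - g x) (continuous_const.sub hg)
    have h2 := hi (fun _ => 1) continuous_const
    simp only [integral_const, smul_eq_mul, mul_one] at h2
    exact hasSum_le (fun n => (hm n).2) h1 (h2.mul_left δ)

/-- the decomposition -/
theorem dec {Z : Type*} [Fintype Z] {Φ : κ → (X → ℝ) → X → ℝ}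
    (hΦ : ∀ k F, Continuous F → Continuous (Φ k F)) (g : Z → X → ℝ) (hg : ∀ z, Continuous (g z))
    {δ : ℝ}
    (hstep : ∀ ω : Measure X, Sol Φ ω → ∃ (m : Z → Measure X) (r : Measure X),
      (∀ z, Cph Φ (g z) δ (m z)) ∧ Con Φ r ∧ r.real Set.univ ≤ 1 / 2 ∧ ω = ∑ z, m z + r)
    (ω : Measure X) (hω : Con Φ ω) : ∃ m : Z → Measure X,
      (∀ z, Cph Φ (g z) δ (m z)) ∧ ω = ∑ z, m z := by
  have i1 := hω.1
  choose! M R hM hR hR2 hsum using dec_cone g hstep
  obtain ⟨s, hs⟩ : ∃ s : ℕ → Measure X, s = fun n => R^[n] ω := ⟨_, rfl⟩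
  have hs0 : s 0 = ω := by rw [hs]; rfl
  have hs1 : ∀ n, s (n + 1) = R (s n) := by
    intro n
    rw [hs]
    simp only
    rw [Function.iterate_succ_apply']
  have hsC : ∀ n, Con Φ (s n) := by
    intro n
    induction n with
    | zero => rw [hs0]; exact hω
    | succ n ih => rw [hs1]; exact hR _ ih
  have hsm : ∀ n, s n Set.univ ≤ 2⁻¹ ^ n * ω Set.univ := by
    intro n
    induction n with
    | zero => rw [hs0]; simp
    | succ n ih =>
      rw [hs1, pow_succ', mul_assoc]
      exact (hR2 _ (hsC n)).trans (mul_le_mul' le_rfl ih)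
  have hpart : ∀ n, ω = ∑ k ∈ Finset.range n, ∑ z, M (s k) z + s n := by
    intro n
    induction n with
    | zero => rw [hs0]; simp
    | succ n ih =>
      rw [Finset.sum_range_succ, hs1, add_assoc, ← hsum _ (hsC n)]
      exact ih
  have hlim : ∀ E : Set X, Tendsto (fun n => s n E) atTop (𝓝 0) := by
    intro E
    have h1 : Tendsto (fun n : ℕ => (2⁻¹ : ℝ≥0∞) ^ n * ω Set.univ) atTop (𝓝 (0 * ω Set.univ)) :=
      ENNReal.Tendsto.mul_const (ENNReal.tendsto_pow_atTop_nhds_zero_of_lt_one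
        (ENNReal.inv_lt_one.2 (by norm_num))) (Or.inr (measure_ne_top _ _))
    rw [zero_mul] at h1
    exact tendsto_of_tendsto_of_tendsto_of_le_of_le tendsto_const_nhds h1 (fun _ => zero_le)
      fun n => (measure_mono (Set.subset_univ _)).trans (hsm n)
  have heq : ω = ∑ z, Measure.sum fun k => M (s k) z := by
    refine Measure.ext fun E hE => ?_
    rw [Measure.finsetSum_apply]
    simp only [Measure.sum_apply _ hE]
    rw [← Summable.tsum_finsetSum fun z _ => ENNReal.summable]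
    have h1 := ENNReal.tendsto_nat_tsum fun k => ∑ z, M (s k) z E
    have h2 := h1.add (hlim E)
    rw [add_zero] at h2
    refine tendsto_nhds_unique (tendsto_const_nhds (x := ω E) (f := atTop)) (h2.congr fun n => ?_)
    conv_rhs => rw [hpart n]
    rw [Measure.add_apply, Measure.finsetSum_apply]
    congr 1
    refine Finset.sum_congr rfl fun k _ => ?_
    rw [Measure.finsetSum_apply]
  refine ⟨fun z => Measure.sum fun k => M (s k) z, fun z => ?_, heq⟩
  refine Cph_sum hΦ (hg z) (fun k => hM _ (hsC k) z) ⟨?_⟩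
  refine lt_of_le_of_lt ?_ (measure_lt_top ω Set.univ)
  conv_rhs => rw [heq]
  rw [Measure.finsetSum_apply]
  exact Finset.single_le_sum (f := fun z => (Measure.sum fun k => M (s k) z) Set.univ)
    (fun z _ => zero_le) (Finset.mem_univ z)

end

end Pool.Agent.H991.AP
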