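import Mathlib
import Pool.Agent.H991.AP.Tilt

/-!
# Existence of extremal elements
-/

open MeasureTheory Filter
open scoped ENNReal NNReal Topology

namespace Pool.Agent.H991.AP

noncomputable section

variable {X : Type*} [TopologicalSpace X] [CompactSpace X] [T2Space X] [SecondCountableTopology X]
  [MeasurableSpace X] [BorelSpace X]

/-- successive maximization -/
def Kn (S : Set (ProbabilityMeasure X)) (F : ℕ → C(X, ℝ)) : ℕ → Set (ProbabilityMeasure X)
  | 0 => S
  | n + 1 => {ω | ω ∈ Kn S F n ∧ ∀ ω' ∈ Kn S F n, ∫ x, F n x ∂(ω' : Measure X) ≤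
      ∫ x, F n x ∂(ω : Measure X)}

lemma pint_cont (F : C(X, ℝ)) : Continuous fun ω : ProbabilityMeasure X => ∫ x, F x ∂(ω : Measure X) := by
  have h := ProbabilityMeasure.continuous_integral_boundedContinuousFunction (X := X)
    (BoundedContinuousFunction.mkOfCompact F)
  exact h

lemma Kn_closed {S : Set (ProbabilityMeasure X)} (hS : IsClosed S) (F : ℕ → C(X, ℝ)) (n : ℕ) :
    IsClosed (Kn S F n) := by
  induction n with
  | zero => exact hS
  | succ n ih =>
    have h : Kn S F (n + 1) = Kn S F n ∩ ⋂ ω' ∈ Kn S F n, {ω | ∫ x, F n x ∂(ω' : Measure X) ≤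
      ∫ x, F n x ∂(ω : Measure X)} := by
      ext ω
      simp only [Kn, Set.mem_ofPred_eq, Set.mem_inter_iff, Set.mem_iInter]
    rw [h]
    exact ih.inter (isClosed_biInter fun ω' _ => isClosed_le continuous_const (pint_cont _))

lemma Kn_nonempty {S : Set (ProbabilityMeasure X)} (hS : IsClosed S) (hne : S.Nonempty)
    (F : ℕ → C(X, ℝ)) (n : ℕ) : (Kn S F n).Nonempty := by
  induction n with
  | zero => exact hne
  | succ n ih =>
    obtain ⟨ω, hω, hmax⟩ := (Kn_closed hS F n).isCompact.exists_isMaxOn ih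
      (pint_cont (F n)).continuousOn
    exact ⟨ω, hω, fun ω' hω' => hmax hω'⟩

lemma Kn_succ_sub (S : Set (ProbabilityMeasure X)) (F : ℕ → C(X, ℝ)) (n : ℕ) :
    Kn S F (n + 1) ⊆ Kn S F n := fun _ h => h.1

lemma mix_int {ω ω₁ ω₂ : Measure X} [IsProbabilityMeasure ω₁] [IsProbabilityMeasure ω₂] {s : ℝ}
    (h0 : 0 < s) (h1 : s < 1) (h : ω = ENNReal.ofReal s • ω₁ + ENNReal.ofReal (1 - s) • ω₂)
    (F : C(X, ℝ)) : ∫ x, F x ∂ω = s * ∫ x, F x ∂ω₁ + (1 - s) * ∫ x, F x ∂ω₂ := by
  have i1 : Integrable (fun x => F x) (ENNReal.ofReal s • ω₁) :=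
    (cont_int F.continuous ω₁).smul_measure ENNReal.ofReal_ne_top
  have i2 : Integrable (fun x => F x) (ENNReal.ofReal (1 - s) • ω₂) :=
    (cont_int F.continuous ω₂).smul_measure ENNReal.ofReal_ne_top
  rw [h, integral_add_measure i1 i2, integral_smul_measure, integral_smul_measure,
    ENNReal.toReal_ofReal h0.le, ENNReal.toReal_ofReal (by linarith), smul_eq_mul, smul_eq_mul]

/-- a closed set of probability measures has an extremal element which maximizes a function -/
theorem exists_extr {S : Measure X → Prop} (hSp : ∀ ω, S ω → IsProbabilityMeasure ω)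
    (hS : IsClosed {ω : ProbabilityMeasure X | S (ω : Measure X)}) {ω₀ : Measure X} (h0 : S ω₀)
    (J : C(X, ℝ)) : ∃ ω, Extr S ω ∧ ∀ ω', S ω' → ∫ x, J x ∂ω' ≤ ∫ x, J x ∂ω := by
  obtain ⟨T, hT⟩ : ∃ T, T = {ω : ProbabilityMeasure X | S (ω : Measure X)} := ⟨_, rfl⟩
  obtain ⟨F, hF⟩ : ∃ F : ℕ → C(X, ℝ), F = fun n => Nat.casesOn n J
    (TopologicalSpace.denseSeq C(X, ℝ)) := ⟨_, rfl⟩
  rw [← hT] at hS
  have hne : T.Nonempty := ⟨⟨ω₀, hSp _ h0⟩, by rw [hT]; exact h0⟩
  obtain ⟨ω, hω⟩ := IsCompact.nonempty_iInter_of_sequence_nonempty_isCompact_isClosed (Kn T F)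
    (fun n => Kn_succ_sub T F n) (fun n => Kn_nonempty hS hne F n) (Kn_closed hS F 0).isCompact
    (fun n => Kn_closed hS F n)
  rw [Set.mem_iInter] at hω
  have hSω : S (ω : Measure X) := by
    have h1 := hω 0
    change ω ∈ T at h1
    rw [hT] at h1
    exact h1
  refine ⟨ω, ⟨hSω, fun ω₁ ω₂ h1 h2 s hs0 hs1 hmix => ?_⟩, fun ω' hω' => ?_⟩
  · have i1 := hSp _ h1
    have i2 := hSp _ h2
    have hfc : ∀ n, (⟨ω₁, i1⟩ : ProbabilityMeasure X) ∈ Kn T F n ∧
        (⟨ω₂, i2⟩ : ProbabilityMeasure X) ∈ Kn T F n ∧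
        ∀ k < n, ∫ x, F k x ∂ω₁ = ∫ x, F k x ∂(ω : Measure X) := by
      intro n
      induction n with
      | zero =>
        refine ⟨?_, ?_, fun k hk => absurd hk (Nat.not_lt_zero _)⟩
        · change _ ∈ T
          rw [hT]
          exact h1
        · change _ ∈ T
          rw [hT]
          exact h2
      | succ n ih =>
        obtain ⟨ih1, ih2, ih3⟩ := ih
        have h3 := hω (n + 1)
        have h4 : ∫ x, F n x ∂ω₁ ≤ ∫ x, F n x ∂(ω : Measure X) := h3.2 _ ih1
        have h5 : ∫ x, F n x ∂ω₂ ≤ ∫ x, F n x ∂(ω : Measure X) := h3.2 _ ih2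
        have h6 := mix_int hs0 hs1 hmix (F n)
        have h7 : ∫ x, F n x ∂ω₁ = ∫ x, F n x ∂(ω : Measure X) := by nlinarith
        have h8 : ∫ x, F n x ∂ω₂ = ∫ x, F n x ∂(ω : Measure X) := by nlinarith
        refine ⟨⟨ih1, fun ω' hω' => ?_⟩, ⟨ih2, fun ω' hω' => ?_⟩, fun k hk => ?_⟩
        · have := h3.2 _ hω'
          exact this.trans (le_of_eq h7.symm)
        · have := h3.2 _ hω'
          exact this.trans (le_of_eq h8.symm)
        · rcases Nat.lt_succ_iff_lt_or_eq.1 hk with h | rfl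
          · exact ih3 k h
          · exact h7
    refine ext_of_forall_integral_eq_of_IsFiniteMeasure fun f => ?_
    obtain ⟨f', hf'⟩ : ∃ f' : C(X, ℝ), f' = ⟨f, f.continuous⟩ := ⟨_, rfl⟩
    have hcl : ∀ F' : C(X, ℝ), ∫ x, F' x ∂ω₁ = ∫ x, F' x ∂(ω : Measure X) := by
      intro F'
      have hc : ∀ (m : Measure X) [IsProbabilityMeasure m], Continuous fun F : C(X, ℝ) => ∫ x, F x ∂m := by
        intro m _
        refine LipschitzWith.continuous (K := 1) (LipschitzWith.of_dist_le_mul fun F1 F2 => ?_)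
        rw [Real.dist_eq, ← integral_sub (cont_int F1.continuous m) (cont_int F2.continuous m)]
        have h9 := norm_integral_le_of_norm_le_const (μ := m) (f := fun x => F1 x - F2 x)
          (C := dist F1 F2) (Eventually.of_forall fun x => by
            rw [Real.norm_eq_abs, ← Real.dist_eq]
            exact ContinuousMap.dist_apply_le_dist x)
        rw [probReal_univ, mul_one, Real.norm_eq_abs] at h9
        rw [NNReal.coe_one, one_mul]
        exact h9
      have h3 := (TopologicalSpace.denseRange_denseSeq C(X, ℝ)).equalizer (hc ω₁)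
        (hc (ω : Measure X)) (by
          funext n
          have := (hfc (n + 2)).2.2 (n + 1) (by omega)
          rw [hF] at this
          exact this)
      exact congrFun h3 F'
    exact hcl ⟨f, f.continuous⟩
  · have h1 : ω ∈ Kn T F 1 := hω 1
    have h2 : (⟨ω', hSp _ hω'⟩ : ProbabilityMeasure X) ∈ Kn T F 0 := by
      change _ ∈ T
      rw [hT]
      exact hω'
    have h3 := h1.2 _ h2
    rw [hF] at h3
    exact h3

/-- the solutions of the equations form a closed set -/
lemma Sol_closed {κ : Type*} {Φ : κ → (X → ℝ) → X → ℝ}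
    (hΦ : ∀ k F, Continuous F → Continuous (Φ k F)) :
    IsClosed {ω : ProbabilityMeasure X | Sol Φ (ω : Measure X)} := by
  have h : {ω : ProbabilityMeasure X | Sol Φ (ω : Measure X)} = ⋂ (k : κ) (F : C(X, ℝ)),
      {ω : ProbabilityMeasure X | ∫ x, Φ k F x ∂(ω : Measure X) = ∫ x, F x ∂(ω : Measure X)} := by
    ext ω
    simp only [Set.mem_ofPred_eq, Set.mem_iInter]
    constructor
    · intro h k F
      exact h.2 k F F.continuous
    · intro h
      exact ⟨inferInstance, fun k F hF => h k ⟨F, hF⟩⟩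
  rw [h]
  exact isClosed_iInter fun k => isClosed_iInter fun F =>
    isClosed_eq (pint_cont ⟨_, hΦ k F F.continuous⟩) (pint_cont F)

end

end Pool.Agent.H991.AP
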