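import Mathlib
import Pool.Agent.H991.DC.Grid2

/-!
# Long range order of the labels in the infinite lattice
-/

open MeasureTheory
open Pool.Agent.H991.DC

namespace Pool.Agent.H991.AP

section

variable {Ω Z : Type*} [MeasurableSpace Ω] (P : Measure Ω) [IsProbabilityMeasure P] {D : ℕ}

theorem planeZ (bad : (Fin D → ℤ) → Set Ω) (lab : Ω → (Fin D → ℤ) → Z → Prop)
    (h1 : ∀ ω B, ω ∉ bad B → ∃ z, lab ω B z)
    (h3 : ∀ ω B i z z', lab ω B z → lab ω (Function.update B i (B i + 1)) z' → z = z')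
    {ε : ℝ} (h0 : 0 ≤ ε) (hε : 9 * ε ≤ 1 / 2)
    (hB : ∀ A : Finset (Fin D → ℤ), P.real {ω | ∀ B ∈ A, ω ∈ bad B} ≤ ε ^ A.card)
    (B : Fin D → ℤ) (i j : Fin D) (hij : i ≠ j) (c : ℤ) :
    P.real {ω | ω ∉ bad B ∧ ω ∉ bad (Function.update B i c) ∧
      ∃ z, lab ω B z ∧ ¬ lab ω (Function.update B i c) z} ≤ 10 * ε := by
  classical
  obtain ⟨m, hm⟩ : ∃ m : ℤ, m = min (B i) c := ⟨_, rfl⟩
  have hm1 : m ≤ B i := by rw [hm]; exact min_le_left _ _
  have hm2 : m ≤ c := by rw [hm]; exact min_le_right _ _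
  obtain ⟨x1, hx1⟩ := Int.eq_ofNat_of_zero_le (sub_nonneg.2 hm1)
  obtain ⟨y1, hy1⟩ := Int.eq_ofNat_of_zero_le (sub_nonneg.2 hm2)
  obtain ⟨M, hM⟩ : ∃ M : ℕ, M = x1 + y1 + 2 := ⟨_, rfl⟩
  obtain ⟨blk, hblk⟩ : ∃ blk : ℕ × ℕ → (Fin D → ℤ),
    blk = fun u => Function.update (Function.update B i (m + u.1)) j (B j + u.2) := ⟨_, rfl⟩
  have bi : ∀ u, blk u i = m + u.1 := by
    intro u
    rw [hblk]
    simp only
    rw [Function.update_of_ne hij, Function.update_self]
  have bj : ∀ u, blk u j = B j + u.2 := by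
    intro u
    rw [hblk]
    simp only
    rw [Function.update_self]
  have inj : ∀ u v : ℕ × ℕ, blk u = blk v → u = v := by
    intro u v huv
    have e1 := congrFun huv i
    have e2 := congrFun huv j
    rw [bi, bi] at e1
    rw [bj, bj] at e2
    exact Prod.ext (by omega) (by omega)
  have hx : blk (x1, 0) = B := by
    rw [hblk]
    simp only
    have e1 : m + (x1 : ℤ) = B i := by omega
    have e2 : B j + ((0 : ℕ) : ℤ) = B j := by simp
    rw [e1, e2, Function.update_eq_self, Function.update_eq_self]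
  have hy : blk (y1, 0) = Function.update B i c := by
    rw [hblk]
    simp only
    have e1 : m + (y1 : ℤ) = c := by omega
    have e2 : B j + ((0 : ℕ) : ℤ) = B j := by simp
    rw [e1, e2, Function.update_comm hij, Function.update_eq_self]
  have s1 : ∀ a b : ℕ, blk (a + 1, b) = Function.update (blk (a, b)) i (blk (a, b) i + 1) := by
    intro a b
    rw [bi]
    rw [hblk]
    simp only
    rw [Function.update_comm hij.symm _ _ (Function.update B i (m + (a : ℤ))),
      Function.update_idem]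
    push_cast
    rw [add_assoc]
  have s2 : ∀ a b : ℕ, blk (a, b + 1) = Function.update (blk (a, b)) j (blk (a, b) j + 1) := by
    intro a b
    rw [bj]
    rw [hblk]
    simp only
    rw [Function.update_idem]
    push_cast
    rw [add_assoc]
  have key := peierls P M (by omega) (fun u => bad (blk u)) h0 hε (by
    intro T hT
    have e1 : (T.image blk).card = T.card := Finset.card_image_of_injOn fun u hu v hv huv =>
      inj u v huv
    have e2 : (⋂ u ∈ T, bad (blk u)) = {ω | ∀ B ∈ T.image blk, ω ∈ bad B} := by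
      ext ω
      constructor
      · intro h' B' hB'
        obtain ⟨u, hu, rfl⟩ := Finset.mem_image.1 hB'
        exact Set.mem_iInter₂.1 h' u hu
      · intro h'
        exact Set.mem_iInter₂.2 fun u hu => h' _ (Finset.mem_image_of_mem _ hu)
    rw [e2, ← e1]
    exact hB _) (x1, 0) (y1, 0) (by simp only; omega) (by simp only; omega) (by simp only; omega)
      (by simp only; omega)
  refine le_trans (measureReal_mono ?_) key
  rintro ω ⟨hω1, hω2, z, hz1, hz2⟩
  change ω ∉ bad (blk _) ∧ ω ∉ bad (blk _) ∧ _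
  rw [hx, hy]
  refine ⟨hω1, hω2, fun u => if lab ω (blk u) z then 1 else 0, ?_, ?_⟩
  · have hb : ∀ a b, a < M → b < M → (a, b) ∉ {u : ℕ × ℕ | u.1 < M ∧ u.2 < M ∧ ω ∈ bad (blk u)} →
        ∃ z, lab ω (blk (a, b)) z := by
      intro a b ha hb hn
      refine h1 ω _ fun hbad => hn ⟨ha, hb, hbad⟩
    have hiff : ∀ u v k, blk v = Function.update (blk u) k (blk u k + 1) →
        (∃ z, lab ω (blk u) z) → (∃ z, lab ω (blk v) z) → (lab ω (blk v) z ↔ lab ω (blk u) z) := by
      rintro u v k huv ⟨z1, hz1⟩ ⟨z2, hz2⟩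
      constructor
      · intro hl
        have := h3 ω (blk u) k z1 z hz1 (huv ▸ hl)
        rwa [← this]
      · intro hl
        have := h3 ω (blk u) k z z2 hl (huv ▸ hz2)
        rwa [this]
    constructor
    · intro a b ha hb' hn1 hn2
      simp only
      rw [if_congr (hiff (a, b) (a + 1, b) i (s1 a b) (hb a b (by omega) hb' hn1)
        (hb (a + 1) b ha hb' hn2)) rfl rfl]
    · intro a b ha hb' hn1 hn2
      simp only
      rw [if_congr (hiff (a, b) (a, b + 1) j (s2 a b) (hb a b ha (by omega) hn1)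
        (hb a (b + 1) ha hb' hn2)) rfl rfl]
  · simp only
    rw [hx, hy, if_pos hz1, if_neg hz2]
    exact one_ne_zero

theorem chainZ (hD : 2 ≤ D) (bad : (Fin D → ℤ) → Set Ω)
    (lab : Ω → (Fin D → ℤ) → Z → Prop)
    (h1 : ∀ ω B, ω ∉ bad B → ∃ z, lab ω B z)
    (h3 : ∀ ω B i z z', lab ω B z → lab ω (Function.update B i (B i + 1)) z' → z = z')
    {ε : ℝ} (h0 : 0 ≤ ε) (hε : 9 * ε ≤ 1 / 2)
    (hB : ∀ A : Finset (Fin D → ℤ), P.real {ω | ∀ B ∈ A, ω ∈ bad B} ≤ ε ^ A.card)
    (B B' : Fin D → ℤ) :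
    P.real {ω | ¬ ∃ z, lab ω B z ∧ lab ω B' z} ≤ (11 * D + 1) * ε := by
  classical
  obtain ⟨C, hC⟩ : ∃ C : ℕ → (Fin D → ℤ), C = fun k (i : Fin D) => if (i : ℕ) < k then B' i else B i :=
    ⟨_, rfl⟩
  have C0 : C 0 = B := by rw [hC]; funext i; simp
  have CD : C D = B' := by rw [hC]; funext i; simp
  have Cs : ∀ (k : ℕ) (hk : k < D), C (k + 1) = Function.update (C k) ⟨k, hk⟩ (B' ⟨k, hk⟩) := by
    intro k hk
    rw [hC]
    funext i
    by_cases hi : i = ⟨k, hk⟩
    · subst hi; simp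
    · rw [Function.update_of_ne hi]
      have hne : (i : ℕ) ≠ k := fun h => hi (Fin.ext h)
      simp only
      by_cases h : (i : ℕ) < k
      · rw [if_pos h, if_pos (by omega)]
      · rw [if_neg h, if_neg (by omega)]
  have hb1 : ∀ B, P.real (bad B) ≤ ε := by
    intro B
    have := hB {B}
    simpa using this
  obtain ⟨X, hX⟩ : ∃ X : ℕ → Set Ω, X = fun k => {ω | ω ∉ bad (C k) ∧ ω ∉ bad (C (k + 1)) ∧
      ∃ z, lab ω (C k) z ∧ ¬ lab ω (C (k + 1)) z} := ⟨_, rfl⟩
  have hX1 : ∀ k ∈ Finset.range D, P.real (X k) ≤ 10 * ε := by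
    intro k hk
    rw [Finset.mem_range] at hk
    obtain ⟨j, hj⟩ : ∃ j : Fin D, (⟨k, hk⟩ : Fin D) ≠ j := by
      by_cases h : k = 0
      · exact ⟨⟨1, by omega⟩, fun he => by have := congrArg Fin.val he; simp only at this; omega⟩
      · exact ⟨⟨0, by omega⟩, fun he => by have := congrArg Fin.val he; simp only at this; omega⟩
    have := planeZ P bad lab h1 h3 h0 hε hB (C k) ⟨k, hk⟩ j hj (B' ⟨k, hk⟩)
    rw [← Cs k hk] at this
    rw [hX]
    exact this
  have hsub : {ω | ¬ ∃ z, lab ω B z ∧ lab ω B' z} ⊆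
      (⋃ k ∈ Finset.range (D + 1), bad (C k)) ∪ ⋃ k ∈ Finset.range D, X k := by
    intro ω hω
    by_contra hn
    rw [Set.mem_union, not_or] at hn
    obtain ⟨hn1, hn2⟩ := hn
    simp only [Set.mem_iUnion, not_exists, Finset.mem_range] at hn1 hn2
    apply hω
    obtain ⟨z, hz⟩ := h1 ω B (by
      rw [← C0]
      exact hn1 0 (by omega))
    refine ⟨z, hz, ?_⟩
    have hk : ∀ k, k ≤ D → lab ω (C k) z := by
      intro k
      induction k with
      | zero => intro _; rw [C0]; exact hz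
      | succ k ih =>
        intro hk
        by_contra hcon
        refine hn2 k (by omega) ?_
        rw [hX]
        exact ⟨hn1 k (by omega), hn1 (k + 1) (by omega), z, ih (by omega), hcon⟩
    rw [← CD]
    exact hk D le_rfl
  refine (measureReal_mono hsub).trans ((measureReal_union_le _ _).trans ?_)
  have f1 : P.real (⋃ k ∈ Finset.range (D + 1), bad (C k)) ≤ (D + 1) * ε := by
    refine (measureReal_biUnion_finset_le _ _).trans ((Finset.sum_le_sum fun k _ =>
      hb1 (C k)).trans (le_of_eq ?_))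
    rw [Finset.sum_const, Finset.card_range, nsmul_eq_mul]
    push_cast
    ring
  have f2 : P.real (⋃ k ∈ Finset.range D, X k) ≤ D * (10 * ε) := by
    refine (measureReal_biUnion_finset_le _ _).trans ((Finset.sum_le_sum hX1).trans (le_of_eq ?_))
    rw [Finset.sum_const, Finset.card_range, nsmul_eq_mul]
  linarith

end

end Pool.Agent.H991.AP
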