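import Mathlib
import Pool.Agent.H991.AP.Blk

/-!
# The probability that many blocks are bad, for every translation invariant Gibbs state
-/

open MeasureTheory Matrix Filter
open scoped Matrix.Norms.Frobenius Topology
open Pool.Agent.N899.SB
open Pool.Agent.N899.BB (we)
open Pool.Agent.Y14.Wilson
open Pool.Agent.H991.DC

namespace Pool.Agent.H991.AP

noncomputable section

section inv

variable {A : Type*} [AddCommGroup A] {d : ℕ} {G : Type*}

lemma Tv_Tv (v w : A) (U : A × Fin d → G) : Tv v (Tv w U) = Tv (v + w) U := by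
  funext e
  unfold Tv
  simp only
  rw [add_assoc]

lemma Tv_zero (U : A × Fin d → G) : Tv (0 : A) U = U := by
  funext e
  unfold Tv
  simp only [add_zero]

end inv

variable {N : ℕ} {G : Subgroup (UU N)} [MeasurableSpace G] [BorelSpace G] [CompactSpace G]
  [SecondCountableTopology G] {D t : ℕ} [NeZero t]

/-- invariance under translations -/
def IsT (ω : Measure (LZ D t → G)) : Prop := ∀ i, ω.map (Tv (evZ D t i)) = ω

lemma inv_add {ω : Measure (LZ D t → G)} {v w : SZ D t} (hv : ω.map (Tv v) = ω)
    (hw : ω.map (Tv w) = ω) : ω.map (Tv (v + w)) = ω := by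
  have h1 : (Tv (v + w) : (LZ D t → G) → _) = Tv v ∘ Tv w := by
    funext U
    exact (Tv_Tv v w U).symm
  rw [h1, ← Measure.map_map (Tv_cont v).measurable (Tv_cont w).measurable, hw, hv]

lemma inv_neg {ω : Measure (LZ D t → G)} {v : SZ D t} (hv : ω.map (Tv v) = ω) :
    ω.map (Tv (-v)) = ω := by
  have h1 : (Tv (-v) : (LZ D t → G) → (LZ D t → G)) ∘ Tv v = id := by
    funext U
    change Tv (-v) (Tv v U) = U
    rw [Tv_Tv, neg_add_cancel, Tv_zero]
  conv_lhs => rw [← hv]
  rw [Measure.map_map (Tv_cont _).measurable (Tv_cont v).measurable, h1, Measure.map_id]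

lemma inv_all {ω : Measure (LZ D t → G)} (hT : IsT ω) (v : Fin D → ℤ) :
    ω.map (Tv ((v, 0) : SZ D t)) = ω := by
  have h0 : ω.map (Tv (0 : SZ D t)) = ω := by
    have : (Tv (0 : SZ D t) : (LZ D t → G) → (LZ D t → G)) = id := by
      funext U; exact Tv_zero U
    rw [this, Measure.map_id]
  have h1 : ∀ (i : Fin D) (n : ℕ), ω.map (Tv ((Pi.single i (n : ℤ), 0) : SZ D t)) = ω := by
    intro i n
    induction n with
    | zero =>
      have : ((Pi.single i ((0 : ℕ) : ℤ), 0) : SZ D t) = 0 := by simp
      rw [this]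
      exact h0
    | succ n ih =>
      have : ((Pi.single i ((n + 1 : ℕ) : ℤ), 0) : SZ D t) =
          (Pi.single i (n : ℤ), 0) + evZ D t i.castSucc := by
        rw [evZ_cast]
        refine Prod.ext ?_ (by simp)
        funext j
        by_cases hj : j = i
        · subst hj; simp
        · simp [hj]
      rw [this]
      exact inv_add ih (hT _)
  have h2 : ∀ (i : Fin D) (n : ℤ), ω.map (Tv ((Pi.single i n, 0) : SZ D t)) = ω := by
    intro i n
    obtain ⟨m, rfl | rfl⟩ := Int.eq_nat_or_neg n
    · exact h1 i m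
    · have : ((Pi.single i (-(m : ℤ)), 0) : SZ D t) = -(Pi.single i (m : ℤ), 0) := by
        refine Prod.ext ?_ (by simp)
        funext j
        by_cases hj : j = i
        · subst hj; simp
        · simp [hj]
      rw [this]
      exact inv_neg (h1 i m)
  have h3 : ∀ S : Finset (Fin D), ω.map (Tv ((fun j => if j ∈ S then v j else 0, 0) : SZ D t)) = ω := by
    classical
    intro S
    induction S using Finset.induction_on with
    | empty =>
      have : ((fun j => if j ∈ (∅ : Finset (Fin D)) then v j else 0, 0) : SZ D t) = 0 := by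
        refine Prod.ext ?_ rfl
        funext j
        simp
      rw [this]
      exact h0
    | insert i S hi ih =>
      have : ((fun j => if j ∈ insert i S then v j else 0, 0) : SZ D t) =
          (fun j => if j ∈ S then v j else 0, 0) + (Pi.single i (v i), 0) := by
        refine Prod.ext ?_ (by simp)
        funext j
        by_cases hj : j = i
        · subst hj; simp [hi]
        · simp [hj]
      rw [this]
      exact inv_add ih (h2 i (v i))
  have h4 := h3 Finset.univ
  simpa using h4

lemma E1Z_meas (L : ℕ) (ε : ℝ) (B : Fin D → ℤ) :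
    MeasurableSet {U : LZ D t → G | E1Z L ε B U} := by
  have h : {U : LZ D t → G | E1Z L ε B U} = ⋃ (r : Fin D → ℕ), ⋃ (τ : ZMod t),
      ⋃ (a : Fin (D + 1)), ⋃ (b : Fin (D + 1)), {U | a < b ∧ Ok L a b r ∧
        ε < we (pq (evZ D t) U (emZ L B r, τ) a b)} := by
    ext U
    simp only [Set.mem_iUnion]
    rfl
  rw [h]
  refine MeasurableSet.iUnion fun r => ?_
  refine MeasurableSet.iUnion fun τ => MeasurableSet.iUnion fun a => MeasurableSet.iUnion fun b => ?_
  by_cases hc : a < b ∧ Ok L a b r
  · have : {U : LZ D t → G | a < b ∧ Ok L a b r ∧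
        ε < we (pq (evZ D t) U (emZ L B r, τ) a b)} =
        {U : LZ D t → G | ε < we (pq (evZ D t) U (emZ L B r, τ) a b)} := by
      ext U
      exact ⟨fun h => h.2.2, fun h => ⟨hc.1, hc.2, h⟩⟩
    rw [this]
    exact measurableSet_lt measurable_const
      (Pool.Agent.N899.BB.Low.we_cont.comp (pqZ_cont _ _ a b)).measurable
  · have : {U : LZ D t → G | a < b ∧ Ok L a b r ∧
        ε < we (pq (evZ D t) U (emZ L B r, τ) a b)} = ∅ := by
      ext U
      simp only [Set.mem_empty_iff_false, iff_false]
      exact fun h => hc ⟨h.1, h.2.1⟩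
    rw [this]
    exact MeasurableSet.empty

lemma E2Z_meas (L : ℕ) {q : G → Prop} (hq : MeasurableSet {g | q g}) (B : Fin D → ℤ) :
    MeasurableSet {U : LZ D t → G | E2Z L q B U} := by
  have h : {U : LZ D t → G | E2Z L q B U} = ⋂ (r : Fin D → ℕ), ⋂ (_ : ∀ j, r j ≤ L),
      (fun U : LZ D t → G => PolZ U (emZ L B r)) ⁻¹' {g | q g} := by
    ext U
    simp only [Set.mem_iInter]
    rfl
  rw [h]
  exact MeasurableSet.iInter fun r => MeasurableSet.iInter fun _ => (PolZ_cont _).measurable hq

lemma bdZ_meas (L : ℕ) (ε : ℝ) {q : G → Prop} (hq : MeasurableSet {g | q g}) (B : Fin D → ℤ) :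
    MeasurableSet {U : LZ D t → G | bdZ L ε q B U} := (E1Z_meas L ε B).union (E2Z_meas L hq B)

end

end Pool.Agent.H991.AP
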