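import Mathlib
import Pool.Agent.H991.AP.Mul

/-!
# The probability that many blocks are bad: the proof
-/

open MeasureTheory Matrix Filter
open scoped Matrix.Norms.Frobenius Topology
open Pool.Agent.N899.SB
open Pool.Agent.N899.BB (we)
open Pool.Agent.Y14.Wilson
open Pool.Agent.H991.DC

namespace Pool.Agent.H991.AP

noncomputable section

/-- the surface terms are small -/
lemma srf_lim (D L a t : ℕ) : Tendsto (fun n : ℕ =>
    srf D (L * (2 * (a * (n + 1) + 1))) t / ((n + 1 : ℕ) : ℝ) ^ D) atTop (𝓝 0) := by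
  have h0 : Tendsto (fun n : ℕ => 1 / ((n + 1 : ℕ) : ℝ)) atTop (𝓝 0) := by
    have := tendsto_one_div_add_atTop_nhds_zero_nat (𝕜 := ℝ)
    simpa using this
  have h1 : ∀ c : ℝ, Tendsto (fun n : ℕ =>
      ((((L * (2 * (a * (n + 1) + 1)) : ℕ) : ℝ) + c) / ((n + 1 : ℕ) : ℝ)) ^ D) atTop
      (𝓝 ((2 * L * a) ^ D)) := by
    intro c
    have h2 : Tendsto (fun n : ℕ => (2 * L * a : ℝ) + (2 * L + c) * (1 / ((n + 1 : ℕ) : ℝ))) atTop
        (𝓝 ((2 * L * a : ℝ) + (2 * L + c) * 0)) := (h0.const_mul _).const_add _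
    rw [mul_zero, add_zero] at h2
    refine (h2.pow D).congr fun n => ?_
    congr 1
    have h3 : (0 : ℝ) < ((n + 1 : ℕ) : ℝ) := by positivity
    field_simp
    push_cast
    ring
  have h4 := ((h1 1).sub (h1 (-1))).mul_const (t : ℝ)
  rw [sub_self, zero_mul] at h4
  refine h4.congr fun n => ?_
  unfold srf
  rw [div_pow, div_pow]
  ring

variable {N : ℕ} {G : Subgroup (UU N)} [MeasurableSpace G] [BorelSpace G] [CompactSpace G]
  [SecondCountableTopology G] (μ : Measure G) [IsProbabilityMeasure μ] [μ.IsHaarMeasure]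
  {D t : ℕ} [NeZero t]

/-- the centre of a tile -/
def ctr (a : ℕ) (y : Fin D → ℤ) : Fin D → ℤ := fun j => a + 2 * a * y j

lemma ctr_inj {a : ℕ} {B B' y y' : Fin D → ℤ} (hB : ∀ j, |B j| < a) (hB' : ∀ j, |B' j| < a)
    (h : B + ctr a y = B' + ctr a y') : y = y' ∧ B = B' := by
  have h1 : ∀ j, y j = y' j := by
    intro j
    have h2 := congrFun h j
    simp only [Pi.add_apply, ctr] at h2
    have h3 := abs_lt.1 (hB j)
    have h4 := abs_lt.1 (hB' j)
    have h5 : (2 * a : ℤ) * (y j - y' j) = B' j - B j := by linarith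
    have h6 : |(2 * a : ℤ) * (y j - y' j)| < 2 * a := by
      rw [h5, abs_lt]
      constructor <;> omega
    have h7 : y j - y' j = 0 := by
      by_contra hne
      have h8 : (1 : ℤ) ≤ |y j - y' j| := Int.one_le_abs hne
      rw [abs_mul, abs_of_nonneg (by positivity : (0 : ℤ) ≤ 2 * a)] at h6
      nlinarith
    omega
  have hy : y = y' := funext h1
  refine ⟨hy, ?_⟩
  rw [hy] at h
  exact add_right_cancel h

lemma ctr_bd {a n : ℕ} {B y : Fin D → ℤ} (hB : ∀ j, |B j| < a) (hy : ∀ j, 0 ≤ y j ∧ y j < n) (j : Fin D) :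
    0 ≤ (B + ctr a y) j ∧ (B + ctr a y) j + 1 < 2 * ((a * n + 1 : ℕ) : ℤ) := by
  have h1 := abs_lt.1 (hB j)
  obtain ⟨h2, h3⟩ := hy j
  simp only [Pi.add_apply, ctr]
  have h4 : (0 : ℤ) ≤ 2 * a * y j := by positivity
  have h5 : (2 * a : ℤ) * y j ≤ 2 * a * (n - 1) := by
    refine mul_le_mul_of_nonneg_left (by omega) (by positivity)
  push_cast
  constructor
  · omega
  · nlinarith

lemma cB_inj {h : ℕ} {X X' : Fin D → ℤ} (hX : ∀ j, 0 ≤ X j ∧ X j + 1 < 2 * (h : ℤ))
    (hX' : ∀ j, 0 ≤ X' j ∧ X' j + 1 < 2 * (h : ℤ)) (he : cB h X = cB h X') : X = X' := by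
  funext j
  have h1 : ((X j : ℤ) : ZMod (2 * h)) = ((X' j : ℤ) : ZMod (2 * h)) := congrFun he j
  rw [ZMod.intCast_eq_intCast_iff_dvd_sub] at h1
  have h2 := Int.eq_zero_of_abs_lt_dvd h1 (by
    have := hX j
    have := hX' j
    rw [abs_lt]
    push_cast
    constructor <;> omega)
  omega

theorem mul_step {β : ℝ} (hβ : 0 ≤ β) (ω : Measure (LZ D t → G)) [IsProbabilityMeasure ω]
    (hω : IsG μ β ω) (hT : IsT ω) {L : ℕ} (hL : 0 < L) {ε : ℝ} {q : G → Prop}
    (hq : MeasurableSet {g | q g}) {e : ℝ} (he : 0 ≤ e)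
    (hyp : ∀ (h : ℕ) [NeZero h] [NeZero (2 * h)] [NeZero (L * (2 * h))]
      (A : Finset (Fin D → ZMod (2 * h))),
      (nu μ D (L * (2 * h)) t β).real {U | ∀ B ∈ A, bd ε q B U} ≤ e ^ A.card)
    (K : Finset (Fin D → ℤ)) (a : ℕ) (ha : ∀ B ∈ K, ∀ j, |B j| < a) (n : ℕ) (hn : 1 ≤ n) :
    (n : ℝ) ^ D * ω.real {U | ∀ B ∈ K, bdZ L ε q B U} ≤
      2 * β * Er N D (L * (2 * (a * n + 1))) t +
        (n : ℝ) ^ D * ((Real.exp 1 - 1) * e ^ K.card) := by
  classical
  obtain ⟨h, hh⟩ : ∃ h, h = a * n + 1 := ⟨_, rfl⟩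
  rw [← hh]
  have i1 : NeZero h := ⟨by omega⟩
  have i2 : NeZero (2 * h) := ⟨by omega⟩
  have i3 : NeZero (L * (2 * h)) := ⟨(Nat.mul_pos hL (by omega)).ne'⟩
  obtain ⟨c1, hc1⟩ : ∃ c1 : ℝ, c1 = Real.exp 1 - 1 := ⟨_, rfl⟩
  have hc10 : 0 ≤ c1 := by
    have := Real.add_one_le_exp (1 : ℝ)
    rw [hc1]
    linarith
  obtain ⟨Y, hY⟩ : ∃ Y : Finset (Fin D → ℤ), Y = Fintype.piFinset fun _ => Finset.Ico 0 (n : ℤ) :=
    ⟨_, rfl⟩
  have hYm : ∀ y ∈ Y, ∀ j, 0 ≤ y j ∧ y j < n := by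
    intro y hy j
    rw [hY, Fintype.mem_piFinset] at hy
    exact Finset.mem_Ico.1 (hy j)
  have hYc : (Y.card : ℝ) = (n : ℝ) ^ D := by
    rw [hY, Fintype.card_piFinset]
    simp
  obtain ⟨g, hg⟩ : ∃ g : (Fin D → ℤ) → (LZ D t → G) → ℝ, g = fun y U =>
    if ∀ B ∈ K, bdZ L ε q (B + ctr a y) U then 1 else 0 := ⟨_, rfl⟩
  obtain ⟨gt, hgt⟩ : ∃ gt : (Fin D → ℤ) → (St D (L * (2 * h)) t × Fin (D + 1) → G) → ℝ,
    gt = fun y V => if ∀ B ∈ K, bd ε q (cB h (B + ctr a y)) V then 1 else 0 := ⟨_, rfl⟩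
  have hbdd : ∀ y ∈ Y, ∀ B ∈ K, ∀ j, 0 ≤ (B + ctr a y) j ∧ (B + ctr a y) j + 1 < 2 * (h : ℤ) := by
    intro y hy B hB j
    have := ctr_bd (n := n) (ha B hB) (hYm y hy) j
    rw [hh]
    exact this
  have hgg : ∀ y ∈ Y, ∀ U, g y U = gt y (Rl (L * (2 * h)) U) := by
    intro y hy U
    rw [hg, hgt]
    simp only
    refine if_congr (forall_congr' fun B => forall_congr' fun hB => ?_) rfl rfl
    rw [bdZ_loc (agr_box (h := h) U (B + ctr a y) (hbdd y hy B hB)), bdZ_per]
  -- the integral over the torus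
  have hms : ∀ A : Finset (Fin D → ZMod (2 * h)),
      MeasurableSet {V : St D (L * (2 * h)) t × Fin (D + 1) → G | ∀ B ∈ A, bd ε q B V} := by
    intro A
    simp only [Set.setOf_forall]
    refine MeasurableSet.iInter fun B => MeasurableSet.iInter fun _ => ?_
    exact (E1_meas we (Pool.Agent.N899.BB.Low.we_cont (G := G)).measurable ε B).union
      (E2_meas q hq B)
  have hgtm : ∀ y, Measurable (gt y) := by
    intro y
    rw [hgt]
    refine Measurable.ite ?_ measurable_const measurable_const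
    have := hms (K.image fun B => cB h (B + ctr a y))
    have e1 : {V : St D (L * (2 * h)) t × Fin (D + 1) → G |
        ∀ B ∈ K, bd ε q (cB h (B + ctr a y)) V} =
        {V | ∀ B ∈ K.image fun B => cB h (B + ctr a y), bd ε q B V} := by
      ext V
      simp
    rw [e1]
    exact this
  have hgt01 : ∀ y V, 0 ≤ gt y V ∧ gt y V ≤ 1 := by
    intro y V
    rw [hgt]
    simp only
    split_ifs <;> norm_num
  have hnup := nu_prob (G := G) μ D (L * (2 * h)) t β hβ
  obtain ⟨FF, hFF⟩ : ∃ FF : (St D (L * (2 * h)) t × Fin (D + 1) → G) → ℝ,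
    FF = fun V => ∏ y ∈ Y, (1 + c1 * gt y V) := ⟨_, rfl⟩
  have hFm : Measurable FF := by
    rw [hFF]
    exact Finset.measurable_fun_prod _ fun y _ => ((hgtm y).const_mul c1).const_add 1
  have hF0 : ∀ V, 0 ≤ FF V := by
    intro V
    rw [hFF]
    exact Finset.prod_nonneg fun y _ => add_nonneg zero_le_one (mul_nonneg hc10 (hgt01 y V).1)
  have hFC : ∀ V, FF V ≤ (1 + c1) ^ Y.card := by
    intro V
    rw [hFF]
    simp only
    rw [← Finset.prod_const]
    refine Finset.prod_le_prod (fun y _ => add_nonneg zero_le_one (mul_nonneg hc10 (hgt01 y V).1))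
      fun y _ => ?_
    have := mul_le_mul_of_nonneg_left (hgt01 y V).2 hc10
    linarith
  have hT1 : ∫ V, FF V ∂(nu μ D (L * (2 * h)) t β) ≤ (1 + c1 * e ^ K.card) ^ Y.card := by
    have e1 : ∀ V, FF V = ∑ T ∈ Y.powerset, ∏ y ∈ T, (c1 * gt y V) := by
      intro V
      rw [hFF]
      exact Finset.prod_one_add _
    have e2 : ∀ T ∈ Y.powerset, ∀ V, ∏ y ∈ T, (c1 * gt y V) = c1 ^ T.card *
        Set.indicator {V | ∀ B ∈ (T ×ˢ K).image (fun p => cB h (p.2 + ctr a p.1)), bd ε q B V}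
          1 V := by
      intro T _ V
      rw [Finset.prod_mul_distrib, Finset.prod_const]
      congr 1
      by_cases hV : ∀ B ∈ (T ×ˢ K).image (fun p => cB h (p.2 + ctr a p.1)), bd ε q B V
      · rw [Set.indicator_of_mem (by exact hV)]
        refine Finset.prod_eq_one fun y hy => ?_
        rw [hgt]
        simp only
        rw [if_pos]
        intro B hB
        exact hV _ (Finset.mem_image.2 ⟨(y, B), Finset.mem_product.2 ⟨hy, hB⟩, rfl⟩)
      · rw [Set.indicator_of_notMem (by exact hV)]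
        push Not at hV
        obtain ⟨B', hB', hn⟩ := hV
        obtain ⟨⟨y, B⟩, hyB, rfl⟩ := Finset.mem_image.1 hB'
        have hyB' := Finset.mem_product.1 hyB
        refine Finset.prod_eq_zero hyB'.1 ?_
        rw [hgt]
        simp only
        rw [if_neg]
        intro hall
        exact hn (hall B hyB'.2)
    have e3 : ∀ T ∈ Y.powerset, ∫ V, ∏ y ∈ T, (c1 * gt y V) ∂(nu μ D (L * (2 * h)) t β) ≤
        (c1 * e ^ K.card) ^ T.card := by
      intro T hT'
      have hTY := Finset.mem_powerset.1 hT'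
      simp only [e2 T hT']
      rw [integral_const_mul, integral_indicator_one (hms _), mul_pow]
      refine mul_le_mul_of_nonneg_left ?_ (pow_nonneg hc10 _)
      refine (hyp h _).trans (le_of_eq ?_)
      rw [Finset.card_image_of_injOn, Finset.card_product, ← pow_mul, mul_comm]
      rintro ⟨y, B⟩ hp ⟨y', B'⟩ hp' heq
      have hp1 := Finset.mem_product.1 (Finset.mem_coe.1 hp)
      have hp2 := Finset.mem_product.1 (Finset.mem_coe.1 hp')
      have h1 := cB_inj (hbdd y (hTY hp1.1) B hp1.2) (hbdd y' (hTY hp2.1) B' hp2.2) heq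
      obtain ⟨h2, h3⟩ := ctr_inj (ha B hp1.2) (ha B' hp2.2) h1
      rw [h2, h3]
    simp only [e1]
    rw [integral_finsetSum]
    · refine (Finset.sum_le_sum e3).trans (le_of_eq ?_)
      have := Finset.prod_one_add (f := fun _ : Fin D → ℤ => c1 * e ^ K.card) Y
      simp only [Finset.prod_const] at this
      exact this.symm
    · intro T _
      refine Integrable.of_bound (C := c1 ^ T.card) ?_ (Eventually.of_forall fun V => ?_)
      · exact (Finset.measurable_fun_prod _ fun y _ => (hgtm y).const_mul c1).aestronglyMeasurable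
      · rw [Real.norm_eq_abs, abs_of_nonneg (Finset.prod_nonneg fun y _ =>
          mul_nonneg hc10 (hgt01 y V).1), ← Finset.prod_const]
        refine Finset.prod_le_prod (fun y _ => mul_nonneg hc10 (hgt01 y V).1) fun y _ => ?_
        have := mul_le_mul_of_nonneg_left (hgt01 y V).2 hc10
        linarith
  -- the comparison
  have hRm : Measurable (Rl (L * (2 * h)) : (LZ D t → G) → _) := Rl_cont.measurable
  have hcmp := int_le (Real.exp_pos _).le (cmp (l := L * (2 * h)) μ hβ ω hω) hFm hF0 hFC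
  rw [integral_map hRm.aemeasurable hFm.aestronglyMeasurable] at hcmp
  -- Jensen
  have hgm : ∀ y ∈ Y, Measurable (g y) := by
    intro y hy
    have : g y = fun U => gt y (Rl (L * (2 * h)) U) := funext (hgg y hy)
    rw [this]
    exact (hgtm y).comp hRm
  have hg01 : ∀ y U, 0 ≤ g y U ∧ g y U ≤ 1 := by
    intro y U
    rw [hg]
    simp only
    split_ifs <;> norm_num
  have hexp : ∀ U, Real.exp (∑ y ∈ Y, g y U) = FF (Rl (L * (2 * h)) U) := by
    intro U
    rw [Real.exp_sum, hFF]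
    refine Finset.prod_congr rfl fun y hy => ?_
    rw [← hgg y hy, hg]
    simp only
    split_ifs
    · rw [hc1]; ring
    · simp
  obtain ⟨p, hp⟩ : ∃ p, p = ω.real {U | ∀ B ∈ K, bdZ L ε q B U} := ⟨_, rfl⟩
  have hmsZ : MeasurableSet {U : LZ D t → G | ∀ B ∈ K, bdZ L ε q B U} := by
    simp only [Set.setOf_forall]
    exact MeasurableSet.iInter fun B => MeasurableSet.iInter fun _ => bdZ_meas L ε hq B
  have hgint : ∀ y ∈ Y, ∫ U, g y U ∂ω = p := by
    intro y _
    have hinv := inv_all hT (fun j => (L : ℤ) * ctr a y j)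
    have e1 : ∀ U, g y U = Set.indicator {U : LZ D t → G | ∀ B ∈ K, bdZ L ε q B U} 1
        (Tv ((fun j => (L : ℤ) * ctr a y j), 0) U) := by
      intro U
      rw [hg]
      simp only
      by_cases hU : ∀ B ∈ K, bdZ L ε q (B + ctr a y) U
      · rw [if_pos hU, Set.indicator_of_mem]
        · rfl
        · intro B hB
          exact (bdZ_Tv B (ctr a y) U).2 (hU B hB)
      · rw [if_neg hU, Set.indicator_of_notMem]
        intro hmem
        apply hU
        intro B hB
        exact (bdZ_Tv B (ctr a y) U).1 (hmem B hB)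
    simp only [e1]
    have e2 := integral_map (μ := ω) (Tv_cont (G := G) (d := D + 1)
      (((fun j => (L : ℤ) * ctr a y j), 0) : SZ D t)).measurable.aemeasurable
      (f := Set.indicator {U : LZ D t → G | ∀ B ∈ K, bdZ L ε q B U} (1 : (LZ D t → G) → ℝ))
      ((measurable_const (a := (1 : ℝ))).indicator hmsZ).aestronglyMeasurable
    rw [← e2, hinv, integral_indicator_one hmsZ, hp]
  obtain ⟨m, hm⟩ : ∃ m, m = ∫ U, ∑ y ∈ Y, g y U ∂ω := ⟨_, rfl⟩
  have hgi : ∀ y ∈ Y, Integrable (g y) ω := fun y hy =>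
    Integrable.of_bound (C := 1) (hgm y hy).aestronglyMeasurable (Eventually.of_forall fun U => by
      rw [Real.norm_eq_abs, abs_of_nonneg (hg01 y U).1]; exact (hg01 y U).2)
  have hm' : m = (n : ℝ) ^ D * p := by
    rw [hm, integral_finsetSum _ hgi, Finset.sum_congr rfl hgint, Finset.sum_const, nsmul_eq_mul,
      hYc]
  have hsi : Integrable (fun U => ∑ y ∈ Y, g y U) ω := integrable_finsetSum _ hgi
  have hJ : Real.exp m ≤ ∫ U, FF (Rl (L * (2 * h)) U) ∂ω := by
    have h1 : ∀ U, Real.exp m * (1 + (∑ y ∈ Y, g y U - m)) ≤ FF (Rl (L * (2 * h)) U) := by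
      intro U
      rw [← hexp]
      have h2 := Real.add_one_le_exp (∑ y ∈ Y, g y U - m)
      have h3 : Real.exp (∑ y ∈ Y, g y U) = Real.exp m * Real.exp (∑ y ∈ Y, g y U - m) := by
        rw [← Real.exp_add]; congr 1; ring
      rw [h3]
      refine mul_le_mul_of_nonneg_left ?_ (Real.exp_pos _).le
      linarith
    have h4 : ∫ U, Real.exp m * (1 + (∑ y ∈ Y, g y U - m)) ∂ω = Real.exp m := by
      have e5 : ∀ U, 1 + (∑ y ∈ Y, g y U - m) = (1 - m) + ∑ y ∈ Y, g y U := fun U => by ring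
      rw [integral_const_mul]
      simp only [e5]
      rw [integral_add (integrable_const _) hsi, ← hm]
      simp
    rw [← h4]
    refine integral_mono ?_ ?_ h1
    · exact ((integrable_const _).add (hsi.sub (integrable_const _))).const_mul _
    · refine Integrable.of_bound (C := (1 + c1) ^ Y.card) (hFm.comp hRm).aestronglyMeasurable
        (Eventually.of_forall fun U => ?_)
      rw [Real.norm_eq_abs, abs_of_nonneg (hF0 _)]
      exact hFC _
  have hfin : Real.exp m ≤ Real.exp (2 * β * Er N D (L * (2 * h)) t +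
      (n : ℝ) ^ D * (c1 * e ^ K.card)) := by
    refine hJ.trans (hcmp.trans ?_)
    rw [Real.exp_add]
    refine mul_le_mul_of_nonneg_left (hT1.trans ?_) (Real.exp_pos _).le
    have hx : 0 ≤ c1 * e ^ K.card := mul_nonneg hc10 (pow_nonneg he _)
    calc (1 + c1 * e ^ K.card) ^ Y.card ≤ Real.exp (c1 * e ^ K.card) ^ Y.card := by
          refine pow_le_pow_left₀ (by linarith) ?_ _
          have := Real.add_one_le_exp (c1 * e ^ K.card)
          linarith
      _ = _ := by rw [← Real.exp_nat_mul, hYc]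
  have := Real.exp_le_exp.1 hfin
  rw [hm', hp, hc1] at this
  exact this

/-- THE PROBABILITY THAT MANY BLOCKS ARE BAD -/
theorem mul_bad {β : ℝ} (hβ : 0 ≤ β) (ω : Measure (LZ D t → G)) [IsProbabilityMeasure ω]
    (hω : IsG μ β ω) (hT : IsT ω) {L : ℕ} (hL : 0 < L) {ε : ℝ} {q : G → Prop}
    (hq : MeasurableSet {g | q g}) {e : ℝ} (he : 0 ≤ e)
    (hyp : ∀ (h : ℕ) [NeZero h] [NeZero (2 * h)] [NeZero (L * (2 * h))]
      (A : Finset (Fin D → ZMod (2 * h))),
      (nu μ D (L * (2 * h)) t β).real {U | ∀ B ∈ A, bd ε q B U} ≤ e ^ A.card)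
    (K : Finset (Fin D → ℤ)) :
    ω.real {U | ∀ B ∈ K, bdZ L ε q B U} ≤ 2 * e ^ K.card := by
  obtain ⟨a, ha⟩ : ∃ a : ℕ, ∀ B ∈ K, ∀ j, |B j| < (a : ℤ) := by
    refine ⟨(K ×ˢ Finset.univ).sup (fun p : (Fin D → ℤ) × Fin D => (p.1 p.2).natAbs) + 1,
      fun B hB j => ?_⟩
    have hmem : ((B, j) : (Fin D → ℤ) × Fin D) ∈ K ×ˢ (Finset.univ : Finset (Fin D)) :=
      Finset.mem_product.2 ⟨hB, Finset.mem_univ j⟩
    have h3 := Finset.le_sup (f := fun p : (Fin D → ℤ) × Fin D => (p.1 p.2).natAbs) hmem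
    simp only at h3
    rw [Int.abs_eq_natAbs]
    exact_mod_cast Nat.lt_succ_of_le h3
  have h1 : ∀ n : ℕ, ω.real {U | ∀ B ∈ K, bdZ L ε q B U} ≤
      (2 * β * (2 * N * (D + 1) ^ 2)) *
        (srf D (L * (2 * (a * (n + 1) + 1))) t / ((n + 1 : ℕ) : ℝ) ^ D) +
      (Real.exp 1 - 1) * e ^ K.card := by
    intro n
    have h2 := mul_step μ hβ ω hω hT hL hq he hyp K a ha (n + 1) (by omega)
    have h3 : (0 : ℝ) < ((n + 1 : ℕ) : ℝ) ^ D := by positivity
    rw [← mul_le_mul_iff_right₀ h3]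
    refine h2.trans (le_of_eq ?_)
    unfold Er
    field_simp
  have h2 := ((srf_lim D L a t).const_mul (2 * β * (2 * N * (D + 1) ^ 2))).add_const
    ((Real.exp 1 - 1) * e ^ K.card)
  rw [mul_zero, zero_add] at h2
  have h3 := ge_of_tendsto' h2 h1
  refine h3.trans (mul_le_mul_of_nonneg_right ?_ (pow_nonneg he _))
  have := Real.exp_one_lt_d9
  linarith

end

end Pool.Agent.H991.AP
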