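import Mathlib
import Pool.Agent.H991.AP.Mul2
import Pool.Agent.H991.AP.GridZ
import Pool.Agent.H991.DC.Main

/-!
# Every translation invariant Gibbs state has long range order
-/

open MeasureTheory Matrix Filter
open scoped Matrix.Norms.Frobenius Topology
open Pool.Agent.N899.SB
open Pool.Agent.N899.BB (we)
open Pool.Agent.Y14.Wilson
open Pool.Agent.H991.DC

namespace Pool.Agent.H991.AP

noncomputable section

section core

variable {N : ℕ} {G : Subgroup (UU N)} [MeasurableSpace G] [BorelSpace G] [CompactSpace G]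
  [SecondCountableTopology G] (μ : Measure G) [IsProbabilityMeasure μ] [μ.IsHaarMeasure]
  {D t : ℕ} [NeZero t]

/-- both loops are near the same element of the centre -/
def Cl (ε : ℝ) (x y : Fin D → ℤ) (U : LZ D t → G) : Prop :=
  ∃ z ∈ Subgroup.center G, ‖mt (PolZ U x) - mt z‖ ≤ ε ∧ ‖mt (PolZ U y) - mt z‖ ≤ ε

theorem two_core (hD : 2 ≤ D) {L : ℕ} (hL : 0 < L) {ρ : ℝ} (hρ : 0 < ρ)
    (hz : ∀ z ∈ Subgroup.center G, ∀ z' ∈ Subgroup.center G, ‖mt z - mt z'‖ ≤ 2 * (2 * ρ) → z = z')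
    (hq : MeasurableSet {g : G | qf ρ g}) {β e : ℝ} (hβ : 0 ≤ β) (he : 0 ≤ e) (he9 : 9 * (4 * e) ≤ 1 / 2)
    (h12 : ∀ (h : ℕ) [NeZero h] [NeZero (2 * h)] [NeZero (L * (2 * h))],
      0 < prt (D := D) (l := L * (2 * h)) (t := t) μ (we (G := G)) β ∧
      Gw μ (FB D L h t (ρ ^ 2 / (2 * D ^ 2) / (L * t) ^ 2) (qf ρ) hq) we β (fun _ => 1) ≤
        prt (D := D) (l := L * (2 * h)) (t := t) μ (we (G := G)) β * e ^ (2 * h) ^ D ∧
      Gw μ (FB D L h t (ρ ^ 2 / (2 * D ^ 2) / (L * t) ^ 2) (qf ρ) hq) we β (fun _ => 2) ≤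
        prt (D := D) (l := L * (2 * h)) (t := t) μ (we (G := G)) β * e ^ (2 * h) ^ D)
    (ω : Measure (LZ D t → G)) [IsProbabilityMeasure ω] (hω : IsG μ β ω) (hT : IsT ω)
    (x y : Fin D → ℤ) :
    ω.real {U | ¬ Cl (2 * ρ) x y U} ≤ (11 * D + 1) * (4 * e) := by
  classical
  have hD0 : 0 < D := by omega
  obtain ⟨ε, hε⟩ : ∃ ε : ℝ, ε = ρ ^ 2 / (2 * D ^ 2) / (L * t) ^ 2 := ⟨_, rfl⟩
  have hyp : ∀ (h : ℕ) [NeZero h] [NeZero (2 * h)] [NeZero (L * (2 * h))]
      (A : Finset (Fin D → ZMod (2 * h))),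
      (nu μ D (L * (2 * h)) t β).real {U | ∀ B ∈ A, bd ε (qf ρ) B U} ≤ (2 * e) ^ A.card := by
    intro h _ _ _ A
    obtain ⟨hZ, h1, h2⟩ := h12 h
    rw [hε]
    exact nu_bad μ _ (qf ρ) hq hβ he hZ h1 h2 A
  have hmul : ∀ K : Finset (Fin D → ℤ),
      ω.real {U | ∀ B ∈ K, bdZ L ε (qf ρ) B U} ≤ (4 * e) ^ K.card := by
    intro K
    rcases K.eq_empty_or_nonempty with rfl | hK
    · rw [Finset.card_empty, pow_zero]
      exact measureReal_le_one
    · refine (mul_bad μ hβ ω hω hT hL hq (by positivity : (0 : ℝ) ≤ 2 * e) hyp K).trans ?_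
      have h1 : (4 * e) ^ K.card = 2 ^ K.card * (2 * e) ^ K.card := by
        rw [← mul_pow]; congr 1; ring
      rw [h1]
      refine mul_le_mul_of_nonneg_right ?_ (by positivity)
      calc (2 : ℝ) = 2 ^ 1 := (pow_one _).symm
        _ ≤ 2 ^ K.card := pow_le_pow_right₀ (by norm_num) hK.card_pos
  have key := chainZ ω hD (fun B => {U : LZ D t → G | bdZ L ε (qf ρ) B U})
    (fun U B z => z ∈ Subgroup.center G ∧ LbZ L (2 * ρ) U B z)
    (fun U B hB => by
      rw [hε] at hB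
      exact good_labZ hρ hL hD0 U B hB)
    (fun U B i z z' h1 h2 => lab_adjZ hz U B i h1.1 h2.1 h1.2 h2.2)
    (by positivity : (0 : ℝ) ≤ 4 * e) he9 hmul (fun j => x j / L) (fun j => y j / L)
  refine (measureReal_mono ?_).trans key
  intro U hU hcon
  apply hU
  obtain ⟨z, ⟨hz1, hl1⟩, ⟨-, hl2⟩⟩ := hcon
  have hsite : ∀ v : Fin D → ℤ, ∃ r : Fin D → ℕ, (∀ j, r j ≤ L) ∧ emZ L (fun j => v j / L) r = v := by
    intro v
    have hL' : (0 : ℤ) < L := by exact_mod_cast hL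
    refine ⟨fun j => (v j % L).toNat, fun j => ?_, ?_⟩
    · have h1 := Int.emod_nonneg (v j) hL'.ne'
      have h2 := Int.emod_lt_of_pos (v j) hL'
      change (v j % L).toNat ≤ L
      omega
    · funext j
      have h1 := Int.emod_nonneg (v j) hL'.ne'
      have h3 := Int.mul_ediv_add_emod (v j) L
      simp only [emZ]
      rw [Int.toNat_of_nonneg h1]
      exact h3
  obtain ⟨r, hr, hrx⟩ := hsite x
  obtain ⟨s, hs, hsy⟩ := hsite y
  refine ⟨z, hz1, ?_, ?_⟩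
  · have := hl1 r hr
    rwa [hrx] at this
  · have := hl2 s hs
    rwa [hsy] at this

end core

theorem two_pt {N : ℕ} (G : Subgroup (UU N)) (hG : IsClosed (G : Set (UU N))) [PreconnectedSpace G]
    [Finite (Subgroup.center G)] [MeasurableSpace G] [BorelSpace G] (μ : Measure G)
    [IsProbabilityMeasure μ] [μ.IsHaarMeasure] (D : ℕ) (hD : 2 ≤ D) :
    ∃ κ : ℝ, 0 < κ ∧ ∀ ε : ℝ, 0 < ε → ∃ β0 : ℝ, 1 ≤ β0 ∧ ∀ β : ℝ, β0 ≤ β → ∀ (t : ℕ) [NeZero t],
    (t : ℝ) ≤ β ^ κ → ∀ (ω : Measure (LZ D t → G)) [IsProbabilityMeasure ω], IsG μ β ω → IsT ω →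
    ∀ x y : Fin D → ℤ, ω.real {U | ¬ Cl ε x y U} ≤ Real.exp (-β ^ κ) := by
  have hcG := Pool.Agent.N899.BB.Est.compactG hG
  have hsG : SecondCountableTopology G := Pool.Agent.N899.BB.Est.scG
  obtain ⟨n, ⟨B⟩⟩ := exists_basis hG
  obtain ⟨C, K, hC, hK, hw⟩ := wts G hG μ B
  obtain ⟨p, q, hp, hq, hpar⟩ := par C K hC D (by omega)
  have hq0 : (0 : ℝ) < q := by exact_mod_cast hq
  refine ⟨1 / q, by positivity, fun ε hε => ?_⟩
  obtain ⟨d, hd, hsep⟩ := center_sep G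
  obtain ⟨ρ, hρ⟩ : ∃ ρ, ρ = min (ε / 2) (d / 4) := ⟨_, rfl⟩
  have hρ0 : 0 < ρ := by rw [hρ]; exact lt_min (by positivity) (by positivity)
  have hρε : 2 * ρ ≤ ε := by
    have : ρ ≤ ε / 2 := by rw [hρ]; exact min_le_left _ _
    linarith
  have hρd : 2 * (2 * ρ) ≤ d := by
    have : ρ ≤ d / 4 := by rw [hρ]; exact min_le_right _ _
    linarith
  obtain ⟨c, hc, hlow⟩ := ad_low hG B hρ0
  have hD0 : (0 : ℝ) < D := by exact_mod_cast (by omega : 0 < D)
  have hcosh : 0 < Real.cosh (20 * D) + 1 := by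
    have := Real.cosh_pos (20 * D)
    linarith
  obtain ⟨u0, hu0, hu⟩ := hpar (ρ ^ 2 / (2 * D ^ 2)) (c / 2 / (Real.cosh (20 * D) + 1))
    (by positivity) (by positivity)
  obtain ⟨v, hv⟩ : ∃ v : ℝ, v = u0 + (44 * D + 4) := ⟨_, rfl⟩
  have hv4 : 4 ≤ v := by rw [hv]; linarith
  refine ⟨v ^ q, one_le_pow₀ (by linarith), fun β hβ t _ ht ω _ hω hT x y => ?_⟩
  obtain ⟨u, hudef⟩ : ∃ u : ℝ, u = β ^ (1 / (q : ℝ)) := ⟨_, rfl⟩
  have hβ0 : 0 < β := lt_of_lt_of_le (by positivity) hβ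
  have huq : u ^ q = β := by
    rw [hudef, one_div, Real.rpow_inv_natCast_pow hβ0.le (by omega)]
  have huv : v ≤ u := by
    have : (0 : ℝ) ≤ u := by rw [hudef]; positivity
    refine (pow_le_pow_iff_left₀ (by linarith) this (by omega : q ≠ 0)).1 ?_
    rw [huq]
    exact hβ
  have hu1 : 1 ≤ u := by linarith
  rw [← hudef] at ht ⊢
  -- the side of the blocks
  obtain ⟨j, hj1, hj2⟩ := exists_nat_pow_near (x := u ^ p) (y := 2) (one_le_pow₀ hu1) (by norm_num)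
  obtain ⟨L, hL⟩ : ∃ L : ℕ, L = 2 ^ (j + 1) := ⟨_, rfl⟩
  have hL1 : u ^ p ≤ L := by rw [hL]; push_cast; exact hj2.le
  have hL2 : (L : ℝ) ≤ 2 * u ^ p := by
    rw [hL]; push_cast; rw [pow_succ]; linarith
  obtain ⟨r, hr⟩ : ∃ r : ℕ, r = 2 ^ j - 1 := ⟨_, rfl⟩
  have hLr : L = 2 * r + 2 := by
    have : 1 ≤ 2 ^ j := Nat.one_le_two_pow
    rw [hL, hr, pow_succ]
    omega
  have ht1 : 1 ≤ t := Nat.pos_of_ne_zero (NeZero.ne t)
  obtain ⟨hr1, h3, h2L, hs1, hs2⟩ := hu u (by rw [hv] at huv; linarith) L t r ht1 ht hL1 hL2 hLr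
  have hLpos : 0 < L := by omega
  -- the cutoff
  obtain ⟨F, hF⟩ : ∃ F : G → ℝ, F = fun P => max 0 (min 1 ((2 * ad B P - c) / c)) := ⟨_, rfl⟩
  have hFc : Continuous F := by
    rw [hF]
    exact continuous_const.max (continuous_const.min
      (((continuous_const.mul (ad_cont B)).sub continuous_const).div_const c))
  have hF1 : ∀ P, 0 ≤ F P ∧ F P ≤ 1 := by
    intro P
    rw [hF]
    exact ⟨le_max_left _ _, max_le zero_le_one (min_le_left _ _)⟩
  have hFδ : ∀ P, F P ≠ 0 → c / 2 ≤ n - (Ado B P).trace := by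
    intro P hP
    by_contra hcon
    push Not at hcon
    apply hP
    have h4 : ad B P < c / 2 := hcon
    rw [hF]
    simp only
    refine max_eq_left ((min_le_right _ _).trans ?_)
    exact div_nonpos_of_nonpos_of_nonneg (by linarith) hc.le
  have hqm : MeasurableSet {g : G | qf ρ g} := by
    unfold qf
    have hcl : IsClosed {g : G | ∀ z ∈ Subgroup.center G, ρ ≤ ‖mt g - mt z‖} := by
      simp only [Set.setOf_forall]
      exact isClosed_iInter fun z => isClosed_iInter fun _ => isClosed_le continuous_const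
        ((continuous_subtype_val.comp continuous_subtype_val : Continuous (mt : G → Mt N)).sub
          continuous_const).norm
    exact hcl.measurableSet
  have hqF : ∀ g : G, qf ρ g → F g = 1 := by
    intro g hg
    have h4 := hlow g hg
    rw [hF]
    simp only
    rw [min_eq_left, max_eq_right zero_le_one]
    rw [le_div_iff₀ hc]
    linarith
  have hβ3 : 3 ≤ β := by rw [← huq]; exact h3
  rw [huq] at hs1 hs2
  obtain ⟨e, he⟩ : ∃ e : ℝ, e = Real.exp (-(2 * u)) := ⟨_, rfl⟩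
  have he0 : 0 < e := by rw [he]; exact Real.exp_pos _
  have h12 : ∀ (h : ℕ) [NeZero h] [NeZero (2 * h)] [NeZero (L * (2 * h))],
      0 < prt (D := D) (l := L * (2 * h)) (t := t) μ (we (G := G)) β ∧
      Gw μ (FB D L h t (ρ ^ 2 / (2 * D ^ 2) / (L * t) ^ 2) (qf ρ) hqm) we β (fun _ => 1) ≤
        prt (D := D) (l := L * (2 * h)) (t := t) μ (we (G := G)) β * e ^ (2 * h) ^ D ∧
      Gw μ (FB D L h t (ρ ^ 2 / (2 * D ^ 2) / (L * t) ^ 2) (qf ρ) hqm) we β (fun _ => 2) ≤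
        prt (D := D) (l := L * (2 * h)) (t := t) μ (we (G := G)) β * e ^ (2 * h) ^ D := by
    intro h _ _ _
    obtain ⟨hZ, w1, w2⟩ := hw D L h t r hD hr1 hLr β hβ3 (ρ ^ 2 / (2 * D ^ 2) / (L * t) ^ 2) (c / 2)
      (by positivity) (by positivity) F hFc hF1 hFδ (qf ρ) hqm hqF
    have g1 := w1.trans (mul_le_mul_of_nonneg_left (pow_le_pow_left₀ (Real.exp_pos _).le
      (Real.exp_le_exp.2 (neg_le_neg hs1)) _) hZ.le)
    have g2 := w2.trans (mul_le_mul_of_nonneg_left (pow_le_pow_left₀ (Real.exp_pos _).le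
      (Real.exp_le_exp.2 (neg_le_neg (by
        refine hs2.trans (le_of_eq ?_)
        ring))) _) hZ.le)
    rw [← he] at g1 g2
    exact ⟨hZ, g1, g2⟩
  have hexu : (44 * (D : ℝ) + 4) ≤ Real.exp u := by
    have := Real.add_one_le_exp u
    rw [hv] at huv
    linarith
  have h7 := Real.exp_pos (-u)
  have h6 : Real.exp u * Real.exp (-u) = 1 := by rw [← Real.exp_add]; simp
  have h5 : e = Real.exp (-u) * Real.exp (-u) := by rw [he, ← Real.exp_add]; congr 1; ring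
  have heu : (11 * (D : ℝ) + 1) * (4 * e) ≤ Real.exp (-u) := by
    rw [h5]
    calc (11 * (D : ℝ) + 1) * (4 * (Real.exp (-u) * Real.exp (-u))) =
        (44 * D + 4) * Real.exp (-u) * Real.exp (-u) := by ring
      _ ≤ Real.exp u * Real.exp (-u) * Real.exp (-u) := by gcongr
      _ = _ := by rw [h6, one_mul]
  have hD2 : (2 : ℝ) ≤ D := by exact_mod_cast hD
  have he9 : 9 * (4 * e) ≤ 1 / 2 := by
    have h4 : Real.exp (-u) ≤ 1 / 92 := by
      rw [Real.exp_neg, inv_eq_one_div, div_le_div_iff₀ (Real.exp_pos _) (by norm_num)]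
      linarith
    have h8 : e ≤ 1 / 92 * (1 / 92) := by
      rw [h5]
      exact mul_le_mul h4 h4 h7.le (by norm_num)
    linarith
  have key := two_core (t := t) μ hD hLpos hρ0
    (fun z hz z' hz' hle => hsep z hz z' hz' (hle.trans hρd)) hqm hβ0.le he0.le he9 h12 ω hω hT x y
  refine le_trans (measureReal_mono ?_) (key.trans heu)
  intro U hU hcon
  apply hU
  obtain ⟨z, hz, h8, h9⟩ := hcon
  exact ⟨z, hz, h8.trans hρε, h9.trans hρε⟩

end

end Pool.Agent.H991.AP
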