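import Mathlib
import Pool.Agent.H991.AP.Tilt
import Pool.Agent.H991.AP.Two

/-!
# Extremal translation invariant Gibbs states
-/

open MeasureTheory Matrix Filter
open scoped Matrix.Norms.Frobenius Topology
open Pool.Agent.N899.SB
open Pool.Agent.N899.BB (we)
open Pool.Agent.Y14.Wilson
open Pool.Agent.H991.DC

namespace Pool.Agent.H991.AP

noncomputable section

variable {N : ℕ} {G : Subgroup (UU N)} [MeasurableSpace G] [BorelSpace G] [CompactSpace G]
  [SecondCountableTopology G] (μ : Measure G) [IsProbabilityMeasure μ] [μ.IsHaarMeasure]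
  {D t : ℕ} [NeZero t]

/-- the equations of the translation invariant Gibbs states -/
def Eqs (β : ℝ) (k : Fin (D + 1) ⊕ Finset (LZ D t)) (F : (LZ D t → G) → ℝ) (U : LZ D t → G) : ℝ :=
  match k with
  | Sum.inl i => F (Tv (evZ D t i) U)
  | Sum.inr Λ => spec μ β Λ F U

lemma spec_cont (β : ℝ) (Λ : Finset (LZ D t)) {F : (LZ D t → G) → ℝ} (hF : Continuous F) :
    Continuous (spec μ β Λ F) := by
  have hri : μ.IsMulRightInvariant := Pool.Agent.N899.BB.Gauss.right_inv μ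
  have hw : Continuous fun U : LZ D t → G => -(β * eng Λ U) := (continuous_const.mul (eng_cont Λ)).neg
  have hA : Continuous (AF μ Λ (fun U => -(β * eng Λ U)) F) := AF_cont μ Λ hw hF
  have hB : Continuous (AF μ Λ (fun U => -(β * eng Λ U)) fun _ => 1) :=
    AF_cont μ Λ hw continuous_const
  have hBpos : ∀ U : LZ D t → G, 0 < AF μ Λ (fun U => -(β * eng Λ U)) (fun _ => 1) U := by
    intro U
    unfold AF
    simp only [one_mul]
    refine integral_exp_pos ?_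
    have h1 : Continuous fun V : Λ → G => Real.exp (-(β * eng Λ (gl Λ V U))) :=
      Real.continuous_exp.comp (hw.comp ((gl_cont Λ).comp (Continuous.prodMk_left U)))
    obtain ⟨C, -, hC⟩ := bound_of_compact h1
    exact bd_int _ h1.measurable hC
  have h2 := hA.div hB fun U => (hBpos U).ne'
  refine h2.congr fun U => ?_
  unfold spec AF
  simp only [one_mul, Pi.div_apply]

lemma Eqs_cont (β : ℝ) (k : Fin (D + 1) ⊕ Finset (LZ D t)) (F : (LZ D t → G) → ℝ)
    (hF : Continuous F) : Continuous (Eqs μ β k F) := by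
  cases k with
  | inl i => exact hF.comp (Tv_cont _)
  | inr Λ => exact spec_cont μ β Λ hF

lemma Sol_iff (β : ℝ) (ω : Measure (LZ D t → G)) :
    Sol (Eqs μ β) ω ↔ IsProbabilityMeasure ω ∧ IsG μ β ω ∧ IsT ω := by
  constructor
  · rintro ⟨h1, h2⟩
    refine ⟨h1, fun Λ F hF => h2 (Sum.inr Λ) F hF, fun i => ?_⟩
    have hTm : Measurable (Tv (evZ D t i) : (LZ D t → G) → (LZ D t → G)) := (Tv_cont _).measurable
    have hpm : IsProbabilityMeasure (ω.map (Tv (evZ D t i))) :=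
      Measure.isProbabilityMeasure_map hTm.aemeasurable
    refine ext_of_forall_integral_eq_of_IsFiniteMeasure fun f => ?_
    rw [integral_map hTm.aemeasurable f.continuous.measurable.aestronglyMeasurable]
    exact h2 (Sum.inl i) f f.continuous
  · rintro ⟨h1, h2, h3⟩
    refine ⟨h1, fun k F hF => ?_⟩
    cases k with
    | inl i =>
      have h4 := integral_map (μ := ω) (Tv_cont (G := G) (d := D + 1) (evZ D t i)).measurable.aemeasurable
        (f := F) hF.measurable.aestronglyMeasurable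
      rw [h3 i] at h4
      exact h4.symm
    | inr Λ => exact h2 Λ F hF

/-- the sites of a box -/
def Qb (D : ℕ) (a b : ℤ) : Finset (Fin D → ℤ) := Fintype.piFinset fun _ => Finset.Ico a b

lemma mem_Qb (a b : ℤ) (x : Fin D → ℤ) : x ∈ Qb D a b ↔ ∀ j, a ≤ x j ∧ x j < b := by
  unfold Qb
  rw [Fintype.mem_piFinset]
  simp only [Finset.mem_Ico]

lemma card_Qb (a b : ℤ) : (Qb D a b).card = (b - a).toNat ^ D := by
  unfold Qb
  rw [Fintype.card_piFinset]
  simp only [Int.card_Ico, Finset.prod_const, Finset.card_univ, Fintype.card_fin]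

/-- the average of the source over a box -/
def avg (D : ℕ) {t : ℕ} (ε : ℝ) (z : G) (p : ℝ) (n : ℕ) (U : LZ D t → G) : ℝ :=
  (p * ((n + 1 : ℕ) : ℝ) ^ D)⁻¹ * ∑ x ∈ Qb D 0 ((n + 1 : ℕ) : ℤ), fz ε z (PolZ U x)

lemma fzP_cont (ε : ℝ) (z : G) (x : Fin D → ℤ) :
    Continuous fun U : LZ D t → G => fz ε z (PolZ U x) := (fz_cont ε z).comp (PolZ_cont x)

lemma avg_cont (ε : ℝ) (z : G) (p : ℝ) (n : ℕ) : Continuous (avg D ε z p n : (LZ D t → G) → ℝ) := by
  unfold avg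
  exact continuous_const.mul (continuous_finsetSum _ fun x _ => fzP_cont ε z x)

lemma avg_bd (ε : ℝ) (z : G) {p : ℝ} (hp : 0 < p) (n : ℕ) (U : LZ D t → G) :
    0 ≤ avg D ε z p n U ∧ avg D ε z p n U ≤ p⁻¹ := by
  have h1 : (0 : ℝ) < ((n + 1 : ℕ) : ℝ) ^ D := by positivity
  unfold avg
  constructor
  · exact mul_nonneg (by positivity) (Finset.sum_nonneg fun x _ => fz_nonneg _ _ _)
  · have h2 : ∑ x ∈ Qb D 0 ((n + 1 : ℕ) : ℤ), fz ε z (PolZ U x) ≤ ((n + 1 : ℕ) : ℝ) ^ D := by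
      calc ∑ x ∈ Qb D 0 ((n + 1 : ℕ) : ℤ), fz ε z (PolZ U x) ≤
            ∑ _x ∈ Qb D 0 ((n + 1 : ℕ) : ℤ), (1 : ℝ) := Finset.sum_le_sum fun x _ => fz_le _ _ _
        _ = _ := by
            rw [Finset.sum_const, nsmul_eq_mul, mul_one, card_Qb]
            have : (((n + 1 : ℕ) : ℤ) - 0).toNat = n + 1 := by omega
            rw [this]
            push_cast
            rfl
    calc _ ≤ (p * ((n + 1 : ℕ) : ℝ) ^ D)⁻¹ * ((n + 1 : ℕ) : ℝ) ^ D :=
          mul_le_mul_of_nonneg_left h2 (by positivity)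
      _ = p⁻¹ := by field_simp

lemma fz_inv {ω : Measure (LZ D t → G)} (hT : IsT ω) (ε : ℝ) (z : G) (x : Fin D → ℤ) :
    ∫ U, fz ε z (PolZ U x) ∂ω = ∫ U, fz ε z (PolZ U 0) ∂ω := by
  have h1 := integral_map (μ := ω) (Tv_cont (G := G) (d := D + 1) ((x, 0) : SZ D t)).measurable.aemeasurable
    (f := fun U => fz ε z (PolZ U 0)) (fzP_cont ε z 0).measurable.aestronglyMeasurable
  rw [inv_all hT] at h1
  rw [h1]
  refine integral_congr_ae (Eventually.of_forall fun U => ?_)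
  simp only
  rw [PolZ_Tv, zero_add]

lemma avg_int {ω : Measure (LZ D t → G)} [IsProbabilityMeasure ω] (hT : IsT ω) (ε : ℝ) (z : G)
    {p : ℝ} (hp : 0 < p) (hpz : p = ∫ U, fz ε z (PolZ U 0) ∂ω) (n : ℕ) :
    ∫ U, avg D ε z p n U ∂ω = 1 := by
  unfold avg
  rw [integral_const_mul, integral_finsetSum _ fun x _ => cont_int (fzP_cont ε z x) ω,
    Finset.sum_congr rfl fun x _ => fz_inv hT ε z x, ← hpz, Finset.sum_const, card_Qb, nsmul_eq_mul]
  have : (((n + 1 : ℕ) : ℤ) - 0).toNat = n + 1 := by omega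
  rw [this]
  push_cast
  have h1 : (0 : ℝ) < ((n : ℝ) + 1) ^ D := by positivity
  field_simp

lemma PolZ_Tt (U : LZ D t → G) (x : Fin D → ℤ) :
    PolZ (Tv ((0, 1) : SZ D t) U) x =
      (U ((x, 0), Fin.last D))⁻¹ * PolZ U x * U ((x, 0), Fin.last D) := by
  obtain ⟨p, hp⟩ : ∃ p : ℕ → G, p = fun τ : ℕ => U ((x, (τ : ZMod t)), Fin.last D) := ⟨_, rfl⟩
  have h := prod_tel (fun τ => (p τ)⁻¹) p t
  have e1 : PolZ (Tv ((0, 1) : SZ D t) U) x =
      ((List.range t).map fun τ => (p τ)⁻¹ * p τ * ((fun τ => (p τ)⁻¹) (τ + 1))⁻¹).prod := by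
    unfold PolZ
    refine congrArg List.prod (List.map_congr_left fun τ _ => ?_)
    rw [hp]
    unfold Tv
    simp
  have e2 : PolZ U x = ((List.range t).map p).prod := by rw [hp]; rfl
  have e3 : p t = p 0 := by rw [hp]; simp
  have e4 : U ((x, 0), Fin.last D) = p 0 := by rw [hp]; simp
  rw [e1, h, e2, e4]
  simp only [e3, inv_inv]

/-- the error terms tend to zero -/
lemma bdry_lim (D : ℕ) : Tendsto (fun n : ℕ =>
    ((((n + 1 : ℕ) : ℝ) + 1) ^ D - (((n + 1 : ℕ) : ℝ) - 1) ^ D) / ((n + 1 : ℕ) : ℝ) ^ D) atTop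
    (𝓝 0) := by
  have h0 : Tendsto (fun n : ℕ => 1 / ((n + 1 : ℕ) : ℝ)) atTop (𝓝 0) := by
    have := tendsto_one_div_add_atTop_nhds_zero_nat (𝕜 := ℝ)
    simpa using this
  have h1 : ∀ c : ℝ, Tendsto (fun n : ℕ => ((((n + 1 : ℕ) : ℝ) + c) / ((n + 1 : ℕ) : ℝ)) ^ D) atTop
      (𝓝 1) := by
    intro c
    have h2 := ((h0.const_mul c).const_add 1).pow D
    rw [mul_zero, add_zero, one_pow] at h2
    refine h2.congr fun n => ?_
    have h3 : (0 : ℝ) < ((n + 1 : ℕ) : ℝ) := by positivity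
    congr 1
    field_simp
  have h4 := (h1 1).sub (h1 (-1))
  rw [sub_self] at h4
  refine h4.congr fun n => ?_
  rw [div_pow, div_pow]
  ring

lemma avg_shift (ε : ℝ) {z : G} (hz : z ∈ Subgroup.center G) {p : ℝ} (hp : 0 < p) (n : ℕ)
    (i : Fin (D + 1)) (U : LZ D t → G) :
    |avg D ε z p n U - avg D ε z p n (Tv (evZ D t i) U)| ≤ p⁻¹ *
      (((((n + 1 : ℕ) : ℝ) + 1) ^ D - (((n + 1 : ℕ) : ℝ) - 1) ^ D) / ((n + 1 : ℕ) : ℝ) ^ D) := by
  classical
  have hn1 : (1 : ℝ) ≤ ((n + 1 : ℕ) : ℝ) := by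
    push_cast
    have : (0 : ℝ) ≤ n := Nat.cast_nonneg _
    linarith
  have hpos : (0 : ℝ) < ((n + 1 : ℕ) : ℝ) ^ D := by positivity
  have hdiff : (0 : ℝ) ≤ (((n + 1 : ℕ) : ℝ) + 1) ^ D - (((n + 1 : ℕ) : ℝ) - 1) ^ D := by
    have := pow_le_pow_left₀ (by linarith : (0 : ℝ) ≤ ((n + 1 : ℕ) : ℝ) - 1)
      (by linarith : ((n + 1 : ℕ) : ℝ) - 1 ≤ ((n + 1 : ℕ) : ℝ) + 1) D
    linarith
  refine Fin.lastCases ?_ (fun i => ?_) i
  · have h1 : avg D ε z p n (Tv (evZ D t (Fin.last D)) U) = avg D ε z p n U := by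
      unfold avg
      refine congrArg ((p * ((n + 1 : ℕ) : ℝ) ^ D)⁻¹ * ·) (Finset.sum_congr rfl fun x _ => ?_)
      rw [evZ_last, PolZ_Tt]
      have := fz_cj ε hz (U ((x, 0), Fin.last D))⁻¹ (PolZ U x)
      rw [inv_inv] at this
      exact this
    rw [h1, sub_self, abs_zero]
    positivity
  · obtain ⟨m, hm⟩ : ∃ m : ℤ, m = ((n + 1 : ℕ) : ℤ) := ⟨_, rfl⟩
    obtain ⟨g, hg⟩ : ∃ g : (Fin D → ℤ) → ℝ, g = fun x => fz ε z (PolZ U x) := ⟨_, rfl⟩
    have hg0 : ∀ x, 0 ≤ g x := fun x => by rw [hg]; exact fz_nonneg _ _ _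
    have hg1 : ∀ x, g x ≤ 1 := fun x => by rw [hg]; exact fz_le _ _ _
    obtain ⟨Q', hQ'⟩ : ∃ Q' : Finset (Fin D → ℤ),
      Q' = (Qb D 0 m).map (Equiv.addRight (Pi.single i (1 : ℤ))).toEmbedding := ⟨_, rfl⟩
    have e1 : avg D ε z p n U = (p * ((n + 1 : ℕ) : ℝ) ^ D)⁻¹ * ∑ x ∈ Qb D 0 m, g x := by
      rw [hg, hm]
      rfl
    have e2 : avg D ε z p n (Tv (evZ D t i.castSucc) U) =
        (p * ((n + 1 : ℕ) : ℝ) ^ D)⁻¹ * ∑ x ∈ Q', g x := by
      unfold avg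
      rw [hQ', Finset.sum_map, hm]
      refine congrArg ((p * ((n + 1 : ℕ) : ℝ) ^ D)⁻¹ * ·) (Finset.sum_congr rfl fun x _ => ?_)
      rw [evZ_cast, PolZ_Tv, hg]
      rfl
    have k0 : ∀ S : Finset (Fin D → ℤ), Qb D 1 m ⊆ S → S ⊆ Qb D 0 (m + 1) →
        ∑ x ∈ Qb D 1 m, g x ≤ ∑ x ∈ S, g x ∧ ∑ x ∈ S, g x ≤ ∑ x ∈ Qb D 0 (m + 1), g x :=
      fun S h1 h2 => ⟨Finset.sum_le_sum_of_subset_of_nonneg h1 fun x _ _ => hg0 x,
        Finset.sum_le_sum_of_subset_of_nonneg h2 fun x _ _ => hg0 x⟩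
    have k1 := k0 (Qb D 0 m) (fun x hx => by
      rw [mem_Qb] at hx ⊢
      intro j
      have := hx j
      omega) (fun x hx => by
      rw [mem_Qb] at hx ⊢
      intro j
      have := hx j
      omega)
    have k2 := k0 Q' (fun x hx => by
      rw [hQ', Finset.mem_map]
      refine ⟨x - Pi.single i 1, ?_, by simp⟩
      rw [mem_Qb] at hx ⊢
      intro j
      have := hx j
      by_cases hj : j = i
      · subst hj
        simp only [Pi.sub_apply, Pi.single_eq_same]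
        omega
      · simp only [Pi.sub_apply, Pi.single_eq_of_ne hj]
        omega) (fun x hx => by
      rw [hQ', Finset.mem_map] at hx
      obtain ⟨y, hy, rfl⟩ := hx
      rw [mem_Qb] at hy ⊢
      intro j
      have := hy j
      change 0 ≤ (y + Pi.single i 1 : Fin D → ℤ) j ∧ (y + Pi.single i 1 : Fin D → ℤ) j < m + 1
      by_cases hj : j = i
      · subst hj
        simp only [Pi.add_apply, Pi.single_eq_same]
        omega
      · simp only [Pi.add_apply, Pi.single_eq_of_ne hj]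
        omega)
    have k3 : ∑ x ∈ Qb D 0 (m + 1), g x - ∑ x ∈ Qb D 1 m, g x ≤
        (((n + 1 : ℕ) : ℝ) + 1) ^ D - (((n + 1 : ℕ) : ℝ) - 1) ^ D := by
      have hsub : Qb D 1 m ⊆ Qb D 0 (m + 1) := fun x hx => by
        rw [mem_Qb] at hx ⊢
        intro j
        have := hx j
        omega
      rw [← Finset.sum_sdiff hsub, add_sub_cancel_right]
      calc ∑ x ∈ Qb D 0 (m + 1) \ Qb D 1 m, g x ≤ ∑ _x ∈ Qb D 0 (m + 1) \ Qb D 1 m, (1 : ℝ) :=
            Finset.sum_le_sum fun x _ => hg1 x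
        _ = ((Qb D 0 (m + 1) \ Qb D 1 m).card : ℝ) := by
            rw [Finset.sum_const, nsmul_eq_mul, mul_one]
        _ = _ := by
            rw [Finset.cast_card_sdiff hsub, card_Qb, card_Qb]
            have h1 : (m + 1 - 0).toNat = n + 1 + 1 := by omega
            have h2 : (m - 1).toNat = n := by omega
            rw [h1, h2]
            push_cast
            ring
    rw [e1, e2, ← mul_sub, abs_mul, abs_of_nonneg (by positivity : (0 : ℝ) ≤
      (p * ((n + 1 : ℕ) : ℝ) ^ D)⁻¹)]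
    have k4 : |∑ x ∈ Qb D 0 m, g x - ∑ x ∈ Q', g x| ≤
        (((n + 1 : ℕ) : ℝ) + 1) ^ D - (((n + 1 : ℕ) : ℝ) - 1) ^ D := by
      rw [abs_le]
      constructor <;> linarith [k1.1, k1.2, k2.1, k2.2]
    calc _ ≤ (p * ((n + 1 : ℕ) : ℝ) ^ D)⁻¹ *
          ((((n + 1 : ℕ) : ℝ) + 1) ^ D - (((n + 1 : ℕ) : ℝ) - 1) ^ D) :=
          mul_le_mul_of_nonneg_left k4 (by positivity)
      _ = _ := by field_simp

end

end Pool.Agent.H991.AP
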