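import Mathlib
import Pool.Agent.H991.AP.Ext

/-!
# The averages are asymptotically invariant
-/

open MeasureTheory Matrix Filter
open scoped Matrix.Norms.Frobenius Topology
open Pool.Agent.N899.SB
open Pool.Agent.N899.BB (we)
open Pool.Agent.Y14.Wilson
open Pool.Agent.H991.DC

namespace Pool.Agent.H991.AP

noncomputable section

variable {N : ℕ} {G : Subgroup (UU N)} [MeasurableSpace G] [BorelSpace G] [CompactSpace G]
  [SecondCountableTopology G] (μ : Measure G) [IsProbabilityMeasure μ] [μ.IsHaarMeasure]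
  {D t : ℕ} [NeZero t]

omit [MeasurableSpace G] [BorelSpace G] [CompactSpace G] [SecondCountableTopology G] [NeZero t] in
lemma PolZ_gl (Λ : Finset (LZ D t)) (V : Λ → G) (U : LZ D t → G) (x : Fin D → ℤ)
    (hx : ∀ e ∈ Λ, e.1.1 ≠ x) : PolZ (gl Λ V U) x = PolZ U x := by
  unfold PolZ
  refine congrArg List.prod (List.map_congr_left fun τ _ => ?_)
  unfold gl
  rw [dif_neg]
  intro h
  exact hx _ h rfl

lemma hinvT {ω : Measure (LZ D t → G)} [IsProbabilityMeasure ω] (hT : IsT ω) (ε : ℝ) {z : G}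
    (hz : z ∈ Subgroup.center G) (i : Fin (D + 1)) {F : (LZ D t → G) → ℝ} (hF : Continuous F) :
    Tendsto (fun n => ∫ U, F (Tv (evZ D t i) U) * avg D ε z 1 n U ∂ω -
      ∫ U, F U * avg D ε z 1 n U ∂ω) atTop (𝓝 0) := by
  obtain ⟨C, hC0, hC⟩ := cont_bd hF
  have hTc : Continuous (Tv (evZ D t i) : (LZ D t → G) → (LZ D t → G)) := Tv_cont _
  have hlim := (bdry_lim D).const_mul (C * (1 : ℝ)⁻¹)
  rw [mul_zero] at hlim
  refine squeeze_zero_norm (fun n => ?_) hlim
  have ha := avg_cont (D := D) (t := t) ε z 1 n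
  have h1 : ∫ U, F U * avg D ε z 1 n U ∂ω =
      ∫ U, F (Tv (evZ D t i) U) * avg D ε z 1 n (Tv (evZ D t i) U) ∂ω := by
    have h2 := integral_map (μ := ω) hTc.measurable.aemeasurable
      (f := fun U => F U * avg D ε z 1 n U) (hF.mul ha).measurable.aestronglyMeasurable
    rw [hT i] at h2
    exact h2
  have i1 : Integrable (fun U => F (Tv (evZ D t i) U) * avg D ε z 1 n U) ω :=
    cont_int ((hF.comp hTc).mul ha) ω
  have i2 : Integrable (fun U => F (Tv (evZ D t i) U) * avg D ε z 1 n (Tv (evZ D t i) U)) ω :=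
    cont_int ((hF.comp hTc).mul (ha.comp hTc)) ω
  rw [h1, ← integral_sub i1 i2]
  refine (norm_integral_le_of_norm_le_const (C := C * (1 : ℝ)⁻¹ *
    (((((n + 1 : ℕ) : ℝ) + 1) ^ D - (((n + 1 : ℕ) : ℝ) - 1) ^ D) / ((n + 1 : ℕ) : ℝ) ^ D))
    (Eventually.of_forall fun U => ?_)).trans (le_of_eq (by simp))
  rw [Real.norm_eq_abs, ← mul_sub, abs_mul, mul_assoc]
  exact mul_le_mul (hC _) (avg_shift ε hz one_pos n i U) (abs_nonneg _) hC0

lemma hinvL {β : ℝ} {ω : Measure (LZ D t → G)} [IsProbabilityMeasure ω] (hω : IsG μ β ω)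
    (hD : D ≠ 0) (ε : ℝ) (z : G) (Λ : Finset (LZ D t)) {F : (LZ D t → G) → ℝ} (hF : Continuous F) :
    Tendsto (fun n => ∫ U, spec μ β Λ F U * avg D ε z 1 n U ∂ω -
      ∫ U, F U * avg D ε z 1 n U ∂ω) atTop (𝓝 0) := by
  classical
  obtain ⟨C, hC0, hC⟩ := cont_bd hF
  have hsF := spec_cont μ β Λ hF
  obtain ⟨C', hC'0, hC'⟩ := cont_bd hsF
  obtain ⟨X, hX⟩ : ∃ X : Finset (Fin D → ℤ), X = Λ.image fun e => e.1.1 := ⟨_, rfl⟩
  have hlim : Tendsto (fun n : ℕ => (C' + C) * X.card * (1 / ((n : ℝ) + 1))) atTop (𝓝 0) := by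
    have := (tendsto_one_div_add_atTop_nhds_zero_nat (𝕜 := ℝ)).const_mul ((C' + C) * X.card)
    rwa [mul_zero] at this
  refine squeeze_zero_norm (fun n => ?_) hlim
  obtain ⟨c, hc⟩ : ∃ c : ℝ, c = (1 * ((n + 1 : ℕ) : ℝ) ^ D)⁻¹ := ⟨_, rfl⟩
  have hc0 : 0 ≤ c := by rw [hc]; positivity
  have hcn : c ≤ 1 / ((n : ℝ) + 1) := by
    rw [hc, one_mul, one_div]
    refine inv_anti₀ (by positivity) ?_
    push_cast
    exact le_self_pow₀ (by have : (0 : ℝ) ≤ n := Nat.cast_nonneg _; linarith) hD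
  obtain ⟨a', ha'⟩ : ∃ a' : (LZ D t → G) → ℝ, a' = fun U => c *
    ∑ x ∈ Qb D 0 ((n + 1 : ℕ) : ℤ) \ X, fz ε z (PolZ U x) := ⟨_, rfl⟩
  have ha'c : Continuous a' := by
    rw [ha']
    exact continuous_const.mul (continuous_finsetSum _ fun x _ => fzP_cont ε z x)
  have ha := avg_cont (D := D) (t := t) ε z 1 n
  have hdiff : ∀ U, |avg D ε z 1 n U - a' U| ≤ c * X.card := by
    intro U
    rw [ha']
    unfold avg
    rw [← hc]
    simp only
    rw [← mul_sub, abs_mul, abs_of_nonneg hc0]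
    refine mul_le_mul_of_nonneg_left ?_ hc0
    rw [← Finset.sum_inter_add_sum_sdiff (Qb D 0 ((n + 1 : ℕ) : ℤ)) X, add_sub_cancel_right,
      abs_of_nonneg (Finset.sum_nonneg fun x _ => fz_nonneg _ _ _)]
    calc ∑ x ∈ Qb D 0 ((n + 1 : ℕ) : ℤ) ∩ X, fz ε z (PolZ U x) ≤
        ∑ _x ∈ Qb D 0 ((n + 1 : ℕ) : ℤ) ∩ X, (1 : ℝ) := Finset.sum_le_sum fun x _ => fz_le _ _ _
      _ = ((Qb D 0 ((n + 1 : ℕ) : ℤ) ∩ X).card : ℝ) := by
          rw [Finset.sum_const, nsmul_eq_mul, mul_one]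
      _ ≤ X.card := by exact_mod_cast Finset.card_le_card Finset.inter_subset_right
  have hmid : ∫ U, spec μ β Λ F U * a' U ∂ω = ∫ U, F U * a' U ∂ω := by
    have h0 := hω Λ (fun U => F U * a' U) (hF.mul ha'c)
    rw [← h0]
    refine integral_congr_ae (Eventually.of_forall fun U => ?_)
    simp only
    have hgl : ∀ V : Λ → G, a' (gl Λ V U) = a' U := by
      intro V
      rw [ha']
      simp only
      refine congrArg (c * ·) (Finset.sum_congr rfl fun x hx => ?_)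
      rw [PolZ_gl]
      intro e he hex
      refine (Finset.mem_sdiff.1 hx).2 ?_
      rw [hX, Finset.mem_image]
      exact ⟨e, he, hex⟩
    unfold spec
    simp only [hgl]
    rw [div_mul_eq_mul_div, ← integral_mul_const]
    refine congrArg (· / _) (integral_congr_ae (Eventually.of_forall fun V => ?_))
    simp only
    ring
  have e1 : ∫ U, spec μ β Λ F U * avg D ε z 1 n U ∂ω - ∫ U, F U * avg D ε z 1 n U ∂ω =
      ∫ U, (spec μ β Λ F U - F U) * (avg D ε z 1 n U - a' U) ∂ω := by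
    have i1 : Integrable (fun U => spec μ β Λ F U * avg D ε z 1 n U) ω :=
      cont_int (hsF.mul ha) ω
    have i2 : Integrable (fun U => F U * avg D ε z 1 n U) ω := cont_int (hF.mul ha) ω
    have i3 : Integrable (fun U => spec μ β Λ F U * a' U) ω := cont_int (hsF.mul ha'c) ω
    have i4 : Integrable (fun U => F U * a' U) ω := cont_int (hF.mul ha'c) ω
    have e2 : ∫ U, (spec μ β Λ F U - F U) * (avg D ε z 1 n U - a' U) ∂ω =
        (∫ U, spec μ β Λ F U * avg D ε z 1 n U ∂ω - ∫ U, F U * avg D ε z 1 n U ∂ω) -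
        (∫ U, spec μ β Λ F U * a' U ∂ω - ∫ U, F U * a' U ∂ω) := by
      have i5 : Integrable (fun U => spec μ β Λ F U * avg D ε z 1 n U - F U * avg D ε z 1 n U) ω :=
        i1.sub i2
      have i6 : Integrable (fun U => spec μ β Λ F U * a' U - F U * a' U) ω := i3.sub i4
      rw [← integral_sub i1 i2, ← integral_sub i3 i4, ← integral_sub i5 i6]
      refine integral_congr_ae (Eventually.of_forall fun U => ?_)
      simp only
      ring
    rw [e2, hmid, sub_self, sub_zero]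
  rw [e1]
  refine (norm_integral_le_of_norm_le_const (C := (C' + C) * X.card * (1 / ((n : ℝ) + 1)))
    (Eventually.of_forall fun U => ?_)).trans (le_of_eq (by simp))
  rw [Real.norm_eq_abs, abs_mul]
  have h1 : |spec μ β Λ F U - F U| ≤ C' + C := (abs_sub _ _).trans (add_le_add (hC' U) (hC U))
  calc |spec μ β Λ F U - F U| * |avg D ε z 1 n U - a' U| ≤ (C' + C) * (c * X.card) :=
        mul_le_mul h1 (hdiff U) (abs_nonneg _) (by linarith)
    _ ≤ (C' + C) * (1 / ((n : ℝ) + 1) * X.card) := by gcongr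
    _ = _ := by ring

lemma hinvA {β : ℝ} {ω : Measure (LZ D t → G)} (hω : Sol (Eqs μ β) ω) (hD : D ≠ 0) (ε : ℝ) {z : G}
    (hz : z ∈ Subgroup.center G) (k : Fin (D + 1) ⊕ Finset (LZ D t)) {F : (LZ D t → G) → ℝ}
    (hF : Continuous F) :
    Tendsto (fun n => ∫ U, Eqs μ β k F U * avg D ε z 1 n U ∂ω -
      ∫ U, F U * avg D ε z 1 n U ∂ω) atTop (𝓝 0) := by
  obtain ⟨h1, h2, h3⟩ := (Sol_iff μ β ω).1 hω
  cases k with
  | inl i => exact hinvT h3 ε hz i hF
  | inr Λ => exact hinvL μ h2 hD ε z Λ hF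

end

end Pool.Agent.H991.AP
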