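import Mathlib
import Pool.Agent.H991.AP.Ext2
import Pool.Agent.H991.AP.Dec2
import Pool.Agent.H991.AP.Exm

/-!
# The estimates for the decomposition into the phases
-/

open MeasureTheory Matrix Filter
open scoped Matrix.Norms.Frobenius Topology
open Pool.Agent.N899.SB
open Pool.Agent.N899.BB (we)
open Pool.Agent.Y14.Wilson
open Pool.Agent.H991.DC

namespace Pool.Agent.H991.AP

noncomputable section

variable {N : ℕ} {G : Subgroup (UU N)} [MeasurableSpace G] [BorelSpace G] [CompactSpace G]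
  [SecondCountableTopology G] (μ : Measure G) [IsProbabilityMeasure μ] [μ.IsHaarMeasure]
  {D t : ℕ} [NeZero t]

/-- each loop is near `z` -/
def Ord (ε η : ℝ) (z : G) (ω : Measure (LZ D t → G)) : Prop :=
  ∀ x : Fin D → ℤ, 1 - η ≤ ω.real {U | ‖mt (PolZ U x) - mt z‖ ≤ ε}

omit [MeasurableSpace G] [BorelSpace G] [CompactSpace G] [SecondCountableTopology G] [NeZero t] in
lemma nrm_cont (x : Fin D → ℤ) (z : G) :
    Continuous fun U : LZ D t → G => ‖mt (PolZ U x) - mt z‖ := by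
  have h1 : Continuous (fun g : G => ‖mt g - mt z‖) :=
    ((continuous_subtype_val.comp continuous_subtype_val : Continuous (mt : G → Mt N)).sub
      continuous_const).norm
  exact h1.comp (PolZ_cont x)

omit [CompactSpace G] in
lemma Cl_meas [Finite (Subgroup.center G)] (ε : ℝ) (x y : Fin D → ℤ) :
    MeasurableSet {U : LZ D t → G | Cl ε x y U} := by
  have h : {U : LZ D t → G | Cl ε x y U} = ⋃ z : Subgroup.center G,
      ({U | ‖mt (PolZ U x) - mt (z : G)‖ ≤ ε} ∩ {U | ‖mt (PolZ U y) - mt (z : G)‖ ≤ ε}) := by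
    ext U
    simp only [Set.mem_iUnion, Set.mem_inter_iff, Set.mem_ofPred_eq]
    constructor
    · rintro ⟨z, hz, h⟩
      exact ⟨⟨z, hz⟩, h⟩
    · rintro ⟨z, h⟩
      exact ⟨z, z.2, h⟩
  rw [h]
  exact MeasurableSet.iUnion fun z =>
    (measurableSet_le (nrm_cont x _).measurable measurable_const).inter
      (measurableSet_le (nrm_cont y _).measurable measurable_const)

lemma avg_int1 {ω : Measure (LZ D t → G)} [IsProbabilityMeasure ω] (hT : IsT ω) (ε : ℝ) (z : G)
    (n : ℕ) : ∫ U, avg D ε z 1 n U ∂ω = ∫ U, fz ε z (PolZ U 0) ∂ω := by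
  unfold avg
  rw [integral_const_mul, integral_finsetSum _ fun x _ => cont_int (fzP_cont ε z x) ω,
    Finset.sum_congr rfl fun x _ => fz_inv hT ε z x, Finset.sum_const, card_Qb, nsmul_eq_mul]
  have : (((n + 1 : ℕ) : ℤ) - 0).toNat = n + 1 := by omega
  rw [this]
  push_cast
  have h1 : (0 : ℝ) < ((n : ℝ) + 1) ^ D := by positivity
  field_simp

omit [MeasurableSpace G] [BorelSpace G] [CompactSpace G] [SecondCountableTopology G] in
lemma fz_sum_le [Fintype (Subgroup.center G)] {ε : ℝ} (hε : 0 < ε)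
    (hd : ∀ z ∈ Subgroup.center G, ∀ z' ∈ Subgroup.center G, ‖mt z - mt z'‖ ≤ 4 * ε → z = z')
    (g : G) : ∑ z : Subgroup.center G, fz ε (z : G) g ≤ 1 := by
  have hnear : ∀ z : G, fz ε z g ≠ 0 → ‖mt g - mt z‖ ≤ 2 * ε := by
    intro z hz
    by_contra hcon
    exact hz (fz_zero hε (not_le.1 hcon).le)
  by_cases h : ∃ z : Subgroup.center G, fz ε (z : G) g ≠ 0
  · obtain ⟨z, hz⟩ := h
    rw [Finset.sum_eq_single z]
    · exact fz_le _ _ _
    · intro z' _ hne
      by_contra hz'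
      apply hne
      have h1 := hnear _ hz
      have h2 := hnear _ hz'
      refine Subtype.ext (hd z' z'.2 z z.2 ?_)
      calc ‖mt (z' : G) - mt (z : G)‖ ≤ ‖mt (z' : G) - mt g‖ + ‖mt g - mt (z : G)‖ :=
            norm_sub_le_norm_sub_add_norm_sub _ _ _
        _ ≤ 4 * ε := by rw [norm_sub_rev (mt (z' : G)) (mt g)]; linarith
    · simp
  · push Not at h
    rw [Finset.sum_eq_zero fun z _ => h z]
    exact zero_le_one

omit [MeasurableSpace G] [BorelSpace G] [CompactSpace G] [SecondCountableTopology G] [NeZero t] in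
lemma fz_cor {ε : ℝ} (hε : 0 < ε)
    (hd : ∀ z ∈ Subgroup.center G, ∀ z' ∈ Subgroup.center G, ‖mt z - mt z'‖ ≤ 4 * ε → z = z')
    {z : G} (hz : z ∈ Subgroup.center G) (x : Fin D → ℤ) (U : LZ D t → G) :
    (1 - fz ε z (PolZ U 0)) * fz ε z (PolZ U x) ≤ Set.indicator {U | ¬ Cl ε x 0 U} 1 U := by
  by_cases hU : Cl ε x 0 U
  · rw [Set.indicator_of_notMem (by simpa using hU)]
    obtain ⟨w, hw, h1, h2⟩ := hU
    by_cases h3 : fz ε z (PolZ U x) = 0
    · rw [h3, mul_zero]
    · have h4 : ‖mt (PolZ U x) - mt z‖ ≤ 2 * ε := by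
        by_contra hcon
        exact h3 (fz_zero hε (not_le.1 hcon).le)
      have h5 : z = w := by
        refine hd z hz w hw ?_
        calc ‖mt z - mt w‖ ≤ ‖mt z - mt (PolZ U x)‖ + ‖mt (PolZ U x) - mt w‖ :=
              norm_sub_le_norm_sub_add_norm_sub _ _ _
          _ ≤ 4 * ε := by rw [norm_sub_rev]; linarith
      rw [h5, fz_one hε h2, sub_self, zero_mul]
  · rw [Set.indicator_of_mem (by simpa using hU), Pi.one_apply]
    have h1 := fz_nonneg ε z (PolZ U 0)
    have h2 := fz_le ε z (PolZ U 0)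
    have h3 := fz_nonneg ε z (PolZ U x)
    have h4 := fz_le ε z (PolZ U x)
    nlinarith

/-- the step of the decomposition for the Gibbs states -/
theorem gib_step [Fintype (Subgroup.center G)] {β : ℝ} (hD : D ≠ 0) {ε η δ : ℝ} (hε : 0 < ε)
    (hη : 0 ≤ η) (hδ : 0 < δ)
    (hd : ∀ z ∈ Subgroup.center G, ∀ z' ∈ Subgroup.center G, ‖mt z - mt z'‖ ≤ 4 * ε → z = z')
    (hsmall : η + Fintype.card (Subgroup.center G) * (η / δ) ≤ 1 / 2)
    (h2 : ∀ ω : Measure (LZ D t → G), Sol (Eqs μ β) ω → ∀ x y : Fin D → ℤ,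
      ω.real {U | ¬ Cl ε x y U} ≤ η) (ω : Measure (LZ D t → G)) (hω : Sol (Eqs μ β) ω) :
    ∃ (m : Subgroup.center G → Measure (LZ D t → G)) (r : Measure (LZ D t → G)),
      (∀ z : Subgroup.center G, Cph (Eqs μ β) (fun U => fz ε (z : G) (PolZ U 0)) δ (m z)) ∧
      Con (Eqs μ β) r ∧ r.real Set.univ ≤ 1 / 2 ∧ ω = ∑ z, m z + r := by
  obtain ⟨i1, -, hT⟩ := (Sol_iff μ β ω).1 hω
  have hcm : ∀ x y : Fin D → ℤ, MeasurableSet {U : LZ D t → G | ¬ Cl ε x y U} :=
    fun x y => (Cl_meas ε x y).compl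
  refine dec_step (Z := Subgroup.center G) (Eqs_cont μ β) hω
    (fun (z : Subgroup.center G) U => fz ε (z : G) (PolZ U 0)) (fun z => fzP_cont ε _ 0)
    (fun (z : Subgroup.center G) n => avg D ε (z : G) 1 n) (fun z n => avg_cont ε _ 1 n)
    (fun z n x => (avg_bd ε _ one_pos n x).1) (fun n U => ?_)
    (fun z : Subgroup.center G => ∫ U, fz ε (z : G) (PolZ U 0) ∂ω) (fun z n => avg_int1 hT ε _ n)
    (fun z k F hF => hinvA μ hω hD ε z.2 k hF) hη hδ (fun z n => ?_) ?_ hsmall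
  · have h1 : (0 : ℝ) < ((n + 1 : ℕ) : ℝ) ^ D := by positivity
    have h3 : ∑ z : Subgroup.center G, avg D ε (z : G) 1 n U = (1 * ((n + 1 : ℕ) : ℝ) ^ D)⁻¹ *
        ∑ x ∈ Qb D 0 ((n + 1 : ℕ) : ℤ), ∑ z : Subgroup.center G, fz ε (z : G) (PolZ U x) := by
      unfold avg
      rw [← Finset.mul_sum, Finset.sum_comm]
    rw [h3, one_mul, inv_mul_le_iff₀ h1, mul_one]
    calc ∑ x ∈ Qb D 0 ((n + 1 : ℕ) : ℤ), ∑ z : Subgroup.center G, fz ε (z : G) (PolZ U x) ≤
          ∑ _x ∈ Qb D 0 ((n + 1 : ℕ) : ℤ), (1 : ℝ) :=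
          Finset.sum_le_sum fun x _ => fz_sum_le hε hd _
      _ = _ := by
          rw [Finset.sum_const, nsmul_eq_mul, mul_one, card_Qb]
          have : (((n + 1 : ℕ) : ℤ) - 0).toNat = n + 1 := by omega
          rw [this]
          push_cast
          rfl
  · have h1 : (0 : ℝ) < ((n + 1 : ℕ) : ℝ) ^ D := by positivity
    have hfc : ∀ x : Fin D → ℤ, Continuous fun U : LZ D t → G =>
        (1 - fz ε (z : G) (PolZ U 0)) * fz ε (z : G) (PolZ U x) := fun x =>
      (continuous_const.sub (fzP_cont ε _ 0)).mul (fzP_cont ε _ x)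
    have h3 : ∀ U : LZ D t → G, (1 - fz ε (z : G) (PolZ U 0)) * avg D ε (z : G) 1 n U =
        (1 * ((n + 1 : ℕ) : ℝ) ^ D)⁻¹ * ∑ x ∈ Qb D 0 ((n + 1 : ℕ) : ℤ),
          (1 - fz ε (z : G) (PolZ U 0)) * fz ε (z : G) (PolZ U x) := by
      intro U
      unfold avg
      rw [← Finset.mul_sum]
      ring
    simp only [h3]
    rw [integral_const_mul, integral_finsetSum _ fun x _ => cont_int (hfc x) ω, one_mul,
      inv_mul_le_iff₀ h1]
    calc ∑ x ∈ Qb D 0 ((n + 1 : ℕ) : ℤ),
          ∫ U, (1 - fz ε (z : G) (PolZ U 0)) * fz ε (z : G) (PolZ U x) ∂ω ≤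
          ∑ _x ∈ Qb D 0 ((n + 1 : ℕ) : ℤ), η := by
          refine Finset.sum_le_sum fun x _ => ?_
          refine le_trans ?_ (h2 ω hω x 0)
          rw [← integral_indicator_one (hcm x 0)]
          exact integral_mono (cont_int (hfc x) ω) ((integrable_const _).indicator (hcm x 0))
            fun U => fz_cor hε hd z.2 x U
      _ = _ := by
          rw [Finset.sum_const, nsmul_eq_mul, card_Qb]
          have : (((n + 1 : ℕ) : ℤ) - 0).toNat = n + 1 := by omega
          rw [this]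
          push_cast
          rfl
  · rw [← integral_finsetSum _ fun z _ => cont_int (fzP_cont ε _ 0) ω]
    have h3 : 1 - η ≤ ω.real {U | Cl ε 0 0 U} := by
      have h4 := probReal_compl_eq_one_sub (μ := ω) (Cl_meas (D := D) (t := t) (G := G) ε 0 0)
      have h5 := h2 ω hω 0 0
      have h6 : {U : LZ D t → G | ¬ Cl ε 0 0 U} = {U | Cl ε 0 0 U}ᶜ := rfl
      rw [h6, h4] at h5
      linarith
    refine h3.trans ?_
    rw [← integral_indicator_one (Cl_meas ε 0 0)]
    refine integral_mono ((integrable_const _).indicator (Cl_meas ε 0 0))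
      (integrable_finsetSum _ fun z _ => cont_int (fzP_cont ε _ 0) ω) fun U => ?_
    simp only
    by_cases hU : Cl ε 0 0 U
    · rw [Set.indicator_of_mem (by simpa using hU), Pi.one_apply]
      obtain ⟨w, hw, h4, -⟩ := hU
      have h5 : fz ε w (PolZ U 0) = 1 := fz_one hε h4
      calc (1 : ℝ) = fz ε (((⟨w, hw⟩ : Subgroup.center G)) : G) (PolZ U 0) := h5.symm
        _ ≤ _ := Finset.single_le_sum (f := fun z : Subgroup.center G => fz ε (z : G) (PolZ U 0))
            (fun z _ => fz_nonneg _ _ _) (Finset.mem_univ _)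
    · rw [Set.indicator_of_notMem (by simpa using hU)]
      exact Finset.sum_nonneg fun z _ => fz_nonneg _ _ _

/-- the order parameter controls all loops -/
lemma ord_of_fz {ω : Measure (LZ D t → G)} [IsProbabilityMeasure ω] (hT : IsT ω) {ε ε' η : ℝ}
    (hε : 0 < ε) (hεε : 2 * ε ≤ ε') {z : G} (h : 1 - η ≤ ∫ U, fz ε z (PolZ U 0) ∂ω) :
    Ord ε' η z ω := by
  intro x
  have hS : MeasurableSet {U : LZ D t → G | ‖mt (PolZ U x) - mt z‖ ≤ ε'} :=
    measurableSet_le (nrm_cont x _).measurable measurable_const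
  refine h.trans ?_
  rw [← fz_inv hT ε z x, ← integral_indicator_one hS]
  refine integral_mono (cont_int (fzP_cont ε z x) ω) ((integrable_const _).indicator hS)
    fun U => ?_
  by_cases hU : U ∈ {U : LZ D t → G | ‖mt (PolZ U x) - mt z‖ ≤ ε'}
  · rw [Set.indicator_of_mem hU]
    exact fz_le _ _ _
  · rw [Set.indicator_of_notMem hU]
    have h2 : ε' < ‖mt (PolZ U x) - mt z‖ := not_le.1 hU
    simp only
    rw [fz_zero hε (by linarith)]

end

end Pool.Agent.H991.AP
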