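import Mathlib
import Pool.Agent.H991.AP.Fin
import Pool.Agent.H991.DC.Main2

/-!
# The translation invariant Gibbs states at weak coupling
-/

open MeasureTheory Matrix Filter
open scoped Matrix.Norms.Frobenius Topology ENNReal
open Pool.Agent.N899.SB
open Pool.Agent.N899.BB (we)
open Pool.Agent.Y14.Wilson
open Pool.Agent.H991.DC

namespace Pool.Agent.H991.AP

noncomputable section

section ab

variable {N : ℕ} {G : Subgroup (UU N)} [MeasurableSpace G] [BorelSpace G] [CompactSpace G]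
  [SecondCountableTopology G] (μ : Measure G) [IsProbabilityMeasure μ] [μ.IsHaarMeasure]
  {D t : ℕ} [NeZero t]

/-- the mixtures -/
def Mix (β ε η : ℝ) (ω : Measure (LZ D t → G)) : Prop :=
  ∃ (p : Subgroup.center G → ℝ) (ν : Subgroup.center G → Measure (LZ D t → G)),
    (∀ z : Subgroup.center G, 0 ≤ p z ∧ Sol (Eqs μ β) (ν z) ∧ Ord ε η (z : G) (ν z)) ∧
    ω = Measure.sum fun z => ENNReal.ofReal (p z) • ν z

lemma ord_uniq {ε η : ℝ} (hη : η < 1 / 2)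
    (hd : ∀ z ∈ Subgroup.center G, ∀ z' ∈ Subgroup.center G, ‖mt z - mt z'‖ ≤ 2 * ε → z = z')
    {ω : Measure (LZ D t → G)} [IsProbabilityMeasure ω] {z z' : G} (hz : z ∈ Subgroup.center G)
    (hz' : z' ∈ Subgroup.center G) (h : Ord ε η z ω) (h' : Ord ε η z' ω) : z = z' := by
  by_contra hne
  have hdis : Disjoint {U : LZ D t → G | ‖mt (PolZ U 0) - mt z‖ ≤ ε}
      {U : LZ D t → G | ‖mt (PolZ U 0) - mt z'‖ ≤ ε} := by
    rw [Set.disjoint_left]
    intro U hU hU'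
    apply hne
    refine hd z hz z' hz' ?_
    have k1 : ‖mt (PolZ U 0) - mt z‖ ≤ ε := hU
    have k2 : ‖mt (PolZ U 0) - mt z'‖ ≤ ε := hU'
    calc ‖mt z - mt z'‖ ≤ ‖mt z - mt (PolZ U 0)‖ + ‖mt (PolZ U 0) - mt z'‖ :=
          norm_sub_le_norm_sub_add_norm_sub _ _ _
      _ ≤ 2 * ε := by rw [norm_sub_rev]; linarith
  have hms : MeasurableSet {U : LZ D t → G | ‖mt (PolZ U 0) - mt z'‖ ≤ ε} :=
    measurableSet_le (nrm_cont 0 _).measurable measurable_const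
  have h4 := measureReal_union (μ := ω) hdis hms
  have h5 : ω.real ({U : LZ D t → G | ‖mt (PolZ U 0) - mt z‖ ≤ ε} ∪
      {U : LZ D t → G | ‖mt (PolZ U 0) - mt z'‖ ≤ ε}) ≤ 1 := measureReal_le_one
  have h6 := h 0
  have h7 := h' 0
  linarith

/-- the mixtures from the cones -/
lemma mix_of_dec [Fintype (Subgroup.center G)] {β ε ε' δ : ℝ} (hε : 0 < ε) (hεε : 2 * ε ≤ ε')
    (hex : ∀ z : Subgroup.center G, ∃ ν : Measure (LZ D t → G), Sol (Eqs μ β) ν ∧ Ord ε' δ (z : G) ν)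
    (ω : Measure (LZ D t → G)) (m : Subgroup.center G → Measure (LZ D t → G))
    (hm : ∀ z : Subgroup.center G, Cph (Eqs μ β) (fun U => fz ε (z : G) (PolZ U 0)) δ (m z))
    (hω : ω = ∑ z, m z) : Mix μ β ε' δ ω := by
  have h : ∀ z : Subgroup.center G, ∃ (p : ℝ) (ν : Measure (LZ D t → G)),
      (0 ≤ p ∧ Sol (Eqs μ β) ν ∧ Ord ε' δ (z : G) ν) ∧ m z = ENNReal.ofReal p • ν := by
    intro z
    have hfin := (hm z).1.1
    rcases eq_or_ne (m z) 0 with h0 | h0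
    · obtain ⟨ν, hν, hν'⟩ := hex z
      exact ⟨0, ν, ⟨le_rfl, hν, hν'⟩, by rw [h0]; simp⟩
    · obtain ⟨q, hq⟩ : ∃ q, q = m z Set.univ := ⟨_, rfl⟩
      have hq0 : q ≠ 0 := by
        rw [hq]
        exact fun h => h0 (Measure.measure_univ_eq_zero.1 h)
      have hqt : q ≠ ∞ := by rw [hq]; exact measure_ne_top _ _
      have hqi : q⁻¹ ≠ ∞ := ENNReal.inv_ne_top.2 hq0
      have hC := Cph_smul (hm z) hqi
      have hp : IsProbabilityMeasure (q⁻¹ • m z) := by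
        refine ⟨?_⟩
        rw [Measure.smul_apply, smul_eq_mul, ← hq]
        exact ENNReal.inv_mul_cancel hq0 hqt
      have hS : Sol (Eqs μ β) (q⁻¹ • m z) := ⟨hp, hC.1.2⟩
      refine ⟨q.toReal, q⁻¹ • m z, ⟨ENNReal.toReal_nonneg, hS, ?_⟩, ?_⟩
      · refine ord_of_fz ((Sol_iff μ β _).1 hS).2.2 hε hεε ?_
        have h1 := hC.2
        rw [probReal_univ, mul_one, integral_sub (integrable_const _)
          (cont_int (fzP_cont ε _ 0) _), integral_const, probReal_univ, one_smul] at h1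
        linarith
      · rw [ENNReal.ofReal_toReal hqt, smul_smul, ENNReal.mul_inv_cancel hq0 hqt, one_smul]
  choose p ν hpν hmν using h
  refine ⟨p, ν, hpν, ?_⟩
  rw [Measure.sum_fintype, hω]
  exact Finset.sum_congr rfl fun z _ => hmν z

/-- extremal mixtures -/
lemma ext_mix {β ε η : ℝ} {ω : Measure (LZ D t → G)} (hω : Extr (Sol (Eqs μ β)) ω)
    (hmix : Mix μ β ε η ω) : ∃ z ∈ Subgroup.center G, Ord ε η z ω := by
  obtain ⟨p, ν, hp, hsum⟩ := hmix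
  have i1 := hω.1.1
  have hex : ∃ z, 0 < p z := by
    by_contra hcon
    push Not at hcon
    have h0 : ω = 0 := by
      rw [hsum]
      have h1 : (fun z => ENNReal.ofReal (p z) • ν z) = fun _ => 0 := by
        funext z
        rw [ENNReal.ofReal_of_nonpos (hcon z), zero_smul]
      rw [h1, Measure.sum_zero]
    exact IsProbabilityMeasure.ne_zero ω h0
  obtain ⟨z, hz⟩ := hex
  obtain ⟨-, hS, hO⟩ := hp z
  refine ⟨z, z.2, ?_⟩
  have hle : ENNReal.ofReal (p z) • ν z ≤ ω := by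
    rw [hsum]
    exact Measure.le_sum (fun z => ENNReal.ofReal (p z) • ν z) z
  have hpi : 0 < (p z)⁻¹ := inv_pos.2 hz
  have hdom : ν z ≤ ENNReal.ofReal ((p z)⁻¹ + 1) • ω := by
    calc ν z = ENNReal.ofReal (p z)⁻¹ • (ENNReal.ofReal (p z) • ν z) := by
          rw [smul_smul, ← ENNReal.ofReal_mul hpi.le, inv_mul_cancel₀ hz.ne', ENNReal.ofReal_one,
            one_smul]
      _ ≤ ENNReal.ofReal (p z)⁻¹ • ω := by
          refine Measure.le_iff.2 fun E hE => ?_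
          rw [Measure.smul_apply, Measure.smul_apply, smul_eq_mul, smul_eq_mul]
          exact mul_le_mul' le_rfl (Measure.le_iff'.1 hle E)
      _ ≤ _ := by
          refine Measure.le_iff.2 fun E hE => ?_
          rw [Measure.smul_apply, Measure.smul_apply, smul_eq_mul, smul_eq_mul]
          exact mul_le_mul' (ENNReal.ofReal_le_ofReal (by linarith)) le_rfl
  have := dom_eq (Eqs_cont μ β) hω hS (by linarith : 1 < (p z)⁻¹ + 1) hdom
  rw [← this]
  exact hO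

end ab

theorem main_ext {N : ℕ} (G : Subgroup (UU N)) (hG : IsClosed (G : Set (UU N)))
    [PreconnectedSpace G] [Finite (Subgroup.center G)] [MeasurableSpace G] [BorelSpace G]
    (μ : Measure G) [IsProbabilityMeasure μ] [μ.IsHaarMeasure] (D : ℕ) (hD : 2 ≤ D) :
    ∃ κ : ℝ, 0 < κ ∧ ∃ ε0 : ℝ, 0 < ε0 ∧ ∀ ε : ℝ, 0 < ε → ε < ε0 → ∃ β0 : ℝ, 1 ≤ β0 ∧
    ∀ β : ℝ, β0 ≤ β → ∀ (t : ℕ) [NeZero t], (t : ℝ) ≤ β ^ κ →
    (∀ z ∈ Subgroup.center G, ∃ ω : Measure (LZ D t → G), Extr (Sol (Eqs μ β)) ω ∧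
      Ord ε (Real.exp (-β ^ κ)) z ω) ∧
    (∀ ω : Measure (LZ D t → G), Extr (Sol (Eqs μ β)) ω →
      ∃! z, z ∈ Subgroup.center G ∧ Ord ε (Real.exp (-β ^ κ)) z ω) ∧
    (∀ ω : Measure (LZ D t → G), Sol (Eqs μ β) ω → Mix μ β ε (Real.exp (-β ^ κ)) ω) := by
  have hcG := Pool.Agent.N899.BB.Est.compactG hG
  have hsG : SecondCountableTopology G := Pool.Agent.N899.BB.Est.scG
  have hFt : Fintype (Subgroup.center G) := Fintype.ofFinite _
  obtain ⟨κ1, hκ1, htwo⟩ := two_pt G hG μ D hD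
  obtain ⟨κ2, hκ2, hinf⟩ := main_inf G hG μ D hD
  obtain ⟨κ, hκ⟩ : ∃ κ, κ = min κ1 κ2 / 2 := ⟨_, rfl⟩
  have hκm : 0 < min κ1 κ2 := lt_min hκ1 hκ2
  have hκ0 : 0 < κ := by rw [hκ]; positivity
  have hκκ1 : κ + κ ≤ κ1 := by
    have := min_le_left κ1 κ2
    rw [hκ]
    linarith
  have hκκ2 : κ ≤ κ2 := by
    have := min_le_right κ1 κ2
    rw [hκ]
    linarith
  obtain ⟨d, hd, hsep⟩ := center_sep G
  refine ⟨κ, hκ0, d / 2, by positivity, fun ε hε hεd => ?_⟩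
  obtain ⟨ε1, hε1⟩ : ∃ ε1, ε1 = min (ε / 2) (d / 4) := ⟨_, rfl⟩
  have hε10 : 0 < ε1 := by rw [hε1]; exact lt_min (by positivity) (by positivity)
  have hε1ε : 2 * ε1 ≤ ε := by
    have : ε1 ≤ ε / 2 := by rw [hε1]; exact min_le_left _ _
    linarith
  have hε1d : 4 * ε1 ≤ d := by
    have : ε1 ≤ d / 4 := by rw [hε1]; exact min_le_right _ _
    linarith
  obtain ⟨β1, hβ1, h1⟩ := htwo ε1 hε10
  obtain ⟨β2, hβ2, h2⟩ := hinf ε1 hε10
  obtain ⟨c, hc⟩ : ∃ c : ℝ, c = Fintype.card (Subgroup.center G) := ⟨_, rfl⟩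
  have hc1 : 1 ≤ c := by rw [hc]; exact_mod_cast Fintype.card_pos
  have hlc : 0 ≤ Real.log (8 * c) := Real.log_nonneg (by linarith)
  obtain ⟨β3, hβ3⟩ : ∃ β3 : ℝ, β3 = (1 + Real.log (8 * c)) ^ (1 / κ) := ⟨_, rfl⟩
  have hβ30 : 0 ≤ β3 := by rw [hβ3]; positivity
  refine ⟨β1 + β2 + β3, by linarith, fun β hβ t _ ht => ?_⟩
  have hβ11 : 1 ≤ β := by linarith
  obtain ⟨y, hy⟩ : ∃ y : ℝ, y = β ^ κ := ⟨_, rfl⟩
  have hy1 : 1 + Real.log (8 * c) ≤ y := by
    have h1 : β3 ^ κ ≤ β ^ κ := Real.rpow_le_rpow hβ30 (by linarith) hκ0.le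
    rw [hβ3, ← Real.rpow_mul (by positivity), one_div, inv_mul_cancel₀ hκ0.ne', Real.rpow_one] at h1
    rw [hy]
    exact h1
  have hyy : y * y ≤ β ^ κ1 := by
    rw [hy, ← Real.rpow_add (by linarith)]
    exact Real.rpow_le_rpow_of_exponent_le hβ11 hκκ1
  have ht1 : (t : ℝ) ≤ β ^ κ1 :=
    ht.trans (Real.rpow_le_rpow_of_exponent_le hβ11 (by linarith))
  have ht2 : (t : ℝ) ≤ β ^ κ2 :=
    ht.trans (Real.rpow_le_rpow_of_exponent_le hβ11 hκκ2)
  obtain ⟨η, hη⟩ : ∃ η : ℝ, η = Real.exp (-β ^ κ1) := ⟨_, rfl⟩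
  obtain ⟨δ, hδ⟩ : ∃ δ : ℝ, δ = Real.exp (-β ^ κ) := ⟨_, rfl⟩
  have hη0 : 0 < η := by rw [hη]; exact Real.exp_pos _
  have hδ0 : 0 < δ := by rw [hδ]; exact Real.exp_pos _
  have hηδ : η / δ ≤ 1 / (8 * c) := by
    rw [hη, hδ, ← Real.exp_sub, ← hy]
    have h1 : Real.log (8 * c) ≤ y * y - y := by
      have k1 : 0 ≤ y * (y - (1 + Real.log (8 * c))) :=
        mul_nonneg (by linarith) (sub_nonneg.2 hy1)
      have k2 : 0 ≤ Real.log (8 * c) * (y - 1) := mul_nonneg hlc (by linarith)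
      linarith
    calc Real.exp (-(β ^ κ1) - -y) ≤ Real.exp (-Real.log (8 * c)) :=
          Real.exp_le_exp.2 (by linarith)
      _ = 1 / (8 * c) := by rw [Real.exp_neg, Real.exp_log (by positivity), one_div]
  have hδe : δ ≤ Real.exp (-1) := by
    rw [hδ, ← hy]
    exact Real.exp_le_exp.2 (by linarith)
  have hδ2 : δ < 1 / 2 := by
    have h4 : Real.exp (-1) < 1 / 2 := by
      rw [Real.exp_neg, ← one_div, div_lt_div_iff₀ (Real.exp_pos _) (by norm_num)]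
      have := Real.exp_one_gt_d9
      linarith
    linarith
  have hsmall : η + Fintype.card (Subgroup.center G) * (η / δ) ≤ 1 / 2 := by
    rw [← hc]
    have h2 : η ≤ η / δ := by
      rw [le_div_iff₀ hδ0]
      exact mul_le_of_le_one_right hη0.le (by linarith)
    have h3 : 1 / (8 * c) ≤ 1 / 8 := one_div_le_one_div_of_le (by norm_num) (by linarith)
    have h4 : c * (η / δ) ≤ 1 / 8 := by
      calc c * (η / δ) ≤ c * (1 / (8 * c)) := mul_le_mul_of_nonneg_left hηδ (by linarith)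
        _ = 1 / 8 := by field_simp
    linarith
  have hpure : ∀ z ∈ Subgroup.center G, ∃ ω : Measure (LZ D t → G), Extr (Sol (Eqs μ β)) ω ∧
      Ord ε δ z ω := by
    intro z hz
    obtain ⟨ω0, i0, hT0, hG0, hlow⟩ := h2 β (by linarith) t ht2 z hz
    have hS0 : Sol (Eqs μ β) ω0 := (Sol_iff μ β ω0).2 ⟨i0, hG0, hT0⟩
    obtain ⟨ω, hω, hmax⟩ := exists_extr (S := Sol (Eqs μ β)) (fun ω h => h.1)
      (Sol_closed (Eqs_cont μ β)) hS0 ⟨fun U => fz ε1 z (PolZ U 0), fzP_cont ε1 z 0⟩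
    refine ⟨ω, hω, ?_⟩
    have i1 := hω.1.1
    refine ord_of_fz ((Sol_iff μ β _).1 hω.1).2.2 hε10 hε1ε ?_
    have h3 := hmax ω0 hS0
    have h4 : 1 - Real.exp (-β ^ κ2) ≤ ∫ U, fz ε1 z (PolZ U 0) ∂ω0 := by
      refine (hlow 0).trans ?_
      have hS : MeasurableSet {U : LZ D t → G | ‖mt (PolZ U 0) - mt z‖ ≤ ε1} :=
        measurableSet_le (nrm_cont 0 _).measurable measurable_const
      rw [← integral_indicator_one hS]
      refine integral_mono ((integrable_const _).indicator hS) (cont_int (fzP_cont ε1 z 0) ω0)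
        fun U => ?_
      by_cases hU : U ∈ {U : LZ D t → G | ‖mt (PolZ U 0) - mt z‖ ≤ ε1}
      · rw [Set.indicator_of_mem hU]
        simp only
        rw [fz_one hε10 hU]
        rfl
      · rw [Set.indicator_of_notMem hU]
        exact fz_nonneg _ _ _
    have h5 : Real.exp (-β ^ κ2) ≤ δ := by
      rw [hδ]
      exact Real.exp_le_exp.2 (neg_le_neg (Real.rpow_le_rpow_of_exponent_le hβ11 hκκ2))
    have h6 : ∫ U, fz ε1 z (PolZ U 0) ∂ω0 ≤ ∫ U, fz ε1 z (PolZ U 0) ∂ω := h3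
    linarith
  have hmix : ∀ ω : Measure (LZ D t → G), Sol (Eqs μ β) ω → Mix μ β ε δ ω := by
    intro ω hω
    obtain ⟨m, hm, hsum⟩ := dec (Eqs_cont μ β)
      (fun (z : Subgroup.center G) U => fz ε1 (z : G) (PolZ U 0)) (fun z => fzP_cont ε1 _ 0)
      (fun ω hω => gib_step μ (by omega : D ≠ 0) hε10 hη0.le hδ0
        (fun z hz z' hz' hle => hsep z hz z' hz' (hle.trans hε1d)) hsmall
        (fun ω hω x y => by
          obtain ⟨i, hG', hT'⟩ := (Sol_iff μ β ω).1 hω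
          rw [hη]
          exact h1 β (by linarith) t ht1 ω hG' hT' x y) ω hω) ω
      ⟨by have := hω.1; infer_instance, hω.2⟩
    exact mix_of_dec μ hε10 hε1ε (fun z => by
      obtain ⟨ν, hν, hν'⟩ := hpure z z.2
      exact ⟨ν, hν.1, hν'⟩) ω m hm hsum
  refine ⟨?_, fun ω hω => ?_, ?_⟩
  · rw [← hδ]
    exact hpure
  · rw [← hδ]
    have i1 := hω.1.1
    obtain ⟨z, hz, hO⟩ := ext_mix μ hω (hmix ω hω.1)
    refine ⟨z, ⟨hz, hO⟩, fun z' hz' => ?_⟩
    exact ord_uniq hδ2 (fun z hz z' hz' hle => hsep z hz z' hz' (hle.trans (by linarith)))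
      hz'.1 hz hz'.2 hO
  · rw [← hδ]
    exact hmix

end

end Pool.Agent.H991.AP
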